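/-
MP_e98778_an, FULL PROJECT, MODULE L (lattices and chain), definitions.

Everything here is abstract: a finite dimensional real space V with a lattice Lam, the tautological
plane spanned by e1 = [dx], e2 = [dy], the mean q : V -> R^2, and for every level s and slope u an
Euclidean norm  N_{s,u}(x)^2 = |A_{s,u} q x|^2 + G_{s,u}(x,x).
-/
import Mathlib

open MeasureTheory Set

namespace Pool.Agent.TFL

/-- Euclidean length in the plane. -/
noncomputable def len (p : ℝ × ℝ) : ℝ := Real.sqrt (p.1 ^ 2 + p.2 ^ 2)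

/-- The matrix `A_{s,u}` acting on covectors: `(a,b) ↦ (e^{-s} a, e^s (b + u a))`. -/
noncomputable def act (s u : ℝ) : (ℝ × ℝ) →ₗ[ℝ] (ℝ × ℝ) where
  toFun p := (Real.exp (-s) * p.1, Real.exp s * (p.2 + u * p.1))
  map_add' p p' := by ext <;> simp <;> ring
  map_smul' c p := by ext <;> simp <;> ring

/-! ### Forms, norms, Gram volumes -/

section Forms
variable {E : Type*} [AddCommGroup E] [Module ℝ E]

/-- Symmetric and positive definite. -/
structure Pos (B : LinearMap.BilinForm ℝ E) : Prop where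
  symm : ∀ x y, B x y = B y x
  pos : ∀ x, x ≠ 0 → 0 < B x x

/-- The norm of a form. -/
noncomputable def nm (B : LinearMap.BilinForm ℝ E) (x : E) : ℝ := Real.sqrt (B x x)

/-- The volume of the parallelepiped spanned by `z` : square root of the Gram determinant. -/
noncomputable def vol (B : LinearMap.BilinForm ℝ E) {r : ℕ} (z : Fin r → E) : ℝ :=
  Real.sqrt (Matrix.of fun i j => B (z i) (z j)).det

/-- The real span of a family. -/
def spn {r : ℕ} (z : Fin r → E) : Submodule ℝ E := Submodule.span ℝ (Set.range z)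

end Forms

/-! ### The system -/

/-- The abstract data: mean `q`, tautological classes `e1, e2`, lattice `Lam`, forms `G s u`. -/
structure Sys (V : Type) [AddCommGroup V] [Module ℝ V] where
  q : V →ₗ[ℝ] ℝ × ℝ
  e1 : V
  e2 : V
  q1 : q e1 = (1, 0)
  q2 : q e2 = (0, 1)
  Lam : AddSubgroup V
  G : ℝ → ℝ → LinearMap.BilinForm ℝ V
  Gsymm : ∀ s u x y, G s u x y = G s u y x
  Gnonneg : ∀ s u x, 0 ≤ G s u x x
  Ge1 : ∀ s u x, G s u e1 x = 0
  Ge2 : ∀ s u x, G s u e2 x = 0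
  Gpos : ∀ s u x, q x = 0 → x ≠ 0 → 0 < G s u x x
  Gup : ∀ s u t x, 0 ≤ t → G (s + t) u x x ≤ Real.exp (2 * t) * G s u x x
  Gdown : ∀ s u t x, 0 ≤ t → G s u x x ≤ Real.exp (2 * t) * G (s + t) u x x
  Gcell : ∀ s u u₀ x, |u - u₀| ≤ Real.exp (-(2 * s)) → G s u x x ≤ 3 * G s u₀ x x

namespace Sys
variable {V : Type} [AddCommGroup V] [Module ℝ V] (S : Sys V)

/-- The form `N_{s,u}` on `V`. -/
noncomputable def N (s u : ℝ) : LinearMap.BilinForm ℝ V :=
  LinearMap.mk₂ ℝ (fun x y => (act s u (S.q x)).1 * (act s u (S.q y)).1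
      + (act s u (S.q x)).2 * (act s u (S.q y)).2 + S.G s u x y)
    (by intro a b c; simp; ring) (by intro a b c; simp; ring)
    (by intro a b c; simp; ring) (by intro a b c; simp; ring)

/-- The map `(m, j) ↦ j x - m`. -/
noncomputable def aff (x : V) : (V × ℝ) →ₗ[ℝ] V :=
  (LinearMap.snd ℝ V ℝ).smulRight x - LinearMap.fst ℝ V ℝ

theorem aff_apply (x : V) (y : V × ℝ) : aff x y = y.2 • x - y.1 := by
  simp [aff]

/-- The form `N^+` on `V × ℝ`, for the affine class `x`: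
`(m,j) ↦ N_{s,u}(j x - m)^2 + j^2`. -/
noncomputable def F (s u : ℝ) (x : V) : LinearMap.BilinForm ℝ (V × ℝ) :=
  LinearMap.mk₂ ℝ (fun y y' => S.N s u (aff x y) (aff x y') + y.2 * y'.2)
    (by intro a b c; simp; ring) (by intro a b c; simp; ring)
    (by intro a b c; simp; ring) (by intro a b c; simp; ring)

/-- The `q`-part of `(m,j)` : `A_{s,u} q (j x - m)`. -/
noncomputable def Q (s u : ℝ) (x : V) : (V × ℝ) →ₗ[ℝ] (ℝ × ℝ) :=
  (act s u).comp (S.q.comp (aff x))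

/-- The lattice `Lam × ℤ` in `V × ℝ`. -/
def L : AddSubgroup (V × ℝ) := S.Lam.prod (AddSubgroup.zmultiples (1 : ℝ))

/-- `z` is a label of rank `r` at `(s,u)` for the class `x` with `q`-defect `e^{-v}` and
volume at most `e^{ζ v}`. -/
structure IsLabel (x : V) (ζ : ℝ) {r : ℕ} (s u v : ℝ) (z : Fin r → V × ℝ) : Prop where
  mem : ∀ i, z i ∈ S.L
  indep : LinearIndependent ℝ z
  aff : ∃ i, (z i).2 ≠ 0
  vol_le : vol (S.F s u x) z ≤ Real.exp (ζ * v)
  q_le : ∀ y ∈ spn z, len (S.Q s u x y) ≤ Real.exp (-v) * nm (S.F s u x) y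

/-- The event `E_r(s,v)`. -/
def Ev (x : ℝ → V) (ζ : ℕ → ℝ) (r : ℕ) (s v : ℝ) : Set ℝ :=
  {u | ∃ z : Fin r → V × ℝ, S.IsLabel (x u) (ζ r) s u v z}

/-- (NS) Volumes do not shrink. -/
def NS (C δ : ℝ) : Prop :=
  ∀ (r : ℕ) (z : Fin r → V × ℝ), LinearIndependent ℝ z → ∀ s t u₀ ρ : ℝ, 0 ≤ t → 0 < ρ →
    volume {u | |u - u₀| ≤ Real.exp (-(2 * s)) ∧
      vol (S.F (s + t) u 0) z ≤ ρ * vol (S.F s u₀ 0) z} ≤
      ENNReal.ofReal (C * ρ ^ δ * Real.exp (-(2 * s)))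

/-- The set where the `H_0`-part grows too fast between the levels `s` and `s + t`. -/
def GRbad (C c₂ s t : ℝ) : Set ℝ :=
  {u | ∃ x, S.q x = 0 ∧ C * Real.exp (2 * (1 - 2 * c₂) * t) * S.G s u x x < S.G (s + t) u x x}

/-- (GR) Large deviations + gap. -/
def GR (C c c₂ : ℝ) : Prop :=
  ∀ a b : ℝ, a < b → ∃ s₀ : ℝ, ∀ s t : ℝ, s₀ ≤ s → 0 ≤ t →
    volume (S.GRbad C c₂ s t ∩ Icc a b) ≤ ENNReal.ofReal (C * Real.exp (-(c * t)) * (b - a))

/-- The set where the systole of the lattice is at most `ρ`. -/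
def SYSbad (ρ s : ℝ) : Set ℝ := {u | ∃ m ∈ S.Lam, m ≠ 0 ∧ nm (S.N s u) m ≤ ρ}

/-- (SYS) -/
def SYS (C β : ℝ) : Prop :=
  ∀ a b : ℝ, a < b → ∃ s₀ : ℝ, ∀ s ρ : ℝ, s₀ ≤ s → 0 < ρ →
    volume (S.SYSbad ρ s ∩ Icc a b) ≤ ENNReal.ofReal (C * ρ ^ β * (b - a))

/-- The tangent class `c'(u) dx + (c(u) - u c'(u)) dy`. -/
noncomputable def xh (c c' : ℝ → ℝ) (u : ℝ) : V := c' u • S.e1 + (c u - u * c' u) • S.e2

end Sys

/-- Curvature hypotheses on `c` (on the interval `[a,b]`). -/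
structure Curv (c c' c'' : ℝ → ℝ) (κ K a b : ℝ) : Prop where
  d1 : ∀ u ∈ Icc a b, HasDerivAt c (c' u) u
  d2 : ∀ u ∈ Icc a b, HasDerivAt c' (c'' u) u
  lo : ∀ u ∈ Icc a b, κ ≤ c'' u
  hi : ∀ u ∈ Icc a b, c'' u ≤ K
  b1 : ∀ u ∈ Icc a b, |c' u| ≤ K

end Pool.Agent.TFL
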