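/-
MP_e98778_an, module L, LA1.
PAPER PROOF. vol B z = sqrt (det (B(z_i,z_j))), B symmetric positive definite.
(vol_comb)   If w_i = sum_j g_ij z_j then Gram(w) = g Gram(z) g^T, so vol w = |det g| vol z
             (det Gram(z) >= 0 : Gram is positive semidefinite).
(vol_pos)    z independent => Gram positive definite (c^T Gram c = B(sum c_i z_i, same) > 0) =>
             det > 0.
(exists_ortho) z independent: there are e : Fin r -> E with spn e = spn z, B(e_i,e_j) = delta_ij
             (Gram-Schmidt; e.g. put the inner product of B on the finite dimensional space spn z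
             and take stdOrthonormalBasis), and then z_i = sum_j g_ij e_j, vol z = |det g|.
(vol_le_prod) Hadamard: vol z <= prod nm(z_i).  If z is dependent vol z = 0.  Otherwise
             vol z = |det g| <= prod_i |row_i(g)|_2 = prod nm(z_i)
             (proof of Hadamard by induction / or: scale z_i to norm 1, then the Gram matrix is
             posdef with trace r and AM-GM on the eigenvalues gives det <= 1).
-/
import Pool.Agent.Helper45.TFL.Defs

open MeasureTheory Set

namespace Pool.Agent.TFL

section LA
variable {E : Type*} [AddCommGroup E] [Module ℝ E]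

theorem nm_nonneg (B : LinearMap.BilinForm ℝ E) (x : E) : 0 ≤ nm B x := Real.sqrt_nonneg _

theorem vol_nonneg (B : LinearMap.BilinForm ℝ E) {r : ℕ} (z : Fin r → E) : 0 ≤ vol B z :=
  Real.sqrt_nonneg _

private theorem h26_gram_comb {B : LinearMap.BilinForm ℝ E} {r : ℕ} (z w : Fin r → E)
    (g : Matrix (Fin r) (Fin r) ℝ) (hw : ∀ i, w i = ∑ j, g i j • z j) :
    (Matrix.of fun i j => B (w i) (w j)) =
      g * (Matrix.of fun i j => B (z i) (z j)) * g.transpose := by
  ext i j
  rw [Matrix.mul_apply]
  simp only [Matrix.of_apply, Matrix.mul_apply, Matrix.transpose_apply]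
  rw [hw i, hw j]
  simp only [map_sum, map_smul, LinearMap.sum_apply, LinearMap.smul_apply, smul_eq_mul]
  simp only [Finset.mul_sum, Finset.sum_mul]
  refine Finset.sum_congr rfl fun a _ => Finset.sum_congr rfl fun b _ => ?_
  ring

private theorem h26_quad {B : LinearMap.BilinForm ℝ E} {r : ℕ} (z : Fin r → E)
    (c : Fin r → ℝ) :
    dotProduct c ((Matrix.of fun i j => B (z i) (z j)).mulVec c) =
      B (∑ i, c i • z i) (∑ i, c i • z i) := by
  simp only [dotProduct, Matrix.mulVec, Matrix.of_apply]
  simp only [map_sum, map_smul, LinearMap.sum_apply, LinearMap.smul_apply, smul_eq_mul]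
  simp only [Finset.mul_sum]
  rw [Finset.sum_comm]
  refine Finset.sum_congr rfl fun a _ => Finset.sum_congr rfl fun b _ => ?_
  ring

private theorem h26_herm {B : LinearMap.BilinForm ℝ E} (hB : Pos B) {r : ℕ} (z : Fin r → E) :
    (Matrix.of fun i j => B (z i) (z j)).IsHermitian := by
  ext i j
  simp [Matrix.conjTranspose_apply, hB.symm (z j) (z i)]

private theorem h26_nonneg {B : LinearMap.BilinForm ℝ E} (hB : Pos B) (x : E) : 0 ≤ B x x := by
  by_cases h : x = 0
  · simp [h]
  · exact (hB.pos x h).le

private theorem h26_psd {B : LinearMap.BilinForm ℝ E} (hB : Pos B) {r : ℕ} (z : Fin r → E) :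
    (Matrix.of fun i j => B (z i) (z j)).PosSemidef := by
  refine Matrix.PosSemidef.of_dotProduct_mulVec_nonneg (h26_herm hB z) fun x => ?_
  have : (star x : Fin r → ℝ) = x := by ext i; simp
  rw [this, h26_quad]
  exact h26_nonneg hB _

private theorem h26_pd {B : LinearMap.BilinForm ℝ E} (hB : Pos B) {r : ℕ} {z : Fin r → E}
    (hz : LinearIndependent ℝ z) : (Matrix.of fun i j => B (z i) (z j)).PosDef := by
  refine Matrix.PosDef.of_dotProduct_mulVec_pos (h26_herm hB z) fun x hx => ?_
  have : (star x : Fin r → ℝ) = x := by ext i; simp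
  rw [this, h26_quad]
  refine hB.pos _ fun h0 => hx ?_
  have := Fintype.linearIndependent_iff.1 hz x h0
  ext i
  exact this i

theorem vol_comb {B : LinearMap.BilinForm ℝ E} (hB : Pos B) {r : ℕ} (z w : Fin r → E)
    (g : Matrix (Fin r) (Fin r) ℝ) (hw : ∀ i, w i = ∑ j, g i j • z j) :
    vol B w = |g.det| * vol B z := by
  unfold vol
  rw [h26_gram_comb z w g hw, Matrix.det_mul, Matrix.det_mul, Matrix.det_transpose]
  rw [show g.det * (Matrix.of fun i j => B (z i) (z j)).det * g.det =
    g.det ^ 2 * (Matrix.of fun i j => B (z i) (z j)).det by ring]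
  rw [Real.sqrt_mul (sq_nonneg _), Real.sqrt_sq_eq_abs]

theorem vol_pos {B : LinearMap.BilinForm ℝ E} (hB : Pos B) {r : ℕ} {z : Fin r → E}
    (hz : LinearIndependent ℝ z) : 0 < vol B z := by
  unfold vol
  exact Real.sqrt_pos.2 (h26_pd hB hz).det_pos

/-- A positive semidefinite matrix with unit diagonal has determinant at most one. -/
private theorem h26_det_le_one {r : ℕ} {M : Matrix (Fin r) (Fin r) ℝ} (hM : M.PosSemidef)
    (hd : ∀ i, M i i = 1) : M.det ≤ 1 := by
  have hdet := hM.isHermitian.det_eq_prod_eigenvalues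
  have htr := hM.isHermitian.trace_eq_sum_eigenvalues
  have hev : ∀ i, 0 ≤ hM.isHermitian.eigenvalues i := hM.eigenvalues_nonneg
  have hsum : ∑ i, hM.isHermitian.eigenvalues i = r := by
    have : M.trace = r := by simp [Matrix.trace, hd]
    rw [this] at htr
    simpa using htr.symm
  have hdet' : M.det = ∏ i, hM.isHermitian.eigenvalues i := by
    rw [hdet]; simp
  rw [hdet']
  calc ∏ i, hM.isHermitian.eigenvalues i
      ≤ ∏ i, Real.exp (hM.isHermitian.eigenvalues i - 1) := by
        refine Finset.prod_le_prod (fun i _ => hev i) fun i _ => ?_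
        have := Real.add_one_le_exp (hM.isHermitian.eigenvalues i - 1)
        linarith
    _ = 1 := by
        rw [← Real.exp_sum, Finset.sum_sub_distrib, hsum]
        simp

theorem vol_le_prod {B : LinearMap.BilinForm ℝ E} (hB : Pos B) {r : ℕ} (z : Fin r → E) :
    vol B z ≤ ∏ i, nm B (z i) := by
  by_cases hz : ∃ i, z i = 0
  · obtain ⟨i, hi⟩ := hz
    have : vol B z = 0 := by
      unfold vol
      rw [Matrix.det_eq_zero_of_row_eq_zero i (fun j => by simp [hi])]
      simp
    rw [this]
    exact Finset.prod_nonneg fun i _ => nm_nonneg B _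
  · push Not at hz
    have hp : ∀ i, 0 < nm B (z i) := fun i => Real.sqrt_pos.2 (hB.pos _ (hz i))
    set y : Fin r → E := fun i => (nm B (z i))⁻¹ • z i with hy
    have hzy : ∀ i, z i = ∑ j, (Matrix.diagonal fun i => nm B (z i)) i j • y j := by
      intro i
      rw [Finset.sum_eq_single i]
      · simp [hy, smul_smul, (hp i).ne']
      · intro j _ hj
        simp [Matrix.diagonal_apply_ne' _ hj]
      · simp
    rw [vol_comb hB y z _ hzy, Matrix.det_diagonal,
      abs_of_nonneg (Finset.prod_nonneg fun i _ => nm_nonneg B _)]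
    have h1 : vol B y ≤ 1 := by
      unfold vol
      refine Real.sqrt_le_one.2 ?_
      refine h26_det_le_one (h26_psd hB y) fun i => ?_
      have h2 : nm B (z i) ^ 2 = B (z i) (z i) := Real.sq_sqrt (h26_nonneg hB _)
      simp only [Matrix.of_apply, hy, map_smul, LinearMap.smul_apply, smul_eq_mul]
      rw [← h2]
      have := (hp i).ne'
      field_simp
    calc (∏ i, nm B (z i)) * vol B y ≤ (∏ i, nm B (z i)) * 1 :=
          mul_le_mul_of_nonneg_left h1 (Finset.prod_nonneg fun i _ => nm_nonneg B _)
      _ = _ := mul_one _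

end LA

end Pool.Agent.TFL
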