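/-
MP_e98778_an, module L, LA1b.
PAPER PROOF.
(vol_mono)   nm B x <= K nm B' x on spn z => vol B z <= K^r vol B' z: take e orthonormal for B'
             (z = g e); vol B z = |det g| vol B e <= |det g| prod nm B e_i <= |det g| K^r
             = K^r vol B' z.  (z dependent: both sides are 0: det Gram = 0.)
(vol_ratio)  spn z = spn w, both independent, B, B' two forms:
             w = g z, so vol B w = |det g| vol B z and vol B' w = |det g| vol B' z.
(coef_bound) |c_i| vol z <= nm(sum c_j z_j) prod_{j<>i} nm(z_j):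
             with w = Function.update z i (sum c_j z_j), w = g z, det g = c_i; then Hadamard.
-/
import Pool.Agent.Helper45.TFL.LA1

open MeasureTheory Set

namespace Pool.Agent.TFL

section LA
variable {E : Type*} [AddCommGroup E] [Module ℝ E]

private theorem h2_vol_dep {B : LinearMap.BilinForm ℝ E} {r : ℕ} (z : Fin r → E)
    (h : ¬ LinearIndependent ℝ z) : vol B z = 0 := by
  rw [Fintype.not_linearIndependent_iff] at h
  obtain ⟨c, hc, i, hi⟩ := h
  have hdet : (Matrix.of fun i j => B (z i) (z j)).det = 0 := by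
    rw [← Matrix.exists_mulVec_eq_zero_iff]
    refine ⟨c, fun h0 => hi (by rw [h0]; rfl), ?_⟩
    funext k
    have : ∑ j, B (z k) (z j) * c j = B (z k) (∑ j, c j • z j) := by
      rw [map_sum]
      refine Finset.sum_congr rfl fun j _ => ?_
      rw [map_smul, smul_eq_mul, mul_comm]
    simp only [Matrix.mulVec, dotProduct, Matrix.of_apply, Pi.zero_apply]
    rw [this, hc, map_zero]
  unfold vol
  rw [hdet, Real.sqrt_zero]

private theorem h2_exists_coef {r : ℕ} (e : Fin r → E) (x : E) (hx : x ∈ spn e) :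
    ∃ c : Fin r → ℝ, x = ∑ j, c j • e j := by
  unfold spn at hx
  rw [Submodule.mem_span_range_iff_exists_fun] at hx
  obtain ⟨c, hc⟩ := hx
  exact ⟨c, hc.symm⟩

private theorem h2_exists_orth {B : LinearMap.BilinForm ℝ E} (hB : Pos B) {r : ℕ} (z : Fin r → E)
    (hz : LinearIndependent ℝ z) :
    ∃ e : Fin r → E, (∀ i, e i ∈ spn z) ∧ (∀ i, z i ∈ spn e) ∧ ∀ i j, i ≠ j → B (e i) (e j) = 0 := by
  have hfin : Module.finrank ℝ (spn z) = r := by
    unfold spn
    rw [finrank_span_eq_card hz, Fintype.card_fin]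
  have : FiniteDimensional ℝ (spn z) :=
    FiniteDimensional.span_of_finite ℝ (Set.finite_range z)
  have hs : LinearMap.IsSymm (B.restrict (spn z)) := ⟨fun x y => hB.symm x y⟩
  obtain ⟨v, hv⟩ := LinearMap.BilinForm.exists_orthogonal_basis hs
  let v' := v.reindex (finCongr hfin)
  refine ⟨fun i => (v' i : E), fun i => (v' i).2, fun i => ?_, fun i j hij => ?_⟩
  · have hzi : z i ∈ spn z := Submodule.subset_span ⟨i, rfl⟩
    have h1 : (⟨z i, hzi⟩ : spn z) = ∑ j, v'.repr ⟨z i, hzi⟩ j • v' j := (v'.sum_repr _).symm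
    have h2 : z i = ∑ j, v'.repr ⟨z i, hzi⟩ j • (v' j : E) := by
      have := congrArg (Submodule.subtype (spn z)) h1
      rw [map_sum] at this
      simpa using this
    rw [h2]
    refine Submodule.sum_mem _ fun j _ => Submodule.smul_mem _ _ (Submodule.subset_span ⟨j, rfl⟩)
  · have hne : (finCongr hfin).symm i ≠ (finCongr hfin).symm j :=
      fun h => hij ((finCongr hfin).symm.injective h)
    have := hv hne
    have h3 : (B.restrict (spn z)) (v ((finCongr hfin).symm i)) (v ((finCongr hfin).symm j)) = 0 := this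
    simpa [v'] using h3

private theorem h2_vol_orth {B : LinearMap.BilinForm ℝ E} (hB : Pos B) {r : ℕ} (e : Fin r → E)
    (he : ∀ i j, i ≠ j → B (e i) (e j) = 0) : vol B e = ∏ i, nm B (e i) := by
  have h1 : (Matrix.of fun i j => B (e i) (e j)) = Matrix.diagonal fun i => B (e i) (e i) := by
    ext i j
    by_cases hij : i = j
    · subst hij; simp
    · simp [hij, he i j hij]
  have h0 : ∀ x : E, 0 ≤ B x x := fun x => by
    by_cases hx : x = 0
    · subst hx; simp
    · exact (hB.pos x hx).le
  unfold vol nm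
  rw [h1, Matrix.det_diagonal, Real.sqrt_prod _ (fun i _ => h0 _)]

theorem vol_mono {B B' : LinearMap.BilinForm ℝ E} (hB : Pos B) (hB' : Pos B') {K : ℝ}
    (hK : 0 ≤ K) {r : ℕ} (z : Fin r → E) (h : ∀ x ∈ spn z, nm B x ≤ K * nm B' x) :
    vol B z ≤ K ^ r * vol B' z := by
  by_cases hz : LinearIndependent ℝ z
  · obtain ⟨e, he1, he2, he3⟩ := h2_exists_orth hB' z hz
    choose g hg using fun i => h2_exists_coef e (z i) (he2 i)
    rw [vol_comb hB e z (Matrix.of g) hg, vol_comb hB' e z (Matrix.of g) hg,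
      h2_vol_orth hB' e he3]
    have h1 : vol B e ≤ K ^ r * ∏ i, nm B' (e i) := by
      refine (vol_le_prod hB e).trans ?_
      calc ∏ i, nm B (e i) ≤ ∏ i, (K * nm B' (e i)) :=
            Finset.prod_le_prod (fun i _ => nm_nonneg _ _) (fun i _ => h _ (he1 i))
        _ = K ^ r * ∏ i, nm B' (e i) := by
            rw [Finset.prod_mul_distrib, Finset.prod_const, Finset.card_univ, Fintype.card_fin]
    calc |(Matrix.of g).det| * vol B e ≤ |(Matrix.of g).det| * (K ^ r * ∏ i, nm B' (e i)) :=
          mul_le_mul_of_nonneg_left h1 (abs_nonneg _)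
      _ = K ^ r * (|(Matrix.of g).det| * ∏ i, nm B' (e i)) := by ring
  · rw [h2_vol_dep z hz]
    exact mul_nonneg (pow_nonneg hK _) (vol_nonneg _ _)

theorem vol_ratio {B B' : LinearMap.BilinForm ℝ E} (hB : Pos B) (hB' : Pos B') {r : ℕ}
    {z w : Fin r → E} (hz : LinearIndependent ℝ z) (hw : LinearIndependent ℝ w)
    (h : spn z = spn w) : vol B z * vol B' w = vol B w * vol B' z := by
  have hmem : ∀ i, w i ∈ spn z := fun i => by
    rw [h]; exact Submodule.subset_span ⟨i, rfl⟩
  choose g hg using fun i => h2_exists_coef z (w i) (hmem i)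
  rw [vol_comb hB z w (Matrix.of g) hg, vol_comb hB' z w (Matrix.of g) hg]
  ring

theorem coef_bound {B : LinearMap.BilinForm ℝ E} (hB : Pos B) {r : ℕ} (z : Fin r → E)
    (c : Fin r → ℝ) (i : Fin r) :
    |c i| * vol B z ≤ nm B (∑ j, c j • z j) * ∏ j ∈ Finset.univ.erase i, nm B (z j) := by
  have hdet : ((1 : Matrix (Fin r) (Fin r) ℝ).updateRow i c).det = c i := by
    have := Matrix.cramer_transpose_apply (1 : Matrix (Fin r) (Fin r) ℝ) c i
    rw [← this, Matrix.transpose_one, Matrix.cramer_one]
    rfl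
  have hw : ∀ k, Function.update z i (∑ j, c j • z j) k
      = ∑ j, ((1 : Matrix (Fin r) (Fin r) ℝ).updateRow i c) k j • z j := by
    intro k
    by_cases hk : k = i
    · subst hk
      simp
    · rw [Function.update_of_ne hk, Matrix.updateRow_ne hk]
      simp [Matrix.one_apply]
  have h1 := vol_comb hB z (Function.update z i (∑ j, c j • z j)) _ hw
  rw [hdet] at h1
  rw [← h1]
  refine (vol_le_prod hB _).trans (le_of_eq ?_)
  rw [← Finset.mul_prod_erase Finset.univ _ (Finset.mem_univ i), Function.update_self]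
  congr 1
  refine Finset.prod_congr rfl fun j hj => ?_
  rw [Function.update_of_ne (Finset.ne_of_mem_erase hj)]

end LA

end Pool.Agent.TFL
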