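/-
MP_e98778_an, module L, TR1: elementary lemmas for the forms N_{s,u} and F_{s,u;x}.

PAPER PROOF.  All are direct.
act_add:   A_{s+t,u} p = (e^{-t} X, e^{t} Y) if A_{s,u} p = (X, Y).
act_cell:  A_{s,u} p = (X, Y + (u-u0) e^{2s} X) if A_{s,u0} p = (X, Y).
           So for |u-u0| <= e^{-2s}: |.|^2 <= X^2 + (|Y|+|X|)^2 <= 3 (X^2+Y^2) <= 4 (X^2+Y^2).
N, F:      N s u x x = len(act q x)^2 + G s u x x, F s u x y y = N(aff x y) + y.2^2.
           Positivity: act s u is injective; Gpos on ker q.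
-/
import Pool.Agent.Helper45.TFL.LA1b

open MeasureTheory Set

namespace Pool.Agent.TFL

theorem len_nonneg (p : ℝ × ℝ) : 0 ≤ len p := Real.sqrt_nonneg _

theorem len_sq (p : ℝ × ℝ) : len p ^ 2 = p.1 ^ 2 + p.2 ^ 2 := by
  rw [len, Real.sq_sqrt (by positivity)]

theorem act_add (s t u : ℝ) (p : ℝ × ℝ) :
    act (s + t) u p = (Real.exp (-t) * (act s u p).1, Real.exp t * (act s u p).2) := by
  ext
  · simp only [act, LinearMap.coe_mk, AddHom.coe_mk]
    rw [neg_add, Real.exp_add]; ring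
  · simp only [act, LinearMap.coe_mk, AddHom.coe_mk]
    rw [Real.exp_add]; ring

theorem act_cell (s u u₀ : ℝ) (p : ℝ × ℝ) :
    act s u p = ((act s u₀ p).1, (act s u₀ p).2 + (u - u₀) * Real.exp (2 * s) * (act s u₀ p).1) := by
  have h : Real.exp s = Real.exp (2 * s) * Real.exp (-s) := by
    rw [← Real.exp_add]; congr 1; ring
  ext
  · simp only [act, LinearMap.coe_mk, AddHom.coe_mk]
  · simp only [act, LinearMap.coe_mk, AddHom.coe_mk]
    linear_combination (u - u₀) * p.1 * h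

theorem len_act_up (s t u : ℝ) (ht : 0 ≤ t) (p : ℝ × ℝ) :
    len (act (s + t) u p) ≤ Real.exp t * len (act s u p) := by
  rw [act_add, len, Real.sqrt_le_iff]
  refine ⟨mul_nonneg (Real.exp_pos _).le (len_nonneg _), ?_⟩
  rw [mul_pow (Real.exp t) (len _), len_sq]
  have h1 : Real.exp (-t) ≤ Real.exp t := Real.exp_le_exp.mpr (by linarith)
  have h2 : (0:ℝ) < Real.exp (-t) := Real.exp_pos _
  have h3 : Real.exp (-t) ^ 2 ≤ Real.exp t ^ 2 := pow_le_pow_left₀ h2.le h1 2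
  have h4 := mul_le_mul_of_nonneg_right h3 (sq_nonneg (act s u p).1)
  simp only [mul_pow]
  linarith

theorem len_act_down (s t u : ℝ) (ht : 0 ≤ t) (p : ℝ × ℝ) :
    len (act s u p) ≤ Real.exp t * len (act (s + t) u p) := by
  have h : act s u p = (Real.exp t * (act (s + t) u p).1, Real.exp (-t) * (act (s + t) u p).2) := by
    have := act_add (s + t) (-t) u p
    rwa [add_neg_cancel_right, neg_neg] at this
  rw [h, len, Real.sqrt_le_iff]
  refine ⟨mul_nonneg (Real.exp_pos _).le (len_nonneg _), ?_⟩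
  rw [mul_pow (Real.exp t) (len _), len_sq]
  have h1 : Real.exp (-t) ≤ Real.exp t := Real.exp_le_exp.mpr (by linarith)
  have h2 : (0:ℝ) < Real.exp (-t) := Real.exp_pos _
  have h3 : Real.exp (-t) ^ 2 ≤ Real.exp t ^ 2 := pow_le_pow_left₀ h2.le h1 2
  have h4 := mul_le_mul_of_nonneg_right h3 (sq_nonneg (act (s + t) u p).2)
  simp only [mul_pow]
  linarith

private theorem len_act_cell_sq (s u u₀ : ℝ) (h : |u - u₀| ≤ Real.exp (-(2 * s))) (p : ℝ × ℝ) :
    len (act s u p) ^ 2 ≤ 4 * len (act s u₀ p) ^ 2 := by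
  rw [len_sq, len_sq, act_cell s u u₀ p]
  set X := (act s u₀ p).1
  set Y := (act s u₀ p).2
  have hc : |(u - u₀) * Real.exp (2 * s)| ≤ 1 := by
    rw [abs_mul, abs_of_pos (Real.exp_pos _)]
    calc |u - u₀| * Real.exp (2 * s) ≤ Real.exp (-(2 * s)) * Real.exp (2 * s) :=
          mul_le_mul_of_nonneg_right h (Real.exp_pos _).le
      _ = 1 := by rw [← Real.exp_add, neg_add_cancel, Real.exp_zero]
  set c := (u - u₀) * Real.exp (2 * s)
  have hc2 : c ^ 2 ≤ 1 := by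
    rw [← sq_abs]; exact pow_le_one₀ (abs_nonneg _) hc
  have h1 : (Y + c * X) ^ 2 ≤ 2 * Y ^ 2 + 2 * (c * X) ^ 2 := by nlinarith [sq_nonneg (Y - c * X)]
  have h2 : (c * X) ^ 2 ≤ X ^ 2 := by
    rw [mul_pow]
    nlinarith [sq_nonneg X]
  change X ^ 2 + (Y + c * X) ^ 2 ≤ 4 * (X ^ 2 + Y ^ 2)
  nlinarith [sq_nonneg X, sq_nonneg Y]

theorem len_act_cell (s u u₀ : ℝ) (h : |u - u₀| ≤ Real.exp (-(2 * s))) (p : ℝ × ℝ) :
    len (act s u p) ≤ 2 * len (act s u₀ p) := by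
  have h1 := len_act_cell_sq s u u₀ h p
  have h2 := len_nonneg (act s u₀ p)
  have h3 : len (act s u p) ^ 2 ≤ (2 * len (act s u₀ p)) ^ 2 := by
    rw [mul_pow]; linarith
  exact (abs_le_of_sq_le_sq' h3 (by positivity)).2

section Forms
variable {E : Type*} [AddCommGroup E] [Module ℝ E]

private theorem pos_nonneg {B : LinearMap.BilinForm ℝ E} (hB : Pos B) (x : E) : 0 ≤ B x x := by
  by_cases hx : x = 0
  · subst hx; simp
  · exact (hB.pos x hx).le

private theorem nm_nonneg' (B : LinearMap.BilinForm ℝ E) (x : E) : 0 ≤ nm B x := Real.sqrt_nonneg _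

theorem nm_sq {B : LinearMap.BilinForm ℝ E} (hB : Pos B) (x : E) : nm B x ^ 2 = B x x := by
  rw [nm, Real.sq_sqrt (pos_nonneg hB x)]

theorem nm_smul {B : LinearMap.BilinForm ℝ E} (hB : Pos B) (c : ℝ) (x : E) :
    nm B (c • x) = |c| * nm B x := by
  rw [nm, nm, ← Real.sqrt_sq_eq_abs, ← Real.sqrt_mul (sq_nonneg c)]
  congr 1
  simp only [map_smul, LinearMap.smul_apply, smul_eq_mul]
  ring

theorem nm_add_le {B : LinearMap.BilinForm ℝ E} (hB : Pos B) (x y : E) :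
    nm B (x + y) ≤ nm B x + nm B y := by
  have hs : ∀ x, 0 ≤ B x x := pos_nonneg hB
  have hCS : B x y ^ 2 ≤ B x x * B y y :=
    LinearMap.BilinForm.apply_sq_le_of_symm B hs ⟨fun a b => hB.symm a b⟩ x y
  have hxy : B x y ≤ nm B x * nm B y := by
    refine le_trans (le_abs_self _) ?_
    rw [nm, nm, ← Real.sqrt_mul (hs x), ← Real.sqrt_sq_eq_abs]
    exact Real.sqrt_le_sqrt hCS
  rw [nm, Real.sqrt_le_iff]
  refine ⟨add_nonneg (nm_nonneg' B x) (nm_nonneg' B y), ?_⟩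
  have h1 := nm_sq hB x
  have h2 := nm_sq hB y
  have h3 : B (x + y) (x + y) = B x x + 2 * B x y + B y y := by
    simp only [map_add, LinearMap.add_apply, hB.symm y x]
    ring
  rw [h3]
  nlinarith

theorem nm_pos {B : LinearMap.BilinForm ℝ E} (hB : Pos B) {x : E} (hx : x ≠ 0) : 0 < nm B x := by
  exact Real.sqrt_pos.mpr (hB.pos x hx)

end Forms

namespace Sys
variable {V : Type} [AddCommGroup V] [Module ℝ V] (S : Sys V)

theorem N_apply (s u : ℝ) (x y : V) : S.N s u x y = (act s u (S.q x)).1 * (act s u (S.q y)).1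
      + (act s u (S.q x)).2 * (act s u (S.q y)).2 + S.G s u x y := by
  simp [N]

theorem F_apply (s u : ℝ) (x : V) (y y' : V × ℝ) :
    S.F s u x y y' = S.N s u (aff x y) (aff x y') + y.2 * y'.2 := by
  simp [F]

theorem Q_apply (s u : ℝ) (x : V) (y : V × ℝ) : S.Q s u x y = act s u (S.q (aff x y)) := rfl

private theorem N_self (s u : ℝ) (x : V) :
    S.N s u x x = len (act s u (S.q x)) ^ 2 + S.G s u x x := by
  rw [N_apply, len_sq]; ring

private theorem act_eq_zero' {s u : ℝ} {p : ℝ × ℝ} (h : len (act s u p) = 0) : p = 0 := by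
  have h2 : len (act s u p) ^ 2 = 0 := by rw [h]; norm_num
  rw [len_sq] at h2
  have hX : (act s u p).1 = 0 := by nlinarith [sq_nonneg (act s u p).1, sq_nonneg (act s u p).2]
  have hY : (act s u p).2 = 0 := by nlinarith [sq_nonneg (act s u p).1, sq_nonneg (act s u p).2]
  simp only [act, LinearMap.coe_mk, AddHom.coe_mk] at hX hY
  have e1 : p.1 = 0 := by
    rcases mul_eq_zero.mp hX with h | h
    · exact absurd h (Real.exp_pos _).ne'
    · exact h
  have e2 : p.2 = 0 := by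
    rcases mul_eq_zero.mp hY with h | h
    · exact absurd h (Real.exp_pos _).ne'
    · rw [e1] at h; linarith
  exact Prod.ext e1 e2

theorem N_pos (s u : ℝ) : Pos (S.N s u) := by
  refine ⟨fun x y => ?_, fun x hx => ?_⟩
  · rw [N_apply, N_apply, S.Gsymm s u x y]; ring
  · rw [N_self]
    have hG := S.Gnonneg s u x
    by_cases hq : len (act s u (S.q x)) = 0
    · have hq0 : S.q x = 0 := act_eq_zero' hq
      have := S.Gpos s u x hq0 hx
      have h5 := sq_nonneg (len (act s u (S.q x)))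
      linarith
    · have h6 : 0 < len (act s u (S.q x)) := lt_of_le_of_ne (len_nonneg _) (Ne.symm hq)
      have : 0 < len (act s u (S.q x)) ^ 2 := by positivity
      linarith

theorem F_pos (s u : ℝ) (x : V) : Pos (S.F s u x) := by
  refine ⟨fun y y' => ?_, fun y hy => ?_⟩
  · rw [F_apply, F_apply, (S.N_pos s u).symm]; ring
  · rw [F_apply]
    have hN := pos_nonneg (S.N_pos s u) (aff x y)
    by_cases h2 : y.2 = 0
    · have h1 : y.1 ≠ 0 := fun h1 => hy (Prod.ext h1 h2)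
      have h3 : aff x y ≠ 0 := by rw [aff_apply, h2]; simpa using h1
      have := (S.N_pos s u).pos _ h3
      rw [h2]; simpa using this
    · have : 0 < y.2 * y.2 := mul_self_pos.mpr h2
      linarith

theorem nmN_sq (s u : ℝ) (x : V) :
    nm (S.N s u) x ^ 2 = len (act s u (S.q x)) ^ 2 + S.G s u x x := by
  rw [nm_sq (S.N_pos s u), N_self]

theorem nmF_sq (s u : ℝ) (x : V) (y : V × ℝ) :
    nm (S.F s u x) y ^ 2 = nm (S.N s u) (aff x y) ^ 2 + y.2 ^ 2 := by
  rw [nm_sq (S.F_pos s u x), nm_sq (S.N_pos s u), F_apply]; ring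

private theorem le_of_sq_le' {a b : ℝ} (hb : 0 ≤ b) (h : a ^ 2 ≤ b ^ 2) : a ≤ b :=
  (abs_le_of_sq_le_sq' h hb).2

theorem len_le_nmN (s u : ℝ) (x : V) : len (act s u (S.q x)) ≤ nm (S.N s u) x := by
  refine le_of_sq_le' (nm_nonneg' _ _) ?_
  rw [nmN_sq]
  linarith [S.Gnonneg s u x]

theorem nmN_up (s t u : ℝ) (ht : 0 ≤ t) (x : V) :
    nm (S.N (s + t) u) x ≤ Real.exp t * nm (S.N s u) x := by
  refine le_of_sq_le' (mul_nonneg (Real.exp_pos _).le (nm_nonneg' _ _)) ?_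
  rw [mul_pow, nmN_sq, nmN_sq]
  have h1 := len_act_up s t u ht (S.q x)
  have h2 : len (act (s + t) u (S.q x)) ^ 2 ≤ (Real.exp t * len (act s u (S.q x))) ^ 2 :=
    pow_le_pow_left₀ (len_nonneg _) h1 2
  have h3 := S.Gup s u t x ht
  have h4 : Real.exp (2 * t) = Real.exp t ^ 2 := by rw [← Real.exp_nat_mul]; norm_num
  rw [mul_pow] at h2
  rw [h4] at h3
  linarith

theorem nmN_down (s t u : ℝ) (ht : 0 ≤ t) (x : V) :
    nm (S.N s u) x ≤ Real.exp t * nm (S.N (s + t) u) x := by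
  refine le_of_sq_le' (mul_nonneg (Real.exp_pos _).le (nm_nonneg' _ _)) ?_
  rw [mul_pow, nmN_sq, nmN_sq]
  have h1 := len_act_down s t u ht (S.q x)
  have h2 : len (act s u (S.q x)) ^ 2 ≤ (Real.exp t * len (act (s + t) u (S.q x))) ^ 2 :=
    pow_le_pow_left₀ (len_nonneg _) h1 2
  have h3 := S.Gdown s u t x ht
  have h4 : Real.exp (2 * t) = Real.exp t ^ 2 := by rw [← Real.exp_nat_mul]; norm_num
  rw [mul_pow] at h2
  rw [h4] at h3
  linarith

theorem nmN_cell (s u u₀ : ℝ) (h : |u - u₀| ≤ Real.exp (-(2 * s))) (x : V) :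
    nm (S.N s u) x ≤ 2 * nm (S.N s u₀) x := by
  refine le_of_sq_le' (mul_nonneg (by norm_num) (nm_nonneg' _ _)) ?_
  rw [mul_pow, nmN_sq, nmN_sq]
  have h1 := len_act_cell_sq s u u₀ h (S.q x)
  have h3 := S.Gcell s u u₀ x h
  have h4 := S.Gnonneg s u₀ x
  linarith

theorem abs_snd_le (s u : ℝ) (x : V) (y : V × ℝ) : |y.2| ≤ nm (S.F s u x) y := by
  refine le_of_sq_le' (nm_nonneg' _ _) ?_
  rw [nmF_sq, sq_abs]
  linarith [sq_nonneg (nm (S.N s u) (aff x y))]

theorem nmN_aff_le (s u : ℝ) (x : V) (y : V × ℝ) :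
    nm (S.N s u) (aff x y) ≤ nm (S.F s u x) y := by
  refine le_of_sq_le' (nm_nonneg' _ _) ?_
  rw [nmF_sq]
  linarith [sq_nonneg y.2]

theorem lenQ_le (s u : ℝ) (x : V) (y : V × ℝ) : len (S.Q s u x y) ≤ nm (S.F s u x) y := by
  rw [Q_apply]
  exact (S.len_le_nmN s u _).trans (S.nmN_aff_le s u x y)

theorem nmF_up (s t u : ℝ) (ht : 0 ≤ t) (x : V) (y : V × ℝ) :
    nm (S.F (s + t) u x) y ≤ Real.exp t * nm (S.F s u x) y := by
  refine le_of_sq_le' (mul_nonneg (Real.exp_pos _).le (nm_nonneg' _ _)) ?_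
  rw [mul_pow, nmF_sq, nmF_sq]
  have h1 := pow_le_pow_left₀ (nm_nonneg' _ _) (S.nmN_up s t u ht (aff x y)) 2
  have h2 : 1 ≤ Real.exp t ^ 2 := one_le_pow₀ (Real.one_le_exp ht)
  have h3 := mul_le_mul_of_nonneg_right h2 (sq_nonneg y.2)
  rw [mul_pow] at h1
  linarith

theorem nmF_down (s t u : ℝ) (ht : 0 ≤ t) (x : V) (y : V × ℝ) :
    nm (S.F s u x) y ≤ Real.exp t * nm (S.F (s + t) u x) y := by
  refine le_of_sq_le' (mul_nonneg (Real.exp_pos _).le (nm_nonneg' _ _)) ?_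
  rw [mul_pow, nmF_sq, nmF_sq]
  have h1 := pow_le_pow_left₀ (nm_nonneg' _ _) (S.nmN_down s t u ht (aff x y)) 2
  have h2 : 1 ≤ Real.exp t ^ 2 := one_le_pow₀ (Real.one_le_exp ht)
  have h3 := mul_le_mul_of_nonneg_right h2 (sq_nonneg y.2)
  rw [mul_pow] at h1
  linarith

theorem nmF_cell (s u u₀ : ℝ) (h : |u - u₀| ≤ Real.exp (-(2 * s))) (x : V) (y : V × ℝ) :
    nm (S.F s u x) y ≤ 2 * nm (S.F s u₀ x) y := by
  refine le_of_sq_le' (mul_nonneg (by norm_num) (nm_nonneg' _ _)) ?_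
  rw [mul_pow, nmF_sq, nmF_sq]
  have h1 := pow_le_pow_left₀ (nm_nonneg' _ _) (S.nmN_cell s u u₀ h (aff x y)) 2
  have h3 := sq_nonneg y.2
  rw [mul_pow] at h1
  linarith

end Sys

end Pool.Agent.TFL
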