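/-
MP_e98778_an, module L, interface lemmas: (GR) from large deviations + gap, (SYS) from the tail
bound + systole.
-/
import Pool.Agent.Helper45.TFL.TR1

open MeasureTheory Set

namespace Pool.Agent.TFL
namespace Sys
variable {V : Type} [AddCommGroup V] [Module ℝ V] (S : Sys V)

open Classical in
/-- The number of the levels `s, s+1, ..., s+n-1` at which `u` is tame. -/
noncomputable def tameCount (tame : ℝ → Set ℝ) (s : ℝ) (n : ℕ) (u : ℝ) : ℕ :=
  ((Finset.range n).filter (fun j : ℕ => u ∈ tame (s + j))).card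

/-- Growth of the `H_0`-part along `n` steps. -/
theorem growth {tame : ℝ → Set ℝ} {lam : ℝ} (hlam0 : 0 ≤ lam) (hlam : lam < 1)
    (hgap : ∀ s u, u ∈ tame s → ∀ x, S.q x = 0 →
      S.G (s + 1) u x x ≤ (Real.cosh 2 + lam * Real.sinh 2) * S.G s u x x)
    (s u : ℝ) (x : V) (hx : S.q x = 0) (n : ℕ) :
    S.G (s + n) u x x ≤ Real.exp (2 * n) *
      ((Real.cosh 2 + lam * Real.sinh 2) / Real.exp 2) ^ (tameCount tame s n u) * S.G s u x x := by
  classical
  have hsinh : 0 < Real.sinh 2 := Real.sinh_pos_iff.2 (by norm_num)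
  have hcosh : 0 < Real.cosh 2 := Real.cosh_pos 2
  have hexp : Real.exp 2 = Real.cosh 2 + Real.sinh 2 := (Real.cosh_add_sinh 2).symm
  have hpos : 0 < Real.exp 2 := Real.exp_pos 2
  set ρ := (Real.cosh 2 + lam * Real.sinh 2) / Real.exp 2 with hρ
  have hρ0 : 0 < ρ := by positivity
  have hρe : Real.exp 2 * ρ = Real.cosh 2 + lam * Real.sinh 2 := by
    rw [hρ]; field_simp
  induction n with
  | zero => simp [tameCount]
  | succ n ih =>
    have hG := S.Gnonneg s u x
    have hstep : S.G (s + (n + 1 : ℕ)) u x x ≤ Real.exp 2 *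
        (if u ∈ tame (s + n) then ρ else 1) * S.G (s + n) u x x := by
      have h1 : s + ((n + 1 : ℕ) : ℝ) = s + n + 1 := by push_cast; ring
      rw [h1]
      split_ifs with h
      · rw [hρe]; exact hgap _ _ h x hx
      · have := S.Gup (s + n) u 1 x zero_le_one
        simpa using this
    have hcount : tameCount tame s (n + 1) u = tameCount tame s n u +
        (if u ∈ tame (s + n) then 1 else 0) := by
      unfold tameCount
      rw [Finset.range_add_one, Finset.filter_insert]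
      split_ifs with h
      · rw [Finset.card_insert_of_notMem (by simp)]
      · simp
    have hf : 0 ≤ Real.exp 2 * (if u ∈ tame (s + n) then ρ else 1) := by
      split_ifs <;> positivity
    refine hstep.trans ((mul_le_mul_of_nonneg_left ih hf).trans (le_of_eq ?_))
    have he : Real.exp (2 * ((n + 1 : ℕ) : ℝ)) = Real.exp 2 * Real.exp (2 * n) := by
      rw [← Real.exp_add]; congr 1; push_cast; ring
    rw [hcount, he]
    split_ifs with h
    · rw [pow_add, pow_one]; ring
    · simp only [add_zero]; ring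

/-- (GR) from large deviations and the gap. -/
theorem gr_of_ld {tame : ℝ → Set ℝ} {lam ε C c : ℝ} (hlam0 : 0 ≤ lam) (hlam : lam < 1)
    (hε : 0 < ε) (hC : 0 < C) (hc : 0 < c)
    (hgap : ∀ s u, u ∈ tame s → ∀ x, S.q x = 0 →
      S.G (s + 1) u x x ≤ (Real.cosh 2 + lam * Real.sinh 2) * S.G s u x x)
    (hLD : ∀ a b : ℝ, a < b → ∃ s₀ : ℝ, ∀ s : ℝ, s₀ ≤ s → ∀ n : ℕ,
      volume ({u | (tameCount tame s n u : ℝ) < ε * n} ∩ Icc a b) ≤
        ENNReal.ofReal (C * Real.exp (-(c * n)) * (b - a))) :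
    ∃ C' c' c₂ : ℝ, 0 < C' ∧ 0 < c' ∧ 0 < c₂ ∧ c₂ ≤ 1 / 2 ∧ S.GR C' c' c₂ := by
  have hsinh : 0 < Real.sinh 2 := Real.sinh_pos_iff.2 (by norm_num)
  have hcosh : 0 < Real.cosh 2 := Real.cosh_pos 2
  have hexp : Real.exp 2 = Real.cosh 2 + Real.sinh 2 := (Real.cosh_add_sinh 2).symm
  have hpos : 0 < Real.exp 2 := Real.exp_pos 2
  set ρ := (Real.cosh 2 + lam * Real.sinh 2) / Real.exp 2 with hρ
  have hρ0 : 0 < ρ := by positivity
  have hρ1 : ρ < 1 := by
    rw [hρ, div_lt_one hpos, hexp]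
    nlinarith
  set L := -Real.log ρ with hL
  have hL0 : 0 < L := by
    rw [hL]; have := Real.log_neg hρ0 hρ1; linarith
  set c₂ := min (ε * L / 4) (1 / 2) with hc₂
  have hc₂0 : 0 < c₂ := lt_min (by positivity) (by norm_num)
  have hc₂1 : c₂ ≤ 1 / 2 := min_le_right _ _
  have hc₂2 : c₂ ≤ ε * L / 4 := min_le_left _ _
  refine ⟨max (Real.exp 2) (C * Real.exp c), c, c₂, lt_of_lt_of_le hpos (le_max_left _ _), hc,
    hc₂0, hc₂1, ?_⟩
  intro a b hab
  obtain ⟨s₀, hs₀⟩ := hLD a b hab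
  refine ⟨s₀, fun s t hs ht => ?_⟩
  set n := ⌊t⌋₊ with hn
  have hn1 : (n : ℝ) ≤ t := Nat.floor_le ht
  have hn2 : t < n + 1 := Nat.lt_floor_add_one t
  refine (measure_mono ?_).trans ((hs₀ s hs n).trans ?_)
  · rintro u ⟨⟨x, hx, hbad⟩, hu⟩
    refine ⟨?_, hu⟩
    by_contra hcon
    simp only [mem_ofPred_eq, not_lt] at hcon
    have hG := S.Gnonneg s u x
    have hg := S.growth hlam0 hlam hgap s u x hx n
    rw [← hρ] at hg
    have hup := S.Gup (s + n) u (t - n) x (by linarith)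
    have h1 : s + (n : ℝ) + (t - n) = s + t := by ring
    rw [h1] at hup
    have hρc : ρ ^ (tameCount tame s n u) ≤ Real.exp (-(4 * c₂ * n)) := by
      have e1 : ρ ^ (tameCount tame s n u) = Real.exp (-(L * tameCount tame s n u)) := by
        rw [hL, neg_mul, neg_neg, mul_comm, Real.exp_nat_mul, Real.exp_log hρ0]
      rw [e1]
      apply Real.exp_le_exp.2
      have h2 : 4 * c₂ * n ≤ L * (ε * n) := by
        have : (0 : ℝ) ≤ n := Nat.cast_nonneg n
        nlinarith
      have h3 : L * (ε * n) ≤ L * tameCount tame s n u := mul_le_mul_of_nonneg_left hcon hL0.le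
      linarith
    have hup' : S.G (s + t) u x x ≤ Real.exp (2 * (t - n)) *
        (Real.exp (2 * n) * Real.exp (-(4 * c₂ * n)) * S.G s u x x) := by
      refine hup.trans (mul_le_mul_of_nonneg_left (hg.trans ?_) (Real.exp_pos _).le)
      exact mul_le_mul_of_nonneg_right (mul_le_mul_of_nonneg_left hρc (Real.exp_pos _).le) hG
    have hfin : Real.exp (2 * (t - n)) * (Real.exp (2 * n) * Real.exp (-(4 * c₂ * n)) *
        S.G s u x x) ≤ max (Real.exp 2) (C * Real.exp c) * Real.exp (2 * (1 - 2 * c₂) * t) *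
        S.G s u x x := by
      rw [← mul_assoc, ← mul_assoc]
      refine mul_le_mul_of_nonneg_right ?_ hG
      rw [← Real.exp_add, ← Real.exp_add]
      refine le_trans ?_ (mul_le_mul_of_nonneg_right (le_max_left _ _) (Real.exp_pos _).le)
      rw [← Real.exp_add]
      apply Real.exp_le_exp.2
      nlinarith
    linarith
  · apply ENNReal.ofReal_le_ofReal
    refine mul_le_mul_of_nonneg_right ?_ (by linarith)
    refine le_trans ?_ (mul_le_mul_of_nonneg_right (le_max_right _ _) (Real.exp_pos _).le)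
    rw [mul_assoc, ← Real.exp_add]
    refine mul_le_mul_of_nonneg_left (Real.exp_le_exp.2 ?_) hC.le
    nlinarith

/-- (SYS) from the tail bound and the systole on tame levels. -/
theorem sys_of_tail {tame : ℝ → ℝ → Set ℝ} {C c β p : ℝ} (hC : 0 < C) (hc : 0 < c) (hβ : 0 < β)
    (hp : 0 < p)
    (hsys : ∀ K s u, 1 ≤ K → u ∈ tame K s → ∀ m ∈ S.Lam, m ≠ 0 → c * K ^ (-p) ≤ nm (S.N s u) m)
    (htail : ∀ a b : ℝ, a < b → ∃ s₀ : ℝ, ∀ s K : ℝ, s₀ ≤ s → 1 ≤ K →
      volume ({u | u ∉ tame K s} ∩ Icc a b) ≤ ENNReal.ofReal (C * K ^ (-β) * (b - a))) :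
    ∃ C' β' : ℝ, 0 < C' ∧ 0 < β' ∧ S.SYS C' β' := by
  refine ⟨max C 1 * (2 / c) ^ (β / p), β / p, by positivity, by positivity, ?_⟩
  intro a b hab
  obtain ⟨s₀, hs₀⟩ := htail a b hab
  refine ⟨s₀, fun s ρ hs hρ => ?_⟩
  have hmul : (2 / c) ^ (β / p) * ρ ^ (β / p) = (2 * ρ / c) ^ (β / p) := by
    rw [← Real.mul_rpow (by positivity) hρ.le]; congr 1; ring
  by_cases hcase : 2 * ρ ≤ c
  · set K := (c / (2 * ρ)) ^ (1 / p) with hK
    have hb : 1 ≤ c / (2 * ρ) := by rwa [le_div_iff₀ (by positivity), one_mul]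
    have hK1 : 1 ≤ K := Real.one_le_rpow hb (by positivity)
    have hKp : K ^ (-p) = 2 * ρ / c := by
      rw [hK, ← Real.rpow_mul (by positivity), show 1 / p * -p = -1 by field_simp,
        Real.rpow_neg_one, inv_div]
    have hKβ : K ^ (-β) = (2 * ρ / c) ^ (β / p) := by
      rw [hK, ← Real.rpow_mul (by positivity), show 1 / p * -β = -(β / p) by ring,
        Real.rpow_neg (by positivity), ← Real.inv_rpow (by positivity), inv_div]
    refine (measure_mono ?_).trans ((hs₀ s K hs hK1).trans ?_)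
    · rintro u ⟨⟨m, hm, hm0, hle⟩, hu⟩
      refine ⟨fun ht => ?_, hu⟩
      have := hsys K s u hK1 ht m hm hm0
      rw [hKp] at this
      have h2 : c * (2 * ρ / c) = 2 * ρ := by field_simp
      linarith
    · apply ENNReal.ofReal_le_ofReal
      refine mul_le_mul_of_nonneg_right ?_ (by linarith)
      rw [hKβ, mul_assoc, hmul]
      exact mul_le_mul_of_nonneg_right (le_max_left _ _) (by positivity)
  · have h1 : 1 ≤ (2 * ρ / c) ^ (β / p) := by
      apply Real.one_le_rpow _ (by positivity)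
      rw [le_div_iff₀ hc, one_mul]; linarith
    refine (measure_mono inter_subset_right).trans ?_
    rw [Real.volume_Icc]
    apply ENNReal.ofReal_le_ofReal
    rw [mul_assoc (max C 1), hmul]
    have h2 : (1 : ℝ) ≤ max C 1 := le_max_right _ _
    have h3 : 1 ≤ max C 1 * (2 * ρ / c) ^ (β / p) := one_le_mul_of_one_le_of_one_le h2 h1
    nlinarith

end Sys
end Pool.Agent.TFL
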