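/-
MP_e98778_an, module L, CELL: covering an interval by cells.

PAPER PROOF.  Cut [a,b] into N = floor((b-a)/(2ℓ)) cells of length 2ℓ with centres a + (2i+1) ℓ and
a remainder of length < 2ℓ.  Cells contained in X are (almost) disjoint measurable subsets of X, so
their total length is <= volume (X ∩ [a,b]) (outer measure; use Ico cells for disjointness);
E ∩ cell <= cell.  The others contribute <= N ε ℓ <= ε (b-a).
-/
import Mathlib

open MeasureTheory Set

namespace Pool.Agent.TFL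

theorem cell_sum (a b ℓ ε : ℝ) (hab : a < b) (hℓ : 0 < ℓ) (hε : 0 ≤ ε) (E X : Set ℝ)
    (h : ∀ u₀, a ≤ u₀ - ℓ → u₀ + ℓ ≤ b → Icc (u₀ - ℓ) (u₀ + ℓ) ⊆ X ∨
      volume (E ∩ Icc (u₀ - ℓ) (u₀ + ℓ)) ≤ ENNReal.ofReal (ε * ℓ)) :
    volume (E ∩ Icc a b) ≤ volume (X ∩ Icc a b) + ENNReal.ofReal (ε * (b - a))
      + ENNReal.ofReal (2 * ℓ) := by
  classical
  set N : ℕ := ⌊(b - a) / (2 * ℓ)⌋₊ with hN
  have h2 : 0 < 2 * ℓ := by linarith
  have hdiv : 0 ≤ (b - a) / (2 * ℓ) := div_nonneg (by linarith) h2.le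
  have hN1 : (N : ℝ) * (2 * ℓ) ≤ b - a := by
    have := Nat.floor_le hdiv
    rw [← hN] at this
    rwa [le_div_iff₀ h2] at this
  have hN2 : b - a < ((N : ℝ) + 1) * (2 * ℓ) := by
    have := Nat.lt_floor_add_one ((b - a) / (2 * ℓ))
    rw [← hN] at this
    rwa [div_lt_iff₀ h2] at this
  set Cc : ℕ → Set ℝ := fun i => Ico (a + i * (2 * ℓ)) (a + ((i : ℝ) + 1) * (2 * ℓ)) with hCc
  set S : Set ℝ := X ∩ Icc a b with hS
  have hmeas : ∀ i, MeasurableSet (Cc i) := fun i => measurableSet_Ico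
  have hcover : E ∩ Icc a b ⊆ (⋃ i ∈ Finset.range N, E ∩ Cc i) ∪ Icc (a + N * (2 * ℓ)) b := by
    rintro x ⟨hxE, hxa, hxb⟩
    by_cases hx : a + N * (2 * ℓ) ≤ x
    · exact Or.inr ⟨hx, hxb⟩
    · left
      push Not at hx
      have h0 : 0 ≤ (x - a) / (2 * ℓ) := div_nonneg (by linarith) h2.le
      have hi1 := Nat.floor_le h0
      have hi2 := Nat.lt_floor_add_one ((x - a) / (2 * ℓ))
      rw [le_div_iff₀ h2] at hi1
      rw [div_lt_iff₀ h2] at hi2
      have hiN : ⌊(x - a) / (2 * ℓ)⌋₊ < N := by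
        have h3 : (⌊(x - a) / (2 * ℓ)⌋₊ : ℝ) * (2 * ℓ) < N * (2 * ℓ) := by linarith
        exact_mod_cast lt_of_mul_lt_mul_right h3 h2.le
      simp only [Finset.mem_range, mem_iUnion, exists_prop]
      exact ⟨_, hiN, hxE, by linarith, by linarith⟩
  have hcell : ∀ i ∈ Finset.range N, volume (E ∩ Cc i) ≤
      volume (Cc i ∩ S) + ENNReal.ofReal (ε * ℓ) := by
    intro i hi
    have hiN : (i : ℝ) + 1 ≤ N := by
      have := Finset.mem_range.mp hi
      exact_mod_cast this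
    have hi0 : (0 : ℝ) ≤ i := Nat.cast_nonneg i
    have hle : ((i : ℝ) + 1) * (2 * ℓ) ≤ b - a :=
      (mul_le_mul_of_nonneg_right hiN h2.le).trans hN1
    have hlo : a ≤ (a + (2 * i + 1) * ℓ) - ℓ := by nlinarith
    have hhi : (a + (2 * i + 1) * ℓ) + ℓ ≤ b := by nlinarith
    have hsub : Cc i ⊆ Icc ((a + (2 * i + 1) * ℓ) - ℓ) ((a + (2 * i + 1) * ℓ) + ℓ) := by
      rintro x ⟨h3, h4⟩
      exact ⟨by nlinarith, by nlinarith⟩
    rcases h _ hlo hhi with h5 | h5
    · refine le_trans (measure_mono ?_) le_self_add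
      rintro x ⟨_, hx⟩
      have hx' := hsub hx
      exact ⟨hx, h5 hx', hlo.trans hx'.1, hx'.2.trans hhi⟩
    · refine le_trans (measure_mono ?_) (h5.trans le_add_self)
      rintro x ⟨hxE, hx⟩
      exact ⟨hxE, hsub hx⟩
  have hdisj : (Set.PairwiseDisjoint (↑(Finset.range N)) Cc) := by
    intro i _ j _ hij
    have key : ∀ i j : ℕ, i < j → Disjoint (Cc i) (Cc j) := by
      intro i j hlt
      rw [Set.disjoint_left]
      rintro x ⟨_, h4⟩ ⟨h5, _⟩
      have h6 : ((i : ℝ) + 1) ≤ j := by exact_mod_cast hlt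
      have h7 := mul_le_mul_of_nonneg_right h6 h2.le
      linarith
    rcases lt_or_gt_of_ne hij with h3 | h3
    · exact key i j h3
    · exact (key j i h3).symm
  have hsumS : ∑ i ∈ Finset.range N, volume (Cc i ∩ S) ≤ volume S := by
    have h3 : ∑ i ∈ Finset.range N, volume (Cc i ∩ S)
        = (volume.restrict S) (⋃ i ∈ Finset.range N, Cc i) := by
      rw [measure_biUnion_finset hdisj (fun i _ => hmeas i)]
      exact Finset.sum_congr rfl fun i _ => (Measure.restrict_apply (hmeas i)).symm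
    rw [h3]
    calc (volume.restrict S) (⋃ i ∈ Finset.range N, Cc i) ≤ (volume.restrict S) univ :=
          measure_mono (subset_univ _)
      _ = volume S := Measure.restrict_apply_univ S
  have hrem : volume (Icc (a + N * (2 * ℓ)) b) ≤ ENNReal.ofReal (2 * ℓ) := by
    rw [Real.volume_Icc]
    exact ENNReal.ofReal_le_ofReal (by linarith)
  have hNε : (N : ENNReal) * ENNReal.ofReal (ε * ℓ) ≤ ENNReal.ofReal (ε * (b - a)) := by
    rw [← ENNReal.ofReal_natCast, ← ENNReal.ofReal_mul (Nat.cast_nonneg _)]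
    apply ENNReal.ofReal_le_ofReal
    have h3 : (N : ℝ) * ℓ ≤ b - a := by nlinarith [Nat.cast_nonneg (α := ℝ) N]
    calc (N : ℝ) * (ε * ℓ) = ε * (N * ℓ) := by ring
      _ ≤ ε * (b - a) := mul_le_mul_of_nonneg_left h3 hε
  calc volume (E ∩ Icc a b)
      ≤ volume ((⋃ i ∈ Finset.range N, E ∩ Cc i) ∪ Icc (a + N * (2 * ℓ)) b) := measure_mono hcover
    _ ≤ volume (⋃ i ∈ Finset.range N, E ∩ Cc i) + volume (Icc (a + N * (2 * ℓ)) b) :=
        measure_union_le _ _
    _ ≤ (∑ i ∈ Finset.range N, volume (E ∩ Cc i)) + ENNReal.ofReal (2 * ℓ) :=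
        add_le_add (measure_biUnion_finset_le _ _) hrem
    _ ≤ (∑ i ∈ Finset.range N, (volume (Cc i ∩ S) + ENNReal.ofReal (ε * ℓ)))
          + ENNReal.ofReal (2 * ℓ) := by
        gcongr with i hi
        exact hcell i hi
    _ = (∑ i ∈ Finset.range N, volume (Cc i ∩ S)) + N * ENNReal.ofReal (ε * ℓ)
          + ENNReal.ofReal (2 * ℓ) := by
        rw [Finset.sum_add_distrib, Finset.sum_const, Finset.card_range, nsmul_eq_mul]
    _ ≤ volume S + ENNReal.ofReal (ε * (b - a)) + ENNReal.ofReal (2 * ℓ) := by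
        gcongr

end Pool.Agent.TFL
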