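/-
MP_e98778_an, module L: the constants.  D = dim V, ranks r = 1, ..., D + 1.
zeta D 1 << zeta D 2 << ... << zeta D (D+1) = eps^2.
-/
import Pool.Agent.Helper45.TFL.Defs

namespace Pool.Agent.TFL

noncomputable def eps (D : ℕ) : ℝ := 1 / (100 * ((D : ℝ) + 2) ^ 2)

/-- `ζ_r` (for `r ≤ D + 1`; natural subtraction). -/
noncomputable def zeta (D r : ℕ) : ℝ := eps D ^ (D + 3 - r)

/-- The loss constant of the rank-up step: `(1 - Cd ζ_r) v`. -/
noncomputable def Cd (D : ℕ) : ℝ := 20 * ((D : ℝ) + 2) ^ 2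

/-- `c₃ = ζ_1 / 100`. -/
noncomputable def c3 (D : ℕ) : ℝ := zeta D 1 / 100

theorem eps_pos (D : ℕ) : 0 < eps D := by unfold eps; positivity

theorem eps_le (D : ℕ) : eps D ≤ 1 / 400 := by
  unfold eps
  have h : (4 : ℝ) ≤ ((D : ℝ) + 2) ^ 2 := by nlinarith [Nat.cast_nonneg (α := ℝ) D]
  rw [div_le_div_iff₀ (by positivity) (by norm_num)]
  linarith

theorem zeta_pos (D r : ℕ) : 0 < zeta D r := pow_pos (eps_pos D) _

theorem c3_pos (D : ℕ) : 0 < c3 D := by unfold c3; linarith [zeta_pos D 1]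

theorem Cd_pos (D : ℕ) : 0 < Cd D := by unfold Cd; positivity

theorem zeta_top (D : ℕ) : zeta D (D + 1) = eps D ^ 2 := by
  unfold zeta; congr 1; omega

theorem zeta_mono {D r k : ℕ} (h : r ≤ k) : zeta D r ≤ zeta D k := by
  unfold zeta
  exact pow_le_pow_of_le_one (eps_pos D).le (by linarith [eps_le D]) (by omega)

theorem zeta_le (D r : ℕ) (hr : r ≤ D + 1) : zeta D r ≤ eps D ^ 2 := by
  rw [← zeta_top]; exact zeta_mono hr

/-- `ζ_k ≥ 100 (D+2)^2 ζ_r` for `r < k ≤ D + 1`. -/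
theorem zeta_up {D r k : ℕ} (h : r < k) (hk : k ≤ D + 1) :
    100 * ((D : ℝ) + 2) ^ 2 * zeta D r ≤ zeta D k := by
  have h1 : zeta D r = eps D * zeta D (r + 1) := by
    unfold zeta
    rw [← pow_succ']
    congr 1; omega
  have h2 : 100 * ((D : ℝ) + 2) ^ 2 * eps D = 1 := by
    unfold eps; field_simp
  calc 100 * ((D : ℝ) + 2) ^ 2 * zeta D r = (100 * ((D : ℝ) + 2) ^ 2 * eps D) * zeta D (r + 1) := by
        rw [h1]; ring
    _ = zeta D (r + 1) := by rw [h2, one_mul]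
    _ ≤ zeta D k := zeta_mono h

/-- `Cd ζ_r ≤ 1/2` (even `≤ eps/5`). -/
theorem Cd_zeta (D r : ℕ) (hr : r ≤ D + 1) : Cd D * zeta D r ≤ 1 / 2 := by
  have h1 := zeta_le D r hr
  have h2 : Cd D * eps D = 1 / 5 := by unfold Cd eps; field_simp; norm_num
  have h3 := eps_le D
  have h4 := eps_pos D
  have h5 := Cd_pos D
  calc Cd D * zeta D r ≤ Cd D * eps D ^ 2 := mul_le_mul_of_nonneg_left h1 h5.le
    _ = (Cd D * eps D) * eps D := by ring
    _ = 1 / 5 * eps D := by rw [h2]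
    _ ≤ 1 / 2 := by linarith

theorem zeta_small (D r : ℕ) (hr : r ≤ D + 1) : zeta D r ≤ 1 / 10000 := by
  have h1 := zeta_le D r hr
  have h3 := eps_le D
  have h4 := eps_pos D
  nlinarith

theorem c3_le (D r : ℕ) (hr : 1 ≤ r) : c3 D ≤ 5 * zeta D r := by
  have := zeta_mono (D := D) hr
  unfold c3
  linarith [zeta_pos D 1, zeta_pos D r]

end Pool.Agent.TFL
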