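/-
MP_e98778_an, module L, LA2.
PAPER PROOF.
(reduce)     For z independent there is w with each w_i in the Z-span of z, w independent,
             spn w = spn z and prod nm(w_i) <= 2^(r^2) vol z.
             Proof: induction on r.  The Z-span M of z is discrete in spn z, so it has a shortest
             non-zero vector b (only finitely many integer combinations have norm <= 1 + nm z_0:
             coef_bound bounds the coefficients: |c_i| vol z <= (1+nm z_0) prod ...).
             b is primitive in M, so there is a Z-basis b = z'_0, z'_1, ..., z'_{r-1} of M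
             (alternative without bases: b = sum n_i z_i; gcd of the n_i is 1).
             Let p be the B-orthogonal projection along b: p x = x - (B(x,b)/B(b,b)) b.
             vol(b, z'_1..) = nm(b) vol(p z'_1, ..., p z'_{r-1})  (Schur complement).
             Induction for p z'_1.. : w'_i with prod nm(w'_i) <= 2^((r-1)^2) vol(p z'), each w'_i is
             p of some element x_i of M; subtracting an integer multiple of b we may take
             x_i = w'_i + t b, |t| <= 1/2; nm(x_i)^2 = nm(w'_i)^2 + t^2 nm(b)^2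
             <= nm(w'_i)^2 + nm(x_i)^2/4 (b shortest), so nm(x_i) <= 2 nm(w'_i).
             Total prod <= nm b * 2^(r-1) * 2^((r-1)^2) * vol(p z') <= 2^(r^2) vol z.
             (One may avoid bases altogether by choosing at once r independent vectors of M
             greedily: any other proof is welcome, also with another constant: then tell
             helper45.)
(vol_ge)     all non-zero vectors of the Z-span have norm >= rho => rho^r <= 2^(r^2) vol z.
-/
import Pool.Agent.Helper45.TFL.LA1b

open MeasureTheory Set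

namespace Pool.Agent.TFL

section LA
variable {E : Type*} [AddCommGroup E] [Module ℝ E]

private theorem h40_mem {r : ℕ} (z : Fin r → E) (x : E) :
    x ∈ AddSubgroup.closure (Set.range z) ↔ ∃ c : Fin r → ℤ, ∑ j, (c j : ℝ) • z j = x := by
  rw [← Submodule.span_int_eq_addSubgroupClosure, Submodule.mem_toAddSubgroup,
    Submodule.mem_span_range_iff_exists_fun]
  simp only [Int.cast_smul_eq_zsmul]

private theorem h40_nonneg {B : LinearMap.BilinForm ℝ E} (hB : Pos B) (x : E) : 0 ≤ B x x := by
  by_cases h : x = 0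
  · simp [h]
  · exact (hB.pos x h).le

private theorem h40_nmsq {B : LinearMap.BilinForm ℝ E} (hB : Pos B) (x : E) :
    nm B x ^ 2 = B x x := Real.sq_sqrt (h40_nonneg hB x)

private theorem h40_nmpos {B : LinearMap.BilinForm ℝ E} (hB : Pos B) {x : E} (hx : x ≠ 0) :
    0 < nm B x := Real.sqrt_pos.2 (hB.pos x hx)

private theorem h40_clspn {r : ℕ} (z : Fin r → E) {x : E}
    (hx : x ∈ AddSubgroup.closure (Set.range z)) : x ∈ spn z := by
  obtain ⟨c, rfl⟩ := (h40_mem z x).1 hx
  exact Submodule.sum_mem _ fun j _ => Submodule.smul_mem _ _ (Submodule.subset_span ⟨j, rfl⟩)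

private theorem h40_spn {r : ℕ} {z w : Fin r → E} (hz : LinearIndependent ℝ z)
    (hw : LinearIndependent ℝ w) (h : ∀ i, w i ∈ spn z) : spn w = spn z := by
  have : FiniteDimensional ℝ (spn z) := FiniteDimensional.span_of_finite ℝ (Set.finite_range z)
  refine Submodule.eq_of_le_of_finrank_eq (Submodule.span_le.2 ?_) ?_
  · rintro _ ⟨i, rfl⟩
    exact h i
  · unfold spn
    rw [finrank_span_eq_card hz, finrank_span_eq_card hw]

private theorem h40_indep {r : ℕ} {z w : Fin r → E} (hz : LinearIndependent ℝ z)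
    (h : ∀ i, z i ∈ spn w) : LinearIndependent ℝ w := by
  have : FiniteDimensional ℝ (spn w) := FiniteDimensional.span_of_finite ℝ (Set.finite_range w)
  rw [linearIndependent_iff_card_le_finrank_span]
  have h1 : spn z ≤ spn w := by
    refine Submodule.span_le.2 ?_
    rintro _ ⟨i, rfl⟩
    exact h i
  have h2 := Submodule.finrank_mono h1
  have h3 : Module.finrank ℝ (spn z) = r := by
    unfold spn
    rw [finrank_span_eq_card hz, Fintype.card_fin]
  rw [h3] at h2
  rw [Fintype.card_fin]
  exact h2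

private theorem h40_fin {B : LinearMap.BilinForm ℝ E} (hB : Pos B) {r : ℕ} {z : Fin r → E}
    (hz : LinearIndependent ℝ z) (R : ℝ) :
    {x | x ∈ AddSubgroup.closure (Set.range z) ∧ nm B x ≤ R}.Finite := by
  set K : ℤ := ⌈(∑ i, |R| * ∏ j ∈ Finset.univ.erase i, nm B (z j)) / vol B z⌉ with hK
  refine ((Set.finite_Icc (fun _ : Fin r => -K) (fun _ => K)).image
    (fun c : Fin r → ℤ => ∑ j, (c j : ℝ) • z j)).subset ?_
  rintro x ⟨hx, hR⟩
  obtain ⟨c, hc⟩ := (h40_mem z x).1 hx
  have hv := vol_pos hB hz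
  have hci : ∀ i, |c i| ≤ K := by
    intro i
    have h1 := coef_bound hB z (fun j => (c j : ℝ)) i
    rw [hc] at h1
    have h2 : |(c i : ℝ)| * vol B z ≤ ∑ i, |R| * ∏ j ∈ Finset.univ.erase i, nm B (z j) := by
      refine h1.trans ?_
      refine le_trans (mul_le_mul_of_nonneg_right (hR.trans (le_abs_self R))
        (Finset.prod_nonneg fun _ _ => nm_nonneg _ _)) ?_
      exact Finset.single_le_sum (f := fun i => |R| * ∏ j ∈ Finset.univ.erase i, nm B (z j))
        (fun i _ => mul_nonneg (abs_nonneg _) (Finset.prod_nonneg fun _ _ => nm_nonneg _ _))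
        (Finset.mem_univ i)
    have h3 : |(c i : ℝ)| ≤ (∑ i, |R| * ∏ j ∈ Finset.univ.erase i, nm B (z j)) / vol B z := by
      rwa [le_div_iff₀ hv]
    have h4 : |(c i : ℝ)| ≤ (K : ℝ) := h3.trans (Int.le_ceil _)
    exact_mod_cast h4
  exact ⟨c, ⟨fun i => (abs_le.1 (hci i)).1, fun i => (abs_le.1 (hci i)).2⟩, hc⟩

private theorem h40_short {B : LinearMap.BilinForm ℝ E} (hB : Pos B) {r : ℕ} {z : Fin (r + 1) → E}
    (hz : LinearIndependent ℝ z) :
    ∃ b ∈ AddSubgroup.closure (Set.range z), b ≠ 0 ∧
      ∀ x ∈ AddSubgroup.closure (Set.range z), x ≠ 0 → nm B b ≤ nm B x := by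
  have hfin := (h40_fin hB hz (nm B (z 0))).subset
    (fun x (hx : x ∈ {x | (x ∈ AddSubgroup.closure (Set.range z) ∧ nm B x ≤ nm B (z 0)) ∧ x ≠ 0})
      => hx.1)
  have hne : z 0 ∈ {x | (x ∈ AddSubgroup.closure (Set.range z) ∧ nm B x ≤ nm B (z 0)) ∧ x ≠ 0} :=
    ⟨⟨AddSubgroup.subset_closure ⟨0, rfl⟩, le_rfl⟩, hz.ne_zero 0⟩
  obtain ⟨b, hb, hmin⟩ := Set.exists_min_image _ (nm B) hfin ⟨_, hne⟩
  refine ⟨b, hb.1.1, hb.2, fun x hx hx0 => ?_⟩
  by_cases h : nm B x ≤ nm B (z 0)
  · exact hmin x ⟨⟨hx, h⟩, hx0⟩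
  · exact hb.1.2.trans (not_le.1 h).le

private theorem h40_basis {r : ℕ} {z : Fin (r + 1) → E} (hz : LinearIndependent ℝ z) {b : E}
    (hb : b ∈ AddSubgroup.closure (Set.range z)) (hb0 : b ≠ 0) :
    ∃ z' : Fin (r + 1) → E, ∃ m : ℤ,
      AddSubgroup.closure (Set.range z') = AddSubgroup.closure (Set.range z) ∧
        b = (m : ℝ) • z' 0 := by
  have hzZ : LinearIndependent ℤ z := by
    refine hz.restrict_scalars ?_
    intro a b hab
    simpa using hab
  let M := Submodule.span ℤ (Set.range z)
  have hbM : b ∈ M := by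
    have := hb
    rw [← Submodule.span_int_eq_addSubgroupClosure, Submodule.mem_toAddSubgroup] at this
    exact this
  let bz : Module.Basis (Fin (r + 1)) ℤ M := Module.Basis.span hzZ
  let b0 : M := ⟨b, hbM⟩
  obtain ⟨n, S⟩ := Submodule.smithNormalForm bz (Submodule.span ℤ {b0})
  have hb0N : b0 ∈ Submodule.span ℤ {b0} := Submodule.mem_span_singleton_self b0
  have hrep : (⟨b0, hb0N⟩ : Submodule.span ℤ {b0}) = ∑ i, S.bN.repr ⟨b0, hb0N⟩ i • S.bN i :=
    (S.bN.sum_repr _).symm
  have hrep2 : b0 = ∑ i, (S.bN.repr ⟨b0, hb0N⟩ i * S.a i) • S.bM (S.f i) := by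
    have := congrArg (Submodule.subtype _) hrep
    rw [map_sum] at this
    simp only [map_smul, Submodule.subtype_apply] at this
    refine this.trans (Finset.sum_congr rfl fun i _ => ?_)
    rw [S.snf, smul_smul]
  have hn : n ≤ 1 := by
    have h1 := Module.finrank_eq_card_basis S.bN
    have h2 := finrank_span_le_card (R := ℤ) ({b0} : Set M)
    rw [h1] at h2
    simpa using h2
  have hn1 : n = 1 := by
    rcases Nat.lt_or_ge 0 n with h | h
    · omega
    · obtain rfl : n = 0 := by omega
      exfalso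
      rw [Finset.univ_eq_empty, Finset.sum_empty] at hrep2
      exact hb0 (congrArg Subtype.val hrep2)
  subst hn1
  refine ⟨fun i => (S.bM (Equiv.swap 0 (S.f 0) i) : E), S.bN.repr ⟨b0, hb0N⟩ 0 * S.a 0, ?_, ?_⟩
  · have h1 : Set.range (fun i => (S.bM (Equiv.swap 0 (S.f 0) i) : E)) =
        M.subtype '' Set.range S.bM := by
      rw [← Set.range_comp]
      exact (Equiv.swap 0 (S.f 0)).surjective.range_comp (fun i => (S.bM i : E))
    have h2 : Submodule.span ℤ (M.subtype '' Set.range S.bM) = M := by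
      rw [Submodule.span_image, S.bM.span_eq, Submodule.map_top, Submodule.range_subtype]
    rw [h1, ← Submodule.span_int_eq_addSubgroupClosure, ← Submodule.span_int_eq_addSubgroupClosure,
      h2]
  · have h3 := congrArg Subtype.val hrep2
    rw [Fin.sum_univ_one] at h3
    have h4 : b = (S.bN.repr ⟨b0, hb0N⟩ 0 * S.a 0) • (S.bM (S.f 0) : E) := h3
    rw [Int.cast_smul_eq_zsmul]
    simpa using h4

private theorem h40_volcons {B : LinearMap.BilinForm ℝ E} (hB : Pos B) {r : ℕ} (b : E)
    (u : Fin r → E) (h : ∀ i, B b (u i) = 0) :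
    vol B (Fin.cons b u : Fin (r + 1) → E) = nm B b * vol B u := by
  unfold vol nm
  rw [← Real.sqrt_mul (h40_nonneg hB b)]
  congr 1
  rw [Matrix.det_succ_row_zero, Finset.sum_eq_single 0]
  · simp only [Fin.val_zero, pow_zero, one_mul, Matrix.of_apply, Fin.cons_zero,
      Fin.succAbove_zero]
    congr 2
  · intro j _ hj
    obtain ⟨k, rfl⟩ := Fin.exists_succ_eq.2 hj
    simp [h k]
  · simp

private theorem h40_detuni {r : ℕ} (t : Fin r → ℝ) :
    (Matrix.of (Fin.cons (Pi.single 0 1) fun i => Fin.cons (t i) (Pi.single i 1) :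
      Fin (r + 1) → Fin (r + 1) → ℝ)).det = 1 := by
  rw [Matrix.det_succ_row_zero, Finset.sum_eq_single 0]
  · simp only [Fin.val_zero, pow_zero, one_mul, Matrix.of_apply, Fin.cons_zero,
      Fin.succAbove_zero, Pi.single_eq_same]
    rw [show (Matrix.submatrix (Matrix.of (Fin.cons (Pi.single 0 1) fun i =>
      Fin.cons (t i) (Pi.single i 1) : Fin (r + 1) → Fin (r + 1) → ℝ)) Fin.succ Fin.succ) =
      (1 : Matrix (Fin r) (Fin r) ℝ) from ?_, Matrix.det_one]
    ext i j
    simp [Matrix.one_apply, Pi.single_apply, eq_comm]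
  · intro j _ hj
    simp [hj]
  · simp

private theorem h40_main {B : LinearMap.BilinForm ℝ E} (hB : Pos B) : ∀ (r : ℕ) (z : Fin r → E),
    LinearIndependent ℝ z →
    ∃ w : Fin r → E, (∀ i, w i ∈ AddSubgroup.closure (Set.range z)) ∧ LinearIndependent ℝ w ∧
      ∏ i, nm B (w i) ≤ 2 ^ (r ^ 2) * vol B z := by
  intro r
  induction r with
  | zero =>
    intro z hz
    refine ⟨z, fun i => i.elim0, hz, ?_⟩
    simp [vol]
  | succ r ih =>
    intro z hz
    obtain ⟨b₀, hb₀M, hb₀0, hb₀min⟩ := h40_short hB hz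
    obtain ⟨z', m, hcl, hbm⟩ := h40_basis hz hb₀M hb₀0
    have hz' : LinearIndependent ℝ z' := by
      refine h40_indep hz fun i => h40_clspn z' ?_
      rw [hcl]
      exact AddSubgroup.subset_closure ⟨i, rfl⟩
    set b := z' 0 with hb
    have hbM : b ∈ AddSubgroup.closure (Set.range z) := by
      rw [← hcl]
      exact AddSubgroup.subset_closure ⟨0, rfl⟩
    have hb0 : b ≠ 0 := hz'.ne_zero 0
    have hm0 : m ≠ 0 := by
      rintro rfl
      simp at hbm
      exact hb₀0 hbm
    have hmin : ∀ x ∈ AddSubgroup.closure (Set.range z), x ≠ 0 → nm B b ≤ nm B x := by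
      intro x hx hx0
      refine le_trans ?_ (hb₀min x hx hx0)
      rw [hbm]
      have h1 : nm B ((m : ℝ) • b) = |(m : ℝ)| * nm B b := by
        unfold nm
        have h0 : B ((m : ℝ) • b) ((m : ℝ) • b) = ((m : ℝ) * m) * B b b := by
          simp only [map_smul, LinearMap.smul_apply, smul_eq_mul]
          ring
        rw [h0, Real.sqrt_mul (mul_self_nonneg _), Real.sqrt_mul_self_eq_abs]
      rw [h1]
      have h2 : (1 : ℝ) ≤ |(m : ℝ)| := by
        have : (1 : ℤ) ≤ |m| := Int.one_le_abs hm0
        exact_mod_cast this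
      nlinarith [nm_nonneg B b]
    have hbb : 0 < B b b := hB.pos b hb0
    -- the projection
    let t : Fin r → ℝ := fun i => B (z' i.succ) b / B b b
    let u : Fin r → E := fun i => z' i.succ - t i • b
    have hub : ∀ i, B (u i) b = 0 := by
      intro i
      simp only [u, t, map_sub, LinearMap.sub_apply, map_smul, LinearMap.smul_apply, smul_eq_mul]
      field_simp
      ring
    have hbu : ∀ i, B b (u i) = 0 := fun i => by rw [hB.symm]; exact hub i
    -- volumes
    have hvz : vol B z' ≤ vol B z := by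
      have hmem : ∀ i, ∃ c : Fin (r + 1) → ℤ, ∑ j, (c j : ℝ) • z' j = z i := by
        intro i
        rw [← h40_mem, hcl]
        exact AddSubgroup.subset_closure ⟨i, rfl⟩
      choose g hg using hmem
      have h1 := vol_comb hB z' z (Matrix.of fun i j => (g i j : ℝ)) (fun i => (hg i).symm)
      have h2 : (Matrix.of fun i j => (g i j : ℝ)).det = ((Matrix.of g).det : ℤ) := by
        rw [Int.cast_det]
        rfl
      have h3 : (Matrix.of g).det ≠ 0 := by
        intro h0
        rw [h2, h0] at h1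
        have := vol_pos hB hz
        rw [h1] at this
        simp at this
      have h4 : (1 : ℝ) ≤ |(((Matrix.of g).det : ℤ) : ℝ)| := by
        have : (1 : ℤ) ≤ |(Matrix.of g).det| := Int.one_le_abs h3
        exact_mod_cast this
      rw [h1, h2]
      nlinarith [vol_nonneg B z']
    have hvu : vol B z' = nm B b * vol B u := by
      rw [← h40_volcons hB b u hbu]
      have h1 := vol_comb hB (Fin.cons b u : Fin (r + 1) → E) z'
        (Matrix.of (Fin.cons (Pi.single 0 1) fun i => Fin.cons (t i) (Pi.single i 1) :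
          Fin (r + 1) → Fin (r + 1) → ℝ)) ?_
      · rw [h1, h40_detuni]
        simp
      · intro i
        refine Fin.cases ?_ (fun i => ?_) i
        · rw [Fin.sum_univ_succ]
          simp [Fin.succ_ne_zero, hb]
        · rw [Fin.sum_univ_succ]
          simp [Pi.single_apply, u]
    -- independence of u
    have hu : LinearIndependent ℝ u := by
      rw [Fintype.linearIndependent_iff]
      intro c hc
      have h1 := Fintype.linearIndependent_iff.1 hz'
        (Fin.cons (-(∑ i, c i * t i)) c : Fin (r + 1) → ℝ) ?_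
      · intro i
        have := h1 i.succ
        simpa using this
      · rw [Fin.sum_univ_succ]
        simp only [Fin.cons_zero, Fin.cons_succ]
        have h2 : ∑ i, c i • u i = ∑ i, c i • z' i.succ - (∑ i, c i * t i) • b := by
          simp only [u, smul_sub, Finset.sum_sub_distrib, smul_smul, Finset.sum_smul]
        rw [h2] at hc
        rw [neg_smul, neg_add_eq_sub]
        exact hc
    obtain ⟨w', hw'M, hw'i, hw'v⟩ := ih u hu
    -- lifts
    have hw'b : ∀ i, B (w' i) b = 0 := by
      intro i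
      obtain ⟨c, hc⟩ := (h40_mem u (w' i)).1 (hw'M i)
      rw [← hc]
      simp [hub]
    have hlift : ∀ i, ∃ x ∈ AddSubgroup.closure (Set.range z), ∃ s : ℝ, x = w' i + s • b ∧
        |s| ≤ 1 / 2 := by
      intro i
      obtain ⟨c, hc⟩ := (h40_mem u (w' i)).1 (hw'M i)
      set s₀ : ℝ := ∑ j, (c j : ℝ) * t j with hs₀
      refine ⟨∑ j, (c j : ℝ) • z' j.succ - (round s₀ : ℝ) • b, ?_, s₀ - round s₀, ?_,
        abs_sub_round s₀⟩
      · rw [← hcl]
        refine AddSubgroup.sub_mem _ (AddSubgroup.sum_mem _ fun j _ => ?_) ?_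
        · rw [Int.cast_smul_eq_zsmul]
          exact AddSubgroup.zsmul_mem _ (AddSubgroup.subset_closure (Set.mem_range_self _)) _
        · rw [Int.cast_smul_eq_zsmul]
          exact AddSubgroup.zsmul_mem _ (AddSubgroup.subset_closure (Set.mem_range_self _)) _
      · rw [← hc, sub_smul]
        have h2 : ∑ i, (c i : ℝ) • u i = ∑ i, (c i : ℝ) • z' i.succ - s₀ • b := by
          simp only [u, smul_sub, Finset.sum_sub_distrib, smul_smul, Finset.sum_smul, hs₀]
        rw [h2]
        abel
    choose x hxM s hxs hs using hlift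
    have hw0 : ∀ i, w' i ≠ 0 := fun i => hw'i.ne_zero i
    have hxb : ∀ i, B (x i) (x i) = B (w' i) (w' i) + s i ^ 2 * B b b := by
      intro i
      rw [hxs i]
      simp only [map_add, LinearMap.add_apply, map_smul, LinearMap.smul_apply, smul_eq_mul,
        hw'b i, hB.symm b (w' i)]
      ring
    have hx0 : ∀ i, x i ≠ 0 := by
      intro i h0
      have := hxb i
      rw [h0] at this
      simp only [map_zero] at this
      nlinarith [hB.pos _ (hw0 i), mul_nonneg (sq_nonneg (s i)) hbb.le]
    have hxn : ∀ i, nm B (x i) ≤ 2 * nm B (w' i) := by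
      intro i
      have h1 := hmin (x i) (hxM i) (hx0 i)
      have h2 : B b b ≤ B (x i) (x i) := by
        rw [← h40_nmsq hB, ← h40_nmsq hB]
        exact pow_le_pow_left₀ (nm_nonneg _ _) h1 2
      have h3 : s i ^ 2 ≤ 1 / 4 := by
        have := hs i
        rw [← sq_abs]
        nlinarith [abs_nonneg (s i)]
      have h4 := hxb i
      have h5 : nm B (x i) ^ 2 ≤ (2 * nm B (w' i)) ^ 2 := by
        rw [mul_pow, h40_nmsq hB, h40_nmsq hB]
        nlinarith [hB.pos _ (hw0 i)]
      exact (pow_le_pow_iff_left₀ (nm_nonneg _ _)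
        (mul_nonneg (by norm_num) (nm_nonneg _ _)) two_ne_zero).1 h5
    refine ⟨Fin.cons b x, ?_, ?_, ?_⟩
    · intro i
      refine Fin.cases ?_ (fun i => ?_) i
      · simpa using hbM
      · simpa using hxM i
    · rw [Fintype.linearIndependent_iff]
      intro c hc
      rw [Fin.sum_univ_succ] at hc
      simp only [Fin.cons_zero, Fin.cons_succ] at hc
      have h1 : ∑ i, c i.succ • w' i + (c 0 + ∑ i, c i.succ * s i) • b = 0 := by
        rw [← hc]
        simp only [hxs, smul_add, Finset.sum_add_distrib, smul_smul, add_smul, Finset.sum_smul]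
        abel
      have h2 : (c 0 + ∑ i, c i.succ * s i) * B b b = 0 := by
        have := congrArg (fun y => B y b) h1
        simpa [hw'b, map_sum] using this
      have h3 : c 0 + ∑ i, c i.succ * s i = 0 := by
        rcases mul_eq_zero.1 h2 with h | h
        · exact h
        · exact absurd h hbb.ne'
      rw [h3, zero_smul, add_zero] at h1
      have h4 := Fintype.linearIndependent_iff.1 hw'i (fun i => c i.succ) h1
      intro i
      refine Fin.cases ?_ (fun i => h4 i) i
      simpa [h4] using h3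
    · rw [Fin.prod_univ_succ]
      simp only [Fin.cons_zero, Fin.cons_succ]
      have h1 : ∏ i, nm B (x i) ≤ 2 ^ r * ∏ i, nm B (w' i) := by
        calc ∏ i, nm B (x i) ≤ ∏ i, (2 * nm B (w' i)) :=
              Finset.prod_le_prod (fun i _ => nm_nonneg _ _) (fun i _ => hxn i)
          _ = 2 ^ r * ∏ i, nm B (w' i) := by
              rw [Finset.prod_mul_distrib, Finset.prod_const, Finset.card_univ, Fintype.card_fin]
      have h2 : nm B b * vol B u ≤ vol B z := hvu ▸ hvz
      calc nm B b * ∏ i, nm B (x i) ≤ nm B b * (2 ^ r * (2 ^ (r ^ 2) * vol B u)) := by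
            refine mul_le_mul_of_nonneg_left (h1.trans ?_) (nm_nonneg _ _)
            exact mul_le_mul_of_nonneg_left hw'v (by positivity)
        _ = 2 ^ (r + r ^ 2) * (nm B b * vol B u) := by rw [pow_add]; ring
        _ ≤ 2 ^ ((r + 1) ^ 2) * vol B z := by
            refine mul_le_mul (pow_le_pow_right₀ (by norm_num) (by nlinarith)) h2
              (mul_nonneg (nm_nonneg _ _) (vol_nonneg _ _)) (by positivity)

theorem reduce {B : LinearMap.BilinForm ℝ E} (hB : Pos B) {r : ℕ} {z : Fin r → E}
    (hz : LinearIndependent ℝ z) :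
    ∃ w : Fin r → E, (∀ i, w i ∈ AddSubgroup.closure (Set.range z)) ∧ LinearIndependent ℝ w ∧
      spn w = spn z ∧ ∏ i, nm B (w i) ≤ 2 ^ (r ^ 2) * vol B z := by
  obtain ⟨w, h1, h2, h3⟩ := h40_main hB r z hz
  exact ⟨w, h1, h2, h40_spn hz h2 fun i => h40_clspn z (h1 i), h3⟩

theorem vol_ge {B : LinearMap.BilinForm ℝ E} (hB : Pos B) {r : ℕ} {z : Fin r → E}
    (hz : LinearIndependent ℝ z) {ρ : ℝ} (hρ : 0 ≤ ρ)
    (h : ∀ x ∈ AddSubgroup.closure (Set.range z), x ≠ 0 → ρ ≤ nm B x) :
    ρ ^ r ≤ 2 ^ (r ^ 2) * vol B z := by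
  obtain ⟨w, h1, h2, h3⟩ := h40_main hB r z hz
  refine le_trans ?_ h3
  calc ρ ^ r = ∏ _i : Fin r, ρ := by simp
    _ ≤ ∏ i, nm B (w i) := Finset.prod_le_prod (fun _ _ => hρ)
        (fun i _ => h _ (h1 i) (h2.ne_zero i))

end LA

end Pool.Agent.TFL
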