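/-
MP_e98778_an, module L, LA3.
PAPER PROOF. reduce_short: from reduce; the product is <= 2^(r^2) V and the other r-1 factors are >= rho (r = 0: nothing to prove).
(two_labels) see the statement.  Put R = 2^(r^2) V / rho^(r-1).  Reduce z and z' : each reduced
             vector has norm <= R (the product is <= 2^(r^2) V and the other r-1 factors are
             >= rho).  The union of the two reduced families spans spn z + spn z', which has
             dimension k > r because the spans are different and both have dimension r.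
             Choose k independent vectors b from the union (exists_linearIndependent or
             Basis extension).  Hadamard: vol b <= R^k.  Each b_i lies in spn z or spn z', so
             len (Q b_i) <= alpha nm(b_i) <= alpha R.  For y = sum c_i b_i :
             |c_i| <= nm(y) R^(k-1) / vol b <= nm(y) R^(k-1) 2^(k^2) / rho^k, hence
             len (Q y) <= k * alpha R * nm(y) R^(k-1) 2^(k^2)/rho^k.
-/
import Pool.Agent.Helper45.TFL.LA2

open MeasureTheory Set

namespace Pool.Agent.TFL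

section LA
variable {E : Type*} [AddCommGroup E] [Module ℝ E]

private theorem h80_len_nonneg (p : ℝ × ℝ) : 0 ≤ len p := Real.sqrt_nonneg _

private theorem h80_len_zero : len 0 = 0 := by simp [len]

private theorem h80_len_add (p q : ℝ × ℝ) : len (p + q) ≤ len p + len q := by
  unfold len
  have hp := Real.sq_sqrt (show 0 ≤ p.1 ^ 2 + p.2 ^ 2 by positivity)
  have hq := Real.sq_sqrt (show 0 ≤ q.1 ^ 2 + q.2 ^ 2 by positivity)
  have h1 := Real.sqrt_nonneg (p.1 ^ 2 + p.2 ^ 2)
  have h2 := Real.sqrt_nonneg (q.1 ^ 2 + q.2 ^ 2)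
  set x := Real.sqrt (p.1 ^ 2 + p.2 ^ 2)
  set y := Real.sqrt (q.1 ^ 2 + q.2 ^ 2)
  refine Real.sqrt_le_iff.2 ⟨by positivity, ?_⟩
  simp only [Prod.fst_add, Prod.snd_add]
  have h3 : p.1 * q.1 + p.2 * q.2 ≤ x * y := by
    refine (abs_le_of_sq_le_sq' ?_ (mul_nonneg h1 h2)).2
    rw [mul_pow, hp, hq]
    nlinarith [sq_nonneg (p.1 * q.2 - p.2 * q.1)]
  nlinarith

private theorem h80_len_smul (c : ℝ) (p : ℝ × ℝ) : len (c • p) = |c| * len p := by
  unfold len
  have : (c • p).1 ^ 2 + (c • p).2 ^ 2 = c ^ 2 * (p.1 ^ 2 + p.2 ^ 2) := by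
    simp only [Prod.smul_fst, Prod.smul_snd, smul_eq_mul]; ring
  rw [this, Real.sqrt_mul (sq_nonneg c), Real.sqrt_sq_eq_abs]

private theorem h80_nm_zero (B : LinearMap.BilinForm ℝ E) : nm B 0 = 0 := by simp [nm]

/-- Short reduced vectors. -/
theorem reduce_short {B : LinearMap.BilinForm ℝ E} (hB : Pos B) {r : ℕ} {z : Fin r → E}
    (hz : LinearIndependent ℝ z) {ρ V : ℝ} (hρ : 0 < ρ)
    (h : ∀ x ∈ AddSubgroup.closure (Set.range z), x ≠ 0 → ρ ≤ nm B x) (hV : vol B z ≤ V) :
    ∃ w : Fin r → E, (∀ i, w i ∈ AddSubgroup.closure (Set.range z)) ∧ LinearIndependent ℝ w ∧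
      spn w = spn z ∧ ∀ i, nm B (w i) ≤ 2 ^ (r ^ 2) * V / ρ ^ (r - 1) := by
  obtain ⟨w, hw1, hw2, hw3, hw4⟩ := reduce hB hz
  refine ⟨w, hw1, hw2, hw3, fun i => ?_⟩
  rw [le_div_iff₀ (pow_pos hρ _)]
  have h1 : ρ ^ (r - 1) ≤ ∏ j ∈ Finset.univ.erase i, nm B (w j) := by
    have hc : (Finset.univ.erase i).card = r - 1 := by
      rw [Finset.card_erase_of_mem (Finset.mem_univ i), Finset.card_univ, Fintype.card_fin]
    rw [← hc, ← Finset.prod_const]
    exact Finset.prod_le_prod (fun _ _ => hρ.le) fun j _ => h _ (hw1 j) (hw2.ne_zero j)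
  calc nm B (w i) * ρ ^ (r - 1)
      ≤ nm B (w i) * ∏ j ∈ Finset.univ.erase i, nm B (w j) :=
        mul_le_mul_of_nonneg_left h1 (nm_nonneg _ _)
    _ = ∏ j, nm B (w j) := Finset.mul_prod_erase Finset.univ (fun j => nm B (w j)) (Finset.mem_univ i)
    _ ≤ 2 ^ (r ^ 2) * vol B z := hw4
    _ ≤ 2 ^ (r ^ 2) * V := mul_le_mul_of_nonneg_left hV (by positivity)

theorem two_labels {B : LinearMap.BilinForm ℝ E} (hB : Pos B) (Q : E →ₗ[ℝ] ℝ × ℝ)
    (L : AddSubgroup E) {ρ V α : ℝ} (hρ : 0 < ρ) (hα : 0 ≤ α)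
    (hL : ∀ x ∈ L, x ≠ 0 → ρ ≤ nm B x) {r : ℕ} {z z' : Fin r → E}
    (hz : ∀ i, z i ∈ L) (hz' : ∀ i, z' i ∈ L)
    (hi : LinearIndependent ℝ z) (hi' : LinearIndependent ℝ z') (hne : spn z ≠ spn z')
    (hV : vol B z ≤ V) (hV' : vol B z' ≤ V)
    (hq : ∀ y ∈ spn z, len (Q y) ≤ α * nm B y) (hq' : ∀ y ∈ spn z', len (Q y) ≤ α * nm B y) :
    ∃ k, r < k ∧ ∃ b : Fin k → E, (∀ i, b i ∈ L) ∧ LinearIndependent ℝ b ∧ spn z ≤ spn b ∧
      vol B b ≤ (2 ^ (r ^ 2) * V / ρ ^ (r - 1)) ^ k ∧
      ∀ y ∈ spn b, len (Q y) ≤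
        k * 2 ^ (k ^ 2) * (2 ^ (r ^ 2) * V / ρ ^ (r - 1) / ρ) ^ k * α * nm B y := by
  have hcl : AddSubgroup.closure (Set.range z) ≤ L := by
    rw [AddSubgroup.closure_le]
    rintro _ ⟨i, rfl⟩
    exact hz i
  have hcl' : AddSubgroup.closure (Set.range z') ≤ L := by
    rw [AddSubgroup.closure_le]
    rintro _ ⟨i, rfl⟩
    exact hz' i
  obtain ⟨w, hw1, hw2, hw3, hw4⟩ := reduce_short hB hi hρ (fun x hx => hL x (hcl hx)) hV
  obtain ⟨w', hw1', hw2', hw3', hw4'⟩ := reduce_short hB hi' hρ (fun x hx => hL x (hcl' hx)) hV'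
  set R : ℝ := 2 ^ (r ^ 2) * V / ρ ^ (r - 1) with hR
  have hV0 : 0 ≤ V := (vol_nonneg B z).trans hV
  have hR0 : 0 ≤ R := by positivity
  obtain ⟨b, hb1, hb2, hb3⟩ := exists_linearIndependent ℝ (Set.range w ∪ Set.range w')
  have hbf : b.Finite := ((Set.finite_range w).union (Set.finite_range w')).subset hb1
  letI : Fintype b := hbf.fintype
  set e := Fintype.equivFin b with he
  set k := Fintype.card b with hk
  set bb : Fin k → E := fun i => (e.symm i : E) with hbb
  have hrange : Set.range bb = b := by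
    rw [hbb]
    ext x
    constructor
    · rintro ⟨i, rfl⟩
      exact (e.symm i).2
    · intro hx
      exact ⟨e ⟨x, hx⟩, by simp⟩
  have hbi : LinearIndependent ℝ bb := hb3.comp e.symm e.symm.injective
  have hspan : spn bb = Submodule.span ℝ (Set.range w ∪ Set.range w') := by
    unfold spn
    rw [hrange, hb2]
  have hzb : spn z ≤ spn bb := by
    rw [hspan, ← hw3]
    exact Submodule.span_mono Set.subset_union_left
  have hzb' : spn z' ≤ spn bb := by
    rw [hspan, ← hw3']
    exact Submodule.span_mono Set.subset_union_right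
  have hfz : Module.finrank ℝ (spn z) = r := by
    unfold spn
    rw [finrank_span_eq_card hi, Fintype.card_fin]
  have hfz' : Module.finrank ℝ (spn z') = r := by
    unfold spn
    rw [finrank_span_eq_card hi', Fintype.card_fin]
  have hfb : Module.finrank ℝ (spn bb) = k := by
    unfold spn
    rw [finrank_span_eq_card hbi, Fintype.card_fin]
  haveI : FiniteDimensional ℝ (spn bb) := by
    unfold spn
    exact FiniteDimensional.span_of_finite ℝ (Set.finite_range bb)
  haveI : FiniteDimensional ℝ (spn z) := by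
    unfold spn
    exact FiniteDimensional.span_of_finite ℝ (Set.finite_range z)
  have hlt : spn z < spn bb := by
    refine lt_of_le_of_ne hzb fun h => hne ?_
    have h2 : spn z' ≤ spn z := by rw [h]; exact hzb'
    exact (Submodule.eq_of_le_of_finrank_eq h2 (by rw [hfz, hfz'])).symm
  have hrk : r < k := by
    have := Submodule.finrank_lt_finrank_of_lt hlt
    rwa [hfz, hfb] at this
  have hbmem : ∀ i, (bb i ∈ L ∧ nm B (bb i) ≤ R) ∧ len (Q (bb i)) ≤ α * nm B (bb i) := by
    intro i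
    have hmem : bb i ∈ Set.range w ∪ Set.range w' := hb1 (e.symm i).2
    rcases hmem with ⟨j, hj⟩ | ⟨j, hj⟩
    · rw [← hj]
      refine ⟨⟨hcl (hw1 j), hw4 j⟩, hq _ ?_⟩
      rw [← hw3]
      exact Submodule.subset_span ⟨j, rfl⟩
    · rw [← hj]
      refine ⟨⟨hcl' (hw1' j), hw4' j⟩, hq' _ ?_⟩
      rw [← hw3']
      exact Submodule.subset_span ⟨j, rfl⟩
  refine ⟨k, hrk, bb, fun i => (hbmem i).1.1, hbi, hzb, ?_, ?_⟩
  · refine (vol_le_prod hB bb).trans ?_
    calc ∏ i, nm B (bb i) ≤ ∏ _i : Fin k, R :=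
          Finset.prod_le_prod (fun i _ => nm_nonneg _ _) fun i _ => (hbmem i).1.2
      _ = R ^ k := by rw [Finset.prod_const, Finset.card_univ, Fintype.card_fin]
  · intro y hy
    have hclb : AddSubgroup.closure (Set.range bb) ≤ L := by
      rw [AddSubgroup.closure_le]
      rintro _ ⟨i, rfl⟩
      exact (hbmem i).1.1
    have hvol := vol_ge hB hbi hρ.le (fun x hx => hL x (hclb hx))
    have hvpos := vol_pos hB hbi
    unfold spn at hy
    rw [Submodule.mem_span_range_iff_exists_fun] at hy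
    obtain ⟨c, hc⟩ := hy
    have hci : ∀ i, |c i| ≤ nm B y * R ^ (k - 1) * 2 ^ (k ^ 2) / ρ ^ k := by
      intro i
      have h1 := coef_bound hB bb c i
      rw [hc] at h1
      have h2 : ∏ j ∈ Finset.univ.erase i, nm B (bb j) ≤ R ^ (k - 1) := by
        have hcard : (Finset.univ.erase i).card = k - 1 := by
          rw [Finset.card_erase_of_mem (Finset.mem_univ i), Finset.card_univ, Fintype.card_fin]
        rw [← hcard, ← Finset.prod_const]
        exact Finset.prod_le_prod (fun j _ => nm_nonneg _ _) fun j _ => (hbmem j).1.2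
      have h3 : |c i| * vol B bb ≤ nm B y * R ^ (k - 1) :=
        h1.trans (mul_le_mul_of_nonneg_left h2 (nm_nonneg _ _))
      rw [le_div_iff₀ (pow_pos hρ _)]
      calc |c i| * ρ ^ k ≤ |c i| * (2 ^ (k ^ 2) * vol B bb) :=
            mul_le_mul_of_nonneg_left hvol (abs_nonneg _)
        _ = (|c i| * vol B bb) * 2 ^ (k ^ 2) := by ring
        _ ≤ (nm B y * R ^ (k - 1)) * 2 ^ (k ^ 2) :=
            mul_le_mul_of_nonneg_right h3 (by positivity)
    have hk1 : k = (k - 1) + 1 := by omega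
    calc len (Q y) = len (∑ i, c i • Q (bb i)) := by
          rw [← hc, map_sum]
          simp only [map_smul]
      _ ≤ ∑ i, len (c i • Q (bb i)) :=
          Finset.le_sum_of_subadditive len h80_len_zero.le h80_len_add _ _
      _ ≤ ∑ _i : Fin k, nm B y * R ^ (k - 1) * 2 ^ (k ^ 2) / ρ ^ k * (α * R) := by
          refine Finset.sum_le_sum fun i _ => ?_
          rw [h80_len_smul]
          refine mul_le_mul (hci i) ((hbmem i).2.trans
            (mul_le_mul_of_nonneg_left (hbmem i).1.2 hα)) (h80_len_nonneg _) ?_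
          have := nm_nonneg B y
          positivity
      _ = k * 2 ^ (k ^ 2) * (R / ρ) ^ k * α * nm B y := by
          rw [Finset.sum_const, Finset.card_univ, Fintype.card_fin, nsmul_eq_mul, div_pow R ρ k]
          have h5 : R ^ k = R ^ (k - 1) * R := by
            conv_lhs => rw [hk1]
            rw [pow_succ]
          rw [h5]
          ring

end LA

end Pool.Agent.TFL
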