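/-
MP_e98778_an, module L, TR: transport lemmas (TR2 block): shift of the class, labels seen from
another level / another point of the cell, the tangent class.

PAPER PROOF.
shift:     aff x y = aff x' y + y.2 • (x - x'), |y.2| <= nm (F s u x') y, triangle inequality.
xh_cell:   G e1 = G e2 = 0, so nm (N s u) (xh u - xh u0) = len (act s u q(xh u - xh u0)), and
           act s u q(..) = (e^{-s}(c'(u)-c'(u0)), e^s (c(u) - c(u0) - (u-u0) c'(u0))):
           |c'(u)-c'(u0)| <= K |u-u0|, |c(u)-c(u0)-(u-u0)c'(u0)| <= K |u-u0|^2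
           (mean value inequality on the segment between u0 and u, inside [a,b]; c'' in [κ,K], κ>0).
back/forth: combine TR1.nmF_down/up, nmF_cell, nmF_shift (eta <= 1, |y.2| <= nm).
IsLabel.back: vol_mono with K = 4 e^t and nmF_back; defect: lenQ_back, label at u, nmF_forth:
  2 e^t e^{-v} * 4 e^t nm + eta nm.
spread: lenQ_back, nmF_forth, nmF_back with t = 0 and the roles of (u0,x0), (u,x) exchanged.
-/
import Pool.Agent.Helper45.TFL.TR1

open MeasureTheory Set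

namespace Pool.Agent.TFL
namespace Sys
variable {V : Type} [AddCommGroup V] [Module ℝ V] (S : Sys V)

private theorem aff_shift (x x' : V) (y : V × ℝ) : aff x y = aff x' y + y.2 • (x - x') := by
  rw [aff_apply, aff_apply, smul_sub]; abel

private theorem nm_neg' {E : Type*} [AddCommGroup E] [Module ℝ E]
    (B : LinearMap.BilinForm ℝ E) (x : E) : nm B (-x) = nm B x := by
  simp [nm]

private theorem nm_symm' {E : Type*} [AddCommGroup E] [Module ℝ E]
    (B : LinearMap.BilinForm ℝ E) (x y : E) : nm B (x - y) = nm B (y - x) := by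
  rw [← nm_neg' B (x - y), neg_sub]

theorem nmF_shift (s u : ℝ) {x x' : V} {η : ℝ} (h : nm (S.N s u) (x - x') ≤ η) (y : V × ℝ) :
    nm (S.F s u x) y ≤ nm (S.F s u x') y + η * |y.2| := by
  have hη : 0 ≤ η := (nm_nonneg _ _).trans h
  have h1 : nm (S.N s u) (aff x y) ≤ nm (S.N s u) (aff x' y) + η * |y.2| := by
    rw [aff_shift x x' y]
    refine (nm_add_le (S.N_pos s u) _ _).trans ?_
    rw [nm_smul (S.N_pos s u), mul_comm]
    exact add_le_add le_rfl (mul_le_mul_of_nonneg_right h (abs_nonneg _))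
  have h2 := S.nmN_aff_le s u x' y
  have hd : 0 ≤ η * |y.2| := mul_nonneg hη (abs_nonneg _)
  refine (abs_le_of_sq_le_sq' ?_ (add_nonneg (nm_nonneg _ _) hd)).2
  have h3 := S.nmF_sq s u x y
  have h4 := S.nmF_sq s u x' y
  have h5 := pow_le_pow_left₀ (nm_nonneg _ _) h1 2
  have h6 := mul_le_mul_of_nonneg_right h2 hd
  have h7 : nm (S.F s u x) y ^ 2 = nm (S.N s u) (aff x y) ^ 2 + y.2 ^ 2 := h3
  nlinarith

theorem lenQ_shift (s u : ℝ) {x x' : V} {η : ℝ} (h : nm (S.N s u) (x - x') ≤ η) (y : V × ℝ) :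
    len (S.Q s u x y) ≤ len (S.Q s u x' y) + η * |y.2| := by
  have hη : 0 ≤ η := (nm_nonneg _ _).trans h
  have e : S.Q s u x y = S.Q s u x' y + y.2 • act s u (S.q (x - x')) := by
    rw [Q_apply, Q_apply, aff_shift x x' y, map_add, map_add, map_smul, map_smul]
  have h1 : len (act s u (S.q (x - x'))) ≤ η := (S.len_le_nmN s u _).trans h
  set p := S.Q s u x' y
  set d := act s u (S.q (x - x'))
  have hd : 0 ≤ η * |y.2| := mul_nonneg hη (abs_nonneg _)
  rw [e]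
  refine (abs_le_of_sq_le_sq' ?_ (add_nonneg (len_nonneg _) hd)).2
  have hp := len_sq p
  have hdd := len_sq d
  have hd2 : len d ^ 2 ≤ η ^ 2 := pow_le_pow_left₀ (len_nonneg _) h1 2
  have hcs : (p.1 * d.1 + p.2 * d.2) ^ 2 ≤ (len p * len d) ^ 2 := by
    rw [mul_pow, hp, hdd]
    nlinarith [sq_nonneg (p.1 * d.2 - p.2 * d.1)]
  have hcs' : |p.1 * d.1 + p.2 * d.2| ≤ len p * len d := by
    refine abs_le_of_sq_le_sq hcs (mul_nonneg (len_nonneg _) (len_nonneg _))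
  have hcs2 : y.2 * (p.1 * d.1 + p.2 * d.2) ≤ |y.2| * (len p * η) := by
    refine (le_abs_self _).trans ?_
    rw [abs_mul]
    refine mul_le_mul_of_nonneg_left (hcs'.trans ?_) (abs_nonneg _)
    exact mul_le_mul_of_nonneg_left h1 (len_nonneg _)
  rw [len_sq]
  simp only [Prod.fst_add, Prod.snd_add, Prod.smul_fst, Prod.smul_snd, smul_eq_mul]
  have hy := sq_abs y.2
  have h8 : y.2 ^ 2 * (d.1 ^ 2 + d.2 ^ 2) ≤ y.2 ^ 2 * η ^ 2 := by
    rw [← hdd]; exact mul_le_mul_of_nonneg_left hd2 (sq_nonneg _)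
  have h9 : (len p + η * |y.2|) ^ 2 = len p ^ 2 + 2 * (|y.2| * (len p * η)) + η ^ 2 * |y.2| ^ 2 := by
    ring
  rw [h9, hp, hy]
  nlinarith

/-- Comparison of `(s, u₀, x₀)` with `(s + t, u, x)`, both directions. -/
theorem nmF_back (s t u u₀ : ℝ) (ht : 0 ≤ t) (hu : |u - u₀| ≤ Real.exp (-(2 * s))) {x x₀ : V}
    {η : ℝ} (hη : η ≤ 1) (h : nm (S.N s u₀) (x₀ - x) ≤ η) (y : V × ℝ) :
    nm (S.F s u₀ x₀) y ≤ 4 * Real.exp t * nm (S.F (s + t) u x) y := by
  have h1 := S.nmF_shift s u₀ h y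
  have h2 := S.abs_snd_le s u₀ x y
  have h3 := S.nmF_cell s u₀ u (by rwa [abs_sub_comm]) x y
  have h4 := S.nmF_down s t u ht x y
  have h5 : η * |y.2| ≤ nm (S.F s u₀ x) y :=
    (mul_le_of_le_one_left (abs_nonneg _) hη).trans h2
  nlinarith

theorem nmF_forth (s t u u₀ : ℝ) (ht : 0 ≤ t) (hu : |u - u₀| ≤ Real.exp (-(2 * s))) {x x₀ : V}
    {η : ℝ} (hη : η ≤ 1) (h : nm (S.N s u₀) (x₀ - x) ≤ η) (y : V × ℝ) :
    nm (S.F (s + t) u x) y ≤ 4 * Real.exp t * nm (S.F s u₀ x₀) y := by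
  have h0 : nm (S.N s u₀) (x - x₀) ≤ η := by rw [nm_symm']; exact h
  have h1 := S.nmF_shift s u₀ h0 y
  have h2 := S.abs_snd_le s u₀ x₀ y
  have h3 := S.nmF_cell s u u₀ hu x y
  have h4 := S.nmF_up s t u ht x y
  have h5 : η * |y.2| ≤ nm (S.F s u₀ x₀) y :=
    (mul_le_of_le_one_left (abs_nonneg _) hη).trans h2
  have h6 : nm (S.F s u x) y ≤ 4 * nm (S.F s u₀ x₀) y := by linarith
  calc nm (S.F (s + t) u x) y ≤ Real.exp t * nm (S.F s u x) y := h4
    _ ≤ Real.exp t * (4 * nm (S.F s u₀ x₀) y) :=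
        mul_le_mul_of_nonneg_left h6 (Real.exp_pos _).le
    _ = 4 * Real.exp t * nm (S.F s u₀ x₀) y := by ring

theorem lenQ_back (s t u u₀ : ℝ) (ht : 0 ≤ t) (hu : |u - u₀| ≤ Real.exp (-(2 * s))) {x x₀ : V}
    {η : ℝ} (h : nm (S.N s u₀) (x₀ - x) ≤ η) (y : V × ℝ) :
    len (S.Q s u₀ x₀ y) ≤ 2 * Real.exp t * len (S.Q (s + t) u x y) + η * |y.2| := by
  have h1 := S.lenQ_shift s u₀ h y
  have h2 : len (S.Q s u₀ x y) ≤ 2 * len (S.Q s u x y) := by
    rw [Q_apply, Q_apply]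
    exact len_act_cell s u₀ u (by rwa [abs_sub_comm]) _
  have h3 : len (S.Q s u x y) ≤ Real.exp t * len (S.Q (s + t) u x y) := by
    rw [Q_apply, Q_apply]
    exact len_act_down s t u ht _
  linarith

/-- A label at `(s+t,u)` seen from `(s,u₀)`. -/
theorem IsLabel.back {S : Sys V} {r : ℕ} {s t u u₀ v ζ η : ℝ} {x x₀ : V} {z : Fin r → V × ℝ}
    (hz : S.IsLabel x ζ (s + t) u v z) (ht : 0 ≤ t) (hu : |u - u₀| ≤ Real.exp (-(2 * s)))
    (hη : η ≤ 1) (h : nm (S.N s u₀) (x₀ - x) ≤ η) :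
    vol (S.F s u₀ x₀) z ≤ (4 * Real.exp t) ^ r * Real.exp (ζ * v) ∧
    ∀ y ∈ spn z, len (S.Q s u₀ x₀ y) ≤
      (8 * Real.exp (2 * t - v) + η) * nm (S.F s u₀ x₀) y := by
  have he : 0 ≤ 4 * Real.exp t := by positivity
  refine ⟨?_, fun y hy => ?_⟩
  · refine (vol_mono (S.F_pos s u₀ x₀) (S.F_pos (s + t) u x) he z
      (fun y _ => S.nmF_back s t u u₀ ht hu hη h y)).trans ?_
    exact mul_le_mul_of_nonneg_left hz.vol_le (pow_nonneg he _)
  · have hη0 : 0 ≤ η := (nm_nonneg _ _).trans h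
    have h1 := S.lenQ_back s t u u₀ ht hu h y
    have h2 := hz.q_le y hy
    have h3 := S.nmF_forth s t u u₀ ht hu hη h y
    have h4 : η * |y.2| ≤ η * nm (S.F s u₀ x₀) y :=
      mul_le_mul_of_nonneg_left (S.abs_snd_le s u₀ x₀ y) hη0
    have h5 : len (S.Q (s + t) u x y) ≤
        Real.exp (-v) * (4 * Real.exp t * nm (S.F s u₀ x₀) y) :=
      h2.trans (mul_le_mul_of_nonneg_left h3 (Real.exp_pos _).le)
    have h6 : 2 * Real.exp t * len (S.Q (s + t) u x y) ≤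
        2 * Real.exp t * (Real.exp (-v) * (4 * Real.exp t * nm (S.F s u₀ x₀) y)) :=
      mul_le_mul_of_nonneg_left h5 (by positivity)
    have h7 : 2 * Real.exp t * (Real.exp (-v) * (4 * Real.exp t * nm (S.F s u₀ x₀) y))
        = 8 * Real.exp (2 * t - v) * nm (S.F s u₀ x₀) y := by
      have : Real.exp (2 * t - v) = Real.exp t * Real.exp (-v) * Real.exp t := by
        rw [← Real.exp_add, ← Real.exp_add]; congr 1; ring
      rw [this]; ring
    rw [h7] at h6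
    calc len (S.Q s u₀ x₀ y) ≤ 8 * Real.exp (2 * t - v) * nm (S.F s u₀ x₀) y
          + η * nm (S.F s u₀ x₀) y := by linarith
      _ = _ := by ring

/-- From `(s,u₀)` to another point of the cell (no change of level). -/
theorem spread {r : ℕ} {s u u₀ v ζ η W α : ℝ} {x x₀ : V} {z : Fin r → V × ℝ}
    (hmem : ∀ i, z i ∈ S.L) (hind : LinearIndependent ℝ z) (haff : ∃ i, (z i).2 ≠ 0)
    (hvol : vol (S.F s u₀ x₀) z ≤ W) (hα : 0 ≤ α)
    (hq : ∀ y ∈ spn z, len (S.Q s u₀ x₀ y) ≤ α * nm (S.F s u₀ x₀) y)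
    (hu : |u - u₀| ≤ Real.exp (-(2 * s))) (hη0 : 0 ≤ η) (hη : η ≤ 1)
    (h : nm (S.N s u) (x - x₀) ≤ η) (hW : 4 ^ r * W ≤ Real.exp (ζ * v))
    (ha : 8 * α + η ≤ Real.exp (-v)) : S.IsLabel x ζ s u v z := by
  have hu' : |u₀ - u| ≤ Real.exp (-(2 * s)) := by rwa [abs_sub_comm]
  have back : ∀ y, nm (S.F s u x) y ≤ 4 * nm (S.F s u₀ x₀) y := by
    intro y
    have := S.nmF_back s 0 u₀ u le_rfl hu' (x := x₀) (x₀ := x) hη h y
    simpa using this
  have forth : ∀ y, nm (S.F s u₀ x₀) y ≤ 4 * nm (S.F s u x) y := by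
    intro y
    have := S.nmF_forth s 0 u₀ u le_rfl hu' (x := x₀) (x₀ := x) hη h y
    simpa using this
  have qb : ∀ y, len (S.Q s u x y) ≤ 2 * len (S.Q s u₀ x₀ y) + η * |y.2| := by
    intro y
    have := S.lenQ_back s 0 u₀ u le_rfl hu' (x := x₀) (x₀ := x) h y
    simpa using this
  refine ⟨hmem, hind, haff, ?_, fun y hy => ?_⟩
  · refine (vol_mono (S.F_pos s u x) (S.F_pos s u₀ x₀) (by norm_num : (0:ℝ) ≤ 4) z
      (fun y _ => back y)).trans ?_
    exact (mul_le_mul_of_nonneg_left hvol (by positivity)).trans hW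
  · have h1 := qb y
    have h2 := hq y hy
    have h3 : α * nm (S.F s u₀ x₀) y ≤ α * (4 * nm (S.F s u x) y) :=
      mul_le_mul_of_nonneg_left (forth y) hα
    have h4 : η * |y.2| ≤ η * nm (S.F s u x) y :=
      mul_le_mul_of_nonneg_left (S.abs_snd_le s u x y) hη0
    have h5 : (8 * α + η) * nm (S.F s u x) y ≤ Real.exp (-v) * nm (S.F s u x) y :=
      mul_le_mul_of_nonneg_right ha (nm_nonneg _ _)
    nlinarith

/-- The systole of `L` for `F`. -/
theorem sys_F {s u ρ : ℝ} (hρ : ρ ≤ 1) (h : u ∉ S.SYSbad ρ s) (x : V) {y : V × ℝ}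
    (hy : y ∈ S.L) (hy0 : y ≠ 0) : ρ ≤ nm (S.F s u x) y := by
  obtain ⟨hy1, hy2⟩ := AddSubgroup.mem_prod.mp hy
  obtain ⟨k, hk⟩ := AddSubgroup.mem_zmultiples_iff.mp hy2
  have hk' : y.2 = (k : ℝ) := by rw [← hk]; simp
  by_cases hk0 : k = 0
  · have hy20 : y.2 = 0 := by rw [hk', hk0]; simp
    have hy10 : y.1 ≠ 0 := fun h0 => hy0 (Prod.ext h0 hy20)
    by_contra hcon
    rw [not_le] at hcon
    apply h
    refine ⟨y.1, hy1, hy10, ?_⟩
    have h1 := S.nmN_aff_le s u x y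
    have h2 : aff x y = -y.1 := by rw [aff_apply, hy20]; simp
    rw [h2, nm_neg'] at h1
    linarith
  · have h1 : (1:ℝ) ≤ |(k:ℝ)| := by
      rw [← Int.cast_abs]
      exact_mod_cast Int.one_le_abs hk0
    have h2 := S.abs_snd_le s u x y
    rw [hk'] at h2
    linarith

/-- `SYSbad` is stable in a cell. -/
theorem SYSbad_cell {s u u₀ ρ : ℝ} (hu : |u - u₀| ≤ Real.exp (-(2 * s)))
    (h : u₀ ∈ S.SYSbad ρ s) : u ∈ S.SYSbad (2 * ρ) s := by
  obtain ⟨m, hm, hm0, hm1⟩ := h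
  refine ⟨m, hm, hm0, (S.nmN_cell s u u₀ hu m).trans ?_⟩
  linarith

private theorem nmN_taut (s u a b : ℝ) :
    nm (S.N s u) (a • S.e1 + b • S.e2) = len (act s u (a, b)) := by
  have hq : S.q (a • S.e1 + b • S.e2) = (a, b) := by
    rw [map_add, map_smul, map_smul, S.q1, S.q2]; simp
  have hG : S.G s u (a • S.e1 + b • S.e2) (a • S.e1 + b • S.e2) = 0 := by
    simp only [map_add, map_smul, LinearMap.add_apply, LinearMap.smul_apply, S.Ge1, S.Ge2,
      smul_eq_mul, mul_zero, add_zero]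
  have h := S.nmN_sq s u (a • S.e1 + b • S.e2)
  rw [hq, hG, add_zero] at h
  exact (sq_eq_sq₀ (nm_nonneg _ _) (len_nonneg _)).mp h

theorem xh_cell {c c' c'' : ℝ → ℝ} {κ K a b : ℝ} (hκ : 0 < κ) (hc : Curv c c' c'' κ K a b)
    {s u u₀ : ℝ} (hu : u ∈ Icc a b) (hu₀ : u₀ ∈ Icc a b) (h : |u - u₀| ≤ Real.exp (-(2 * s))) :
    nm (S.N s u) (S.xh c c' u - S.xh c c' u₀) ≤ 2 * K * Real.exp (-(3 * s)) := by
  have hK : 0 ≤ K := (abs_nonneg _).trans (hc.b1 u hu)
  have hb : ∀ w ∈ Icc a b, ‖c'' w‖ ≤ K := fun w hw => by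
    rw [Real.norm_eq_abs, abs_le]
    exact ⟨by linarith [hc.lo w hw], hc.hi w hw⟩
  have m1 : ∀ w ∈ Icc a b, |c' w - c' u₀| ≤ K * |w - u₀| := by
    intro w hw
    have := (convex_Icc a b).norm_image_sub_le_of_norm_hasDerivWithin_le (f := c') (f' := c'')
      (C := K) (fun z hz => (hc.d2 z hz).hasDerivWithinAt) hb hu₀ hw
    simpa [Real.norm_eq_abs] using this
  have hseg : uIcc u₀ u ⊆ Icc a b := uIcc_subset_Icc hu₀ hu
  have m2 : |c u - c u₀ - (u - u₀) * c' u₀| ≤ K * |u - u₀| * |u - u₀| := by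
    have := (convex_uIcc u₀ u).norm_image_sub_le_of_norm_hasDerivWithin_le
      (f := fun w => c w - c u₀ - (w - u₀) * c' u₀) (f' := fun w => c' w - c' u₀)
      (C := K * |u - u₀|) (fun z hz => ?_) (fun z hz => ?_) left_mem_uIcc right_mem_uIcc
    · simpa [Real.norm_eq_abs] using this
    · have h1 := (hc.d1 z (hseg hz))
      have h2 : HasDerivAt (fun w => c w - c u₀ - (w - u₀) * c' u₀) (c' z - 1 * c' u₀) z :=
        (h1.sub_const _).sub (((hasDerivAt_id z).sub_const u₀).mul_const _)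
      rw [one_mul] at h2
      exact h2.hasDerivWithinAt
    · rw [Real.norm_eq_abs]
      refine (m1 z (hseg hz)).trans (mul_le_mul_of_nonneg_left ?_ hK)
      exact abs_sub_left_of_mem_uIcc hz
  have e : S.xh c c' u - S.xh c c' u₀ = (c' u - c' u₀) • S.e1
      + ((c u - u * c' u) - (c u₀ - u₀ * c' u₀)) • S.e2 := by
    rw [xh, xh, sub_smul (c' u), sub_smul (c u - u * c' u)]; abel
  rw [e, nmN_taut]
  have hx : |(act s u (c' u - c' u₀, (c u - u * c' u) - (c u₀ - u₀ * c' u₀))).1|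
      ≤ K * Real.exp (-(3 * s)) := by
    simp only [act, LinearMap.coe_mk, AddHom.coe_mk]
    rw [abs_mul, abs_of_pos (Real.exp_pos _)]
    have h1 := (m1 u hu).trans (mul_le_mul_of_nonneg_left h hK)
    calc Real.exp (-s) * |c' u - c' u₀| ≤ Real.exp (-s) * (K * Real.exp (-(2 * s))) :=
          mul_le_mul_of_nonneg_left h1 (Real.exp_pos _).le
      _ = K * (Real.exp (-s) * Real.exp (-(2 * s))) := by ring
      _ = K * Real.exp (-(3 * s)) := by rw [← Real.exp_add]; congr 2; ring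
  have hy : |(act s u (c' u - c' u₀, (c u - u * c' u) - (c u₀ - u₀ * c' u₀))).2|
      ≤ K * Real.exp (-(3 * s)) := by
    simp only [act, LinearMap.coe_mk, AddHom.coe_mk]
    rw [abs_mul, abs_of_pos (Real.exp_pos _)]
    have e2 : c u - u * c' u - (c u₀ - u₀ * c' u₀) + u * (c' u - c' u₀)
        = c u - c u₀ - (u - u₀) * c' u₀ := by ring
    rw [e2]
    have h1 : |c u - c u₀ - (u - u₀) * c' u₀| ≤ K * (Real.exp (-(2 * s)) * Real.exp (-(2 * s))) := by
      refine m2.trans ?_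
      rw [mul_assoc]
      exact mul_le_mul_of_nonneg_left (mul_le_mul h h (abs_nonneg _) (Real.exp_pos _).le) hK
    calc Real.exp s * |c u - c u₀ - (u - u₀) * c' u₀|
        ≤ Real.exp s * (K * (Real.exp (-(2 * s)) * Real.exp (-(2 * s)))) :=
          mul_le_mul_of_nonneg_left h1 (Real.exp_pos _).le
      _ = K * (Real.exp s * (Real.exp (-(2 * s)) * Real.exp (-(2 * s)))) := by ring
      _ = K * Real.exp (-(3 * s)) := by
          rw [← Real.exp_add, ← Real.exp_add]; congr 2; ring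
  set p := act s u (c' u - c' u₀, (c u - u * c' u) - (c u₀ - u₀ * c' u₀))
  have hE : 0 ≤ K * Real.exp (-(3 * s)) := mul_nonneg hK (Real.exp_pos _).le
  have h1 : p.1 ^ 2 ≤ (K * Real.exp (-(3 * s))) ^ 2 := by
    rw [← sq_abs p.1]; exact pow_le_pow_left₀ (abs_nonneg _) hx 2
  have h2 : p.2 ^ 2 ≤ (K * Real.exp (-(3 * s))) ^ 2 := by
    rw [← sq_abs p.2]; exact pow_le_pow_left₀ (abs_nonneg _) hy 2
  rw [len, Real.sqrt_le_iff]
  refine ⟨by nlinarith, ?_⟩
  have h3 : (2 * K * Real.exp (-(3 * s))) ^ 2 = 4 * (K * Real.exp (-(3 * s))) ^ 2 := by ring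
  rw [h3]
  nlinarith [sq_nonneg (K * Real.exp (-(3 * s)))]

theorem xh_near {c c' c'' : ℝ → ℝ} {κ K a b : ℝ} (hc : Curv c c' c'' κ K a b)
    {s u : ℝ} (hu : u ∈ Icc a b) :
    nm (S.N s u) (S.xh c c' u - c u • S.e2) ≤ K * Real.exp (-s) := by
  have e : S.xh c c' u - c u • S.e2 = c' u • S.e1 + (-(u * c' u)) • S.e2 := by
    rw [xh, sub_smul, neg_smul]; abel
  rw [e, nmN_taut]
  have e2 : act s u (c' u, -(u * c' u)) = (Real.exp (-s) * c' u, 0) := by
    simp [act]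
  rw [e2, len]
  have e3 : (Real.exp (-s) * c' u, (0:ℝ)).1 ^ 2 + (Real.exp (-s) * c' u, (0:ℝ)).2 ^ 2
      = (Real.exp (-s) * c' u) ^ 2 := by simp
  rw [e3, Real.sqrt_sq_eq_abs, abs_mul, abs_of_pos (Real.exp_pos _), mul_comm]
  exact mul_le_mul_of_nonneg_right (hc.b1 u hu) (Real.exp_pos _).le

end Sys

end Pool.Agent.TFL
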