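/-
MP_e98778_an, module L, FIN: one label on a cell, final step (curvature).

PAPER PROOF.  x_u = S.xh c c' u, x0 = x_{u0}, D = dim V, ζ = zeta D r, ζ1 = zeta D 1, t = 5 ζ v.
η = 2 K e^{-3s}, η1 = e^t η; 3s >= v - 15 ζ v (from v <= 3 (s+t)), so η, η1 <= 1 for v >= V0.
Let Bd be the set in the statement, ρ' = e^{-ζ v}, ρ = e^{-ζ v/(D+1)}.
NSbad (as in ONE (B), for a basis of W shifted by x0): measure <= Cn ρ'^δ e^{-2s}.
If Bd ⊆ NSbad done.  Otherwise u1 ∈ Bd \ NSbad with label z: as in ONE (B)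
  vol (F s u0 x0) z <= 2^r ρ'^{-1} e^{ζ v} = 2^r e^{2 ζ v}.
reduce_short (LA3) at (s,u0,x0) (systole: TR.sys_F, closure (range z) ⊆ L): w_i ∈ L, spn w = W,
  nm (F s u0 x0) w_i <= 2^(r²) 2^r e^{2ζv} / ρ^(r-1) <= 2^(r²+r) e^{3 ζ v} =: M.
Some w_i has (w_i).2 <> 0: y = w_i = (m, j), j a non-zero integer (|j| >= 1), y ∈ W.
For every u ∈ Bd (label z_u with span W): len (Q (s+t) u x_u y) <= e^{-v} nm (F (s+t) u x_u) y
  <= e^{-v} 4 e^t M (TR.nmF_forth).  The first component of Q (s+t) u x_u y is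
  e^{-(s+t)} (j c'(u) - (q m).1)   (q (xh u) = (c' u, c u - u c' u)).
So |j c'(u) - (q m).1| <= 4 e^{s+2t-v} M.  c'' >= κ > 0 on [a,b]: the set of such u ∈ [a,b] has
  diameter <= 8 e^{s+2t-v} M / κ, so measure <= the same (a set is contained in the closed interval
  [sInf, sSup]).
8 e^{s+2t-v} M/κ = e^{-2s} (8/κ) 2^(r²+r) exp(3ζv + 3s + 2t - v), and
  3s + 2t - v = 3(s+t) - v - t <= ζ1 (s+t) - t <= ζ1 v/(3-ζ1) - t <= ζ v/2 - 5 ζ v, so the exponent
  is <= - (3/2) ζ v.  ζ >= zeta D 1 > 0.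
-/
import Pool.Agent.Helper45.TFL.TR
import Pool.Agent.Helper45.TFL.LA3
import Pool.Agent.Helper45.TFL.Consts

open MeasureTheory Set Module

namespace Pool.Agent.TFL

theorem measure_mono_deriv {c c' c'' : ℝ → ℝ} {κ K a b : ℝ} (hκ : 0 < κ)
    (hc : Curv c c' c'' κ K a b) (j α ε : ℝ) (hj : 1 ≤ |j|) (hε : 0 ≤ ε) :
    volume {u | u ∈ Icc a b ∧ |j * c' u - α| ≤ ε} ≤ ENNReal.ofReal (2 * ε / κ) := by
  refine (Real.volume_le_diam _).trans (Metric.ediam_le ?_)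
  -- monotonicity of `c' u - κ u`
  have mono : ∀ x ∈ Icc a b, ∀ y ∈ Icc a b, x ≤ y → κ * (y - x) ≤ c' y - c' x := by
    intro x hx y hy hxy
    have := (convex_Icc a b).mul_sub_le_image_sub_of_le_deriv (f := c') (C := κ) ?_ ?_ ?_ x hx y hy hxy
    · exact this
    · exact fun z hz => (hc.d2 z hz).continuousAt.continuousWithinAt
    · intro z hz
      rw [interior_Icc] at hz
      exact (hc.d2 z (Ioo_subset_Icc_self hz)).differentiableAt.differentiableWithinAt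
    · intro z hz
      rw [interior_Icc] at hz
      rw [(hc.d2 z (Ioo_subset_Icc_self hz)).deriv]
      exact hc.lo z (Ioo_subset_Icc_self hz)
  have mono' : ∀ x ∈ Icc a b, ∀ y ∈ Icc a b, κ * |x - y| ≤ |c' x - c' y| := by
    intro x hx y hy
    rcases le_total x y with h | h
    · have h1 := mono x hx y hy h
      rw [abs_sub_comm x y, abs_sub_comm (c' x), abs_of_nonneg (by linarith : 0 ≤ y - x)]
      exact h1.trans (le_abs_self _)
    · have h1 := mono y hy x hx h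
      rw [abs_of_nonneg (by linarith : 0 ≤ x - y)]
      exact h1.trans (le_abs_self _)
  rintro x ⟨hx, hx'⟩ y ⟨hy, hy'⟩
  rw [edist_dist, Real.dist_eq]
  apply ENNReal.ofReal_le_ofReal
  rw [le_div_iff₀ hκ]
  have h1 := mono' x hx y hy
  have h2 : |j| * |c' x - c' y| ≤ 2 * ε := by
    rw [← abs_mul]
    have : j * (c' x - c' y) = (j * c' x - α) - (j * c' y - α) := by ring
    rw [this]
    refine (abs_sub _ _).trans ?_
    linarith
  have h3 : |c' x - c' y| ≤ |j| * |c' x - c' y| := le_mul_of_one_le_left (abs_nonneg _) hj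
  linarith

namespace Sys
section FINaux
variable {V : Type} [AddCommGroup V] [Module ℝ V] (S : Sys V)

private theorem fin_nmN_neg (s u : ℝ) (x y : V) :
    nm (S.N s u) (x - y) = nm (S.N s u) (y - x) := by
  have h := nm_smul (S.N_pos s u) (-1) (x - y)
  have h2 : (-1 : ℝ) • (x - y) = y - x := by rw [neg_smul, one_smul, neg_sub]
  rw [h2] at h
  simpa using h.symm

private noncomputable def finPhi (x₀ : V) : (V × ℝ) →ₗ[ℝ] (V × ℝ) :=
  (LinearMap.fst ℝ V ℝ - (LinearMap.snd ℝ V ℝ).smulRight x₀).prod (LinearMap.snd ℝ V ℝ)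

private theorem finPhi_apply (x₀ : V) (y : V × ℝ) : finPhi x₀ y = (y.1 - y.2 • x₀, y.2) := by
  simp [finPhi]

private theorem fin_vol_phi (s u : ℝ) (x₀ : V) {r : ℕ} (z : Fin r → V × ℝ) :
    vol (S.F s u 0) (fun i => finPhi x₀ (z i)) = vol (S.F s u x₀) z := by
  unfold vol
  congr 3
  ext i j
  have h : ∀ y : V × ℝ, aff (0 : V) (y.1 - y.2 • x₀, y.2) = aff x₀ y := by
    intro y
    rw [aff_apply, aff_apply]
    simp
  show S.F s u 0 (finPhi x₀ (z i)) (finPhi x₀ (z j)) = S.F s u x₀ (z i) (z j)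
  rw [S.F_apply, S.F_apply, finPhi_apply, finPhi_apply, h, h]

private theorem fin_phi_indep (x₀ : V) {r : ℕ} {z : Fin r → V × ℝ} (hz : LinearIndependent ℝ z) :
    LinearIndependent ℝ (fun i => finPhi x₀ (z i)) := by
  have := hz.map' (finPhi x₀) (by
    rw [LinearMap.ker_eq_bot']
    intro y hy
    rw [finPhi_apply, Prod.mk_eq_zero] at hy
    obtain ⟨h1, h2⟩ := hy
    rw [h2, zero_smul, sub_zero] at h1
    exact Prod.ext h1 h2)
  exact this

/-- Volume part: for a label `z` at `(s+t,u)` outside the bad set of `zW`. -/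
private theorem fin_volB {ζ s t u u₀ v η ρ : ℝ} {x x₀ : V} {r : ℕ} {z zW : Fin r → V × ℝ}
    (hz : S.IsLabel x ζ (s + t) u v z) (hW : LinearIndependent ℝ zW) (hs : spn z = spn zW)
    (ht : 0 ≤ t) (hη : nm (S.N s u) (x - x₀) ≤ η) (hη1 : Real.exp t * η ≤ 1) (hρ : 0 < ρ)
    (hnot : ¬ vol (S.F (s + t) u 0) (fun i => finPhi x₀ (zW i)) ≤
      ρ * vol (S.F s u₀ 0) (fun i => finPhi x₀ (zW i))) :
    vol (S.F s u₀ x₀) z ≤ 2 ^ r * ρ⁻¹ * Real.exp (ζ * v) := by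
  rw [S.fin_vol_phi, S.fin_vol_phi] at hnot
  push Not at hnot
  have h1 := vol_ratio (S.F_pos (s + t) u x₀) (S.F_pos s u₀ x₀) hz.indep hW hs
  have hp1 : 0 < vol (S.F s u₀ x₀) zW := vol_pos (S.F_pos _ _ _) hW
  have hp2 : 0 < vol (S.F s u₀ x₀) z := vol_pos (S.F_pos _ _ _) hz.indep
  have h2 : ρ * vol (S.F s u₀ x₀) z ≤ vol (S.F (s + t) u x₀) z := by
    have h3 : ρ * vol (S.F s u₀ x₀) z * vol (S.F s u₀ x₀) zW ≤
        vol (S.F (s + t) u x₀) z * vol (S.F s u₀ x₀) zW := by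
      rw [h1]
      nlinarith
    exact le_of_mul_le_mul_right h3 hp1
  have hηt : nm (S.N (s + t) u) (x₀ - x) ≤ 1 := by
    rw [S.fin_nmN_neg]
    calc _ ≤ Real.exp t * nm (S.N s u) (x - x₀) := S.nmN_up s t u ht _
      _ ≤ Real.exp t * η := by gcongr
      _ ≤ 1 := hη1
  have h4 : vol (S.F (s + t) u x₀) z ≤ 2 ^ r * vol (S.F (s + t) u x) z := by
    apply vol_mono (S.F_pos _ _ _) (S.F_pos _ _ _) (by norm_num)
    intro y _
    have h5 := S.nmF_shift (s + t) u hηt y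
    have h6 := S.abs_snd_le (s + t) u x y
    linarith
  have h7 : ρ * vol (S.F s u₀ x₀) z ≤ 2 ^ r * Real.exp (ζ * v) := by
    calc _ ≤ _ := h2
      _ ≤ _ := h4
      _ ≤ _ := by gcongr; exact hz.vol_le
  calc vol (S.F s u₀ x₀) z = ρ⁻¹ * (ρ * vol (S.F s u₀ x₀) z) := by field_simp
    _ ≤ ρ⁻¹ * (2 ^ r * Real.exp (ζ * v)) := by gcongr
    _ = _ := by ring

/-- The first component of the `q`-part for the tangent class. -/
private theorem fin_first (c c' : ℝ → ℝ) (s u : ℝ) (y : V × ℝ) :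
    |y.2 * c' u - (S.q y.1).1| ≤ Real.exp s * len (S.Q s u (S.xh c c' u) y) := by
  have h1 : (S.Q s u (S.xh c c' u) y).1 = Real.exp (-s) * (y.2 * c' u - (S.q y.1).1) := by
    rw [Q_apply, aff_apply, map_sub, map_smul, xh, map_add, map_smul, map_smul, S.q1, S.q2]
    simp [act]
  have h2 : |(S.Q s u (S.xh c c' u) y).1| ≤ len (S.Q s u (S.xh c c' u) y) := by
    unfold len
    apply Real.abs_le_sqrt
    nlinarith [sq_nonneg (S.Q s u (S.xh c c' u) y).2]
  rw [h1, abs_mul, abs_of_pos (Real.exp_pos _)] at h2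
  have h3 := mul_le_mul_of_nonneg_left h2 (Real.exp_pos s).le
  rw [← mul_assoc, ← Real.exp_add, add_neg_cancel, Real.exp_zero, one_mul] at h3
  exact h3

/-- Short affine vector in the span of a label. -/
private theorem fin_short {s u₀ ρ Vol : ℝ} {x₀ : V} {r : ℕ} {z : Fin r → V × ℝ}
    (hmem : ∀ i, z i ∈ S.L) (hind : LinearIndependent ℝ z) (haff : ∃ i, (z i).2 ≠ 0)
    (hρ : 0 < ρ) (hρ1 : ρ ≤ 1) (hsys : u₀ ∉ S.SYSbad ρ s)
    (hV : vol (S.F s u₀ x₀) z ≤ Vol) :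
    ∃ y ∈ spn z, 1 ≤ |y.2| ∧ nm (S.F s u₀ x₀) y ≤ 2 ^ (r ^ 2) * Vol / ρ ^ (r - 1) := by
  have hcl : AddSubgroup.closure (Set.range z) ≤ S.L := by
    rw [AddSubgroup.closure_le]
    rintro _ ⟨i, rfl⟩
    exact hmem i
  obtain ⟨w, hw1, hw2, hw3, hw4⟩ := reduce_short (S.F_pos s u₀ x₀) hind hρ
    (fun x hx hx0 => S.sys_F hρ1 hsys x₀ (hcl hx) hx0) hV
  have hex : ∃ i, (w i).2 ≠ 0 := by
    by_contra hcon
    push Not at hcon
    obtain ⟨i, hi⟩ := haff
    apply hi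
    have h1 : z i ∈ spn w := by
      rw [hw3]; exact Submodule.subset_span ⟨i, rfl⟩
    have h2 : spn w ≤ LinearMap.ker (LinearMap.snd ℝ V ℝ) := by
      unfold spn
      rw [Submodule.span_le]
      rintro _ ⟨k, rfl⟩
      exact hcon k
    exact h2 h1
  obtain ⟨i, hi⟩ := hex
  refine ⟨w i, ?_, ?_, hw4 i⟩
  · rw [← hw3]; exact Submodule.subset_span ⟨i, rfl⟩
  · obtain ⟨-, hy2⟩ := AddSubgroup.mem_prod.mp (hcl (hw1 i))
    obtain ⟨k, hk⟩ := AddSubgroup.mem_zmultiples_iff.mp hy2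
    have hk' : (w i).2 = (k : ℝ) := by rw [← hk]; simp
    have hk0 : k ≠ 0 := by
      rintro rfl
      apply hi
      rw [hk']; simp
    rw [hk', ← Int.cast_abs]
    exact_mod_cast Int.one_le_abs hk0

end FINaux

theorem fin (V : Type) [AddCommGroup V] [Module ℝ V] [FiniteDimensional ℝ V]
    (κ K Cn δ : ℝ) (hκ : 0 < κ) (hCn : 0 < Cn) (hδ : 0 < δ) :
    ∃ V0 C1 : ℝ, 0 < V0 ∧ 0 < C1 ∧ ∀ (S : Sys V), S.NS Cn δ →
      ∀ (c c' c'' : ℝ → ℝ) (a b : ℝ), Curv c c' c'' κ K a b →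
      ∀ (r : ℕ) (s t v u₀ : ℝ) (W : Submodule ℝ (V × ℝ)),
        1 ≤ r → r ≤ finrank ℝ V + 1 → t = 5 * zeta (finrank ℝ V) r * v →
        (3 - zeta (finrank ℝ V) 1) * (s + t) ≤ v → v ≤ 3 * (s + t) → V0 ≤ v → u₀ ∈ Icc a b →
        u₀ ∉ S.SYSbad (Real.exp (-(zeta (finrank ℝ V) r * v / (finrank ℝ V + 1)))) s →
        volume {u | u ∈ Icc a b ∧ |u - u₀| ≤ Real.exp (-(2 * s)) ∧
          ∃ z : Fin r → V × ℝ, S.IsLabel (S.xh c c' u) (zeta (finrank ℝ V) r) (s + t) u v z ∧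
            spn z = W} ≤ ENNReal.ofReal (C1 * Real.exp (-(v / C1)) * Real.exp (-(2 * s))) := by
  set D := finrank ℝ V with hD
  set ζ1 := zeta D 1 with hζ1
  have hζ1p : 0 < ζ1 := zeta_pos D 1
  have hζ1s : ζ1 ≤ 1 / 10000 := zeta_small D 1 (by omega)
  set K' : ℝ := |K| + 1 with hK'
  have hK'1 : 1 ≤ K' := by rw [hK']; linarith [abs_nonneg K]
  have hKK' : K ≤ K' := by rw [hK']; linarith [le_abs_self K]
  set P : ℝ := 2 ^ ((D + 1) ^ 2 + (D + 1)) with hP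
  have hPp : 0 < P := by positivity
  set q2 : ℝ := ζ1 * δ with hq2
  have hq2p : 0 < q2 := by positivity
  set C1 : ℝ := Cn + 8 * P / κ + 1 / ζ1 + 1 / q2 with hC1
  have hC1p : 0 < C1 := by positivity
  have hz1 : ζ1 * (1 / ζ1) = 1 := by field_simp
  have hz2 : q2 * (1 / q2) = 1 := by field_simp
  have hC1a : 1 / C1 ≤ ζ1 := by
    rw [div_le_iff₀ hC1p]
    have h2 : 0 < ζ1 * (Cn + 8 * P / κ + 1 / q2) := by positivity
    have h3 : ζ1 * (Cn + 8 * P / κ + 1 / ζ1 + 1 / q2)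
      = ζ1 * (Cn + 8 * P / κ + 1 / q2) + ζ1 * (1 / ζ1) := by ring
    rw [hC1, h3, hz1]; linarith
  have hC1b : 1 / C1 ≤ q2 := by
    rw [div_le_iff₀ hC1p]
    have h2 : 0 < q2 * (Cn + 8 * P / κ + 1 / ζ1) := by positivity
    have h3 : q2 * (Cn + 8 * P / κ + 1 / ζ1 + 1 / q2)
      = q2 * (Cn + 8 * P / κ + 1 / ζ1) + q2 * (1 / q2) := by ring
    rw [hC1, h3, hz2]; linarith
  have hC1n : Cn ≤ C1 := by
    have h0 : 0 < 8 * P / κ := by positivity
    have h1 : 0 < 1 / ζ1 := by positivity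
    have h2 : 0 < 1 / q2 := by positivity
    rw [hC1]; linarith
  have hC1P : 8 * P / κ ≤ C1 := by
    have h1 : 0 < 1 / ζ1 := by positivity
    have h2 : 0 < 1 / q2 := by positivity
    rw [hC1]; linarith
  refine ⟨1 + 4 * K', C1, by positivity, hC1p, ?_⟩
  intro S hNS c c' c'' a b hcurv r s t v u₀ W hr1 hr2 ht hv1 hv3 hV0v hu₀ hsys
  have hK : 0 < K := by
    have h1 := hcurv.lo u₀ hu₀
    have h2 := hcurv.hi u₀ hu₀
    linarith
  set ζ := zeta D r with hζ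
  have hζp : 0 < ζ := zeta_pos D r
  have hζs : ζ ≤ 1 / 10000 := zeta_small D r hr2
  have hζ1ζ : ζ1 ≤ ζ := zeta_mono hr1
  have hv0 : 0 < v := by linarith
  have hζv : 0 < ζ * v := by positivity
  have ht0 : 0 ≤ t := by rw [ht]; positivity
  have hζvs : ζ * v ≤ v / 10000 := by nlinarith
  -- arithmetic
  have hst0 : 0 < s + t := by linarith
  have hst2 : s + t ≤ v / 2 := by nlinarith
  have hA : 3 * s + 2 * t - v + 3 * ζ * v ≤ -(3 / 2 * ζ * v) := by
    have h1 : 3 * (s + t) ≤ v + ζ1 * (s + t) := by linarith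
    have h2 : ζ1 * (s + t) ≤ ζ * (v / 2) := mul_le_mul hζ1ζ hst2 hst0.le hζp.le
    have h3 : 3 * s + 2 * t - v = 3 * (s + t) - v - t := by ring
    have h4 : t = 5 * (ζ * v) := by rw [ht]; ring
    rw [h3]
    nlinarith
  have h3s : t - 3 * s ≤ -(v / 2) := by
    have h4 : t = 5 * (ζ * v) := by rw [ht]; ring
    linarith
  set η : ℝ := 2 * K * Real.exp (-(3 * s)) with hη
  have hη0 : 0 ≤ η := by positivity
  have hη1 : Real.exp t * η ≤ 1 := by
    have h1 : Real.exp t * η = 2 * K * Real.exp (t - 3 * s) := by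
      rw [hη, sub_eq_add_neg, Real.exp_add]; ring
    have h3 : v / 2 + 1 ≤ Real.exp (v / 2) := Real.add_one_le_exp _
    have h4 : 2 * K ≤ v / 2 := by linarith
    rw [h1]
    calc 2 * K * Real.exp (t - 3 * s) ≤ 2 * K * Real.exp (-(v / 2)) := by gcongr
      _ ≤ Real.exp (v / 2) * Real.exp (-(v / 2)) := by
          gcongr
          linarith
      _ = 1 := by rw [← Real.exp_add]; simp
  have hη1' : η ≤ 1 := by
    have : 1 ≤ Real.exp t := Real.one_le_exp ht0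
    calc η = 1 * η := (one_mul _).symm
      _ ≤ Real.exp t * η := by gcongr
      _ ≤ 1 := hη1
  set Bd : Set ℝ := {u | u ∈ Icc a b ∧ |u - u₀| ≤ Real.exp (-(2 * s)) ∧
          ∃ z : Fin r → V × ℝ, S.IsLabel (S.xh c c' u) ζ (s + t) u v z ∧ spn z = W} with hBd
  have hxcell : ∀ u ∈ Icc a b, |u - u₀| ≤ Real.exp (-(2 * s)) →
      nm (S.N s u) (S.xh c c' u - S.xh c c' u₀) ≤ η := fun u hu h =>
    S.xh_cell hκ hcurv hu hu₀ h
  have hxcell' : ∀ u ∈ Icc a b, |u - u₀| ≤ Real.exp (-(2 * s)) →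
      nm (S.N s u₀) (S.xh c c' u₀ - S.xh c c' u) ≤ η := fun u hu h =>
    S.xh_cell hκ hcurv hu₀ hu (by rwa [abs_sub_comm])
  rcases Bd.eq_empty_or_nonempty with hemp | ⟨u1, hu1, hu1c, zW, hzW, hzWs⟩
  · rw [hemp]; simp
  set ρ : ℝ := Real.exp (-(ζ * v)) with hρ
  have hρ0 : 0 < ρ := Real.exp_pos _
  have hns := hNS r (fun i => finPhi (S.xh c c' u₀) (zW i)) (fin_phi_indep _ hzW.indep)
    s t u₀ ρ ht0 hρ0
  by_cases hsub : Bd ⊆ {u | |u - u₀| ≤ Real.exp (-(2 * s)) ∧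
      vol (S.F (s + t) u 0) (fun i => finPhi (S.xh c c' u₀) (zW i)) ≤
        ρ * vol (S.F s u₀ 0) (fun i => finPhi (S.xh c c' u₀) (zW i))}
  · calc volume Bd ≤ _ := measure_mono hsub
      _ ≤ _ := hns
      _ ≤ _ := by
        apply ENNReal.ofReal_le_ofReal
        have h1 : ρ ^ δ ≤ Real.exp (-(v / C1)) := by
          rw [hρ, ← Real.exp_mul]
          apply Real.exp_le_exp.2
          have h2 : v / C1 = 1 / C1 * v := by ring
          rw [h2]
          have h3 : 1 / C1 * v ≤ q2 * v := by gcongr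
          have h4 : q2 * v ≤ ζ * v * δ := by
            calc q2 * v = ζ1 * v * δ := by rw [hq2]; ring
              _ ≤ _ := by gcongr
          linarith
        gcongr
  rw [not_subset] at hsub
  obtain ⟨u, ⟨hu, huc, z, hz, hzs⟩, hnot⟩ := hsub
  have hnot' : ¬ vol (S.F (s + t) u 0) (fun i => finPhi (S.xh c c' u₀) (zW i)) ≤
      ρ * vol (S.F s u₀ 0) (fun i => finPhi (S.xh c c' u₀) (zW i)) :=
    fun h => hnot ⟨huc, h⟩
  have hvolz := S.fin_volB hz hzW.indep (hzs.trans hzWs.symm) ht0 (hxcell u hu huc) hη1 hρ0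
    hnot'
  have hD1 : (0 : ℝ) < (D : ℝ) + 1 := by positivity
  have hρ2 : Real.exp (-(ζ * v / ((D : ℝ) + 1))) ≤ 1 := by
    rw [Real.exp_le_one_iff]
    have : 0 < ζ * v / ((D : ℝ) + 1) := by positivity
    linarith
  obtain ⟨y, hyz, hy1, hyM⟩ := S.fin_short hz.mem hz.indep hz.aff (Real.exp_pos _) hρ2 hsys hvolz
  have hyW : y ∈ W := by rw [← hzs]; exact hyz
  -- the bound M
  have hM : nm (S.F s u₀ (S.xh c c' u₀)) y ≤ P * Real.exp (3 * ζ * v) := by
    refine hyM.trans ?_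
    have h1 : (2 : ℝ) ^ (r ^ 2) * (2 ^ r * ρ⁻¹ * Real.exp (ζ * v)) /
        Real.exp (-(ζ * v / ((D : ℝ) + 1))) ^ (r - 1) =
        2 ^ (r ^ 2 + r) * Real.exp (2 * (ζ * v) + (r - 1 : ℕ) * (ζ * v / ((D : ℝ) + 1))) := by
      rw [hρ, ← Real.exp_neg, neg_neg, ← Real.exp_nat_mul, div_eq_mul_inv, ← Real.exp_neg,
        Real.exp_add, two_mul, Real.exp_add, pow_add]
      have : -(((r - 1 : ℕ) : ℝ) * -(ζ * v / ((D : ℝ) + 1))) =
        ((r - 1 : ℕ) : ℝ) * (ζ * v / ((D : ℝ) + 1)) := by ring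
      rw [this]
      ring
    rw [h1]
    have h2 : (2 : ℝ) ^ (r ^ 2 + r) ≤ P := by
      rw [hP]
      apply pow_le_pow_right₀ (by norm_num)
      have : r ^ 2 ≤ (D + 1) ^ 2 := Nat.pow_le_pow_left hr2 2
      omega
    have h3 : ((r - 1 : ℕ) : ℝ) * (ζ * v / ((D : ℝ) + 1)) ≤ ζ * v := by
      have h4 : ((r - 1 : ℕ) : ℝ) ≤ (D : ℝ) + 1 := by
        have : r - 1 ≤ D + 1 := by omega
        exact_mod_cast this
      calc ((r - 1 : ℕ) : ℝ) * (ζ * v / ((D : ℝ) + 1)) ≤ ((D : ℝ) + 1) * (ζ * v / ((D : ℝ) + 1)) := by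
            gcongr
        _ = ζ * v := by field_simp
    have h5 : 2 * (ζ * v) + (r - 1 : ℕ) * (ζ * v / ((D : ℝ) + 1)) ≤ 3 * ζ * v := by linarith
    gcongr
  -- the inclusion
  set ε : ℝ := 4 * P * Real.exp (s + 2 * t - v + 3 * ζ * v) with hε
  have hsub2 : Bd ⊆ {w | w ∈ Icc a b ∧ |y.2 * c' w - (S.q y.1).1| ≤ ε} := by
    rintro w ⟨hw, hwc, zw, hzw, hzws⟩
    refine ⟨hw, ?_⟩
    have h1 := S.fin_first c c' (s + t) w y
    have h2 := hzw.q_le y (by rw [hzws]; exact hyW)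
    have h3 := S.nmF_forth s t w u₀ ht0 hwc hη1' (hxcell' w hw hwc) y
    calc |y.2 * c' w - (S.q y.1).1| ≤ _ := h1
      _ ≤ Real.exp (s + t) * (Real.exp (-v) * nm (S.F (s + t) w (S.xh c c' w)) y) := by gcongr
      _ ≤ Real.exp (s + t) * (Real.exp (-v) *
          (4 * Real.exp t * (P * Real.exp (3 * ζ * v)))) := by
          gcongr
          exact h3.trans (by gcongr)
      _ = 4 * P * (Real.exp (s + t) * Real.exp (-v) * Real.exp t * Real.exp (3 * ζ * v)) := by ring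
      _ = ε := by
          rw [hε, ← Real.exp_add, ← Real.exp_add, ← Real.exp_add]
          congr 2; ring
  calc volume Bd ≤ _ := measure_mono hsub2
    _ ≤ ENNReal.ofReal (2 * ε / κ) := measure_mono_deriv hκ hcurv _ _ _ hy1 (by positivity)
    _ ≤ _ := by
      apply ENNReal.ofReal_le_ofReal
      have h1 : 2 * ε / κ = 8 * P / κ * Real.exp (s + 2 * t - v + 3 * ζ * v) := by
        rw [hε]; ring
      have h2 : Real.exp (s + 2 * t - v + 3 * ζ * v) ≤
          Real.exp (-(v / C1)) * Real.exp (-(2 * s)) := by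
        rw [← Real.exp_add]
        apply Real.exp_le_exp.2
        have h3 : v / C1 = 1 / C1 * v := by ring
        have h4 : 1 / C1 * v ≤ ζ1 * v := by gcongr
        have h5 : ζ1 * v ≤ ζ * v := by gcongr
        rw [h3]
        linarith
      rw [h1, mul_assoc C1]
      gcongr

end Sys
end Pool.Agent.TFL
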