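/-
MP_e98778_an, module L, STEP0: relative outer measure of the events.
PAPER PROOF.  PW_le_one: outer measure of a subset of Icc a b is <= b - a.
PW_top: b : Fin (D+1) -> V × ℝ independent, finrank (V × ℝ) = D+1, so spn z = ⊤ contains
y = (e1, 0): Q y = - act s u (q e1), G e1 = 0, so nm (F ..) y = len (Q y) > 0, and
len (Q y) <= e^{-v} nm y < len (Q y) for v > 0: the event is empty.
-/
import Pool.Agent.Helper45.TFL.TR

open MeasureTheory Set Module

namespace Pool.Agent.TFL
namespace Sys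

/-- Relative outer measure of the event `E_r(s,v)` in `[a,b]`. -/
noncomputable def PW {V : Type} [AddCommGroup V] [Module ℝ V] (S : Sys V) (x : ℝ → V)
    (ζ : ℕ → ℝ) (a b : ℝ) (r : ℕ) (s v : ℝ) : ℝ :=
  (volume (S.Ev x ζ r s v ∩ Icc a b)).toReal / (b - a)

theorem PW_nonneg {V : Type} [AddCommGroup V] [Module ℝ V] (S : Sys V) (x : ℝ → V)
    (ζ : ℕ → ℝ) {a b : ℝ} (hab : a < b) (r : ℕ) (s v : ℝ) : 0 ≤ S.PW x ζ a b r s v :=
  div_nonneg ENNReal.toReal_nonneg (by linarith)

theorem PW_le_one {V : Type} [AddCommGroup V] [Module ℝ V] (S : Sys V) (x : ℝ → V)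
    (ζ : ℕ → ℝ) {a b : ℝ} (hab : a < b) (r : ℕ) (s v : ℝ) : S.PW x ζ a b r s v ≤ 1 := by
  have hba : 0 < b - a := by linarith
  unfold PW
  rw [div_le_one hba]
  have h1 : volume (S.Ev x ζ r s v ∩ Icc a b) ≤ ENNReal.ofReal (b - a) := by
    rw [← Real.volume_Icc]
    exact measure_mono inter_subset_right
  exact ENNReal.toReal_le_of_le_ofReal hba.le h1

/-- Top rank: no label of rank `D+1` with `v > 0`. -/
theorem PW_top {V : Type} [AddCommGroup V] [Module ℝ V] [FiniteDimensional ℝ V] (S : Sys V)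
    (x : ℝ → V) (ζ : ℕ → ℝ) (a b : ℝ) {s v : ℝ} (hv : 0 < v) :
    S.PW x ζ a b (finrank ℝ V + 1) s v = 0 := by
  have hempty : S.Ev x ζ (finrank ℝ V + 1) s v = ∅ := by
    rw [Set.eq_empty_iff_forall_notMem]
    rintro u ⟨z, hz⟩
    have hfin : Fintype.card (Fin (finrank ℝ V + 1)) = finrank ℝ (V × ℝ) := by
      rw [Fintype.card_fin, Module.finrank_prod, Module.finrank_self]
    have htop : spn z = ⊤ := by
      unfold spn
      exact hz.indep.span_eq_top_of_card_eq_finrank' hfin
    have hy : ((S.e1, 0) : V × ℝ) ∈ spn z := by rw [htop]; exact Submodule.mem_top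
    have hq := hz.q_le _ hy
    have haff : aff (x u) ((S.e1, 0) : V × ℝ) = -S.e1 := by
      rw [aff_apply]; simp
    have hQ : S.Q s u (x u) (S.e1, 0) = -(act s u (1, 0)) := by
      unfold Q
      simp only [LinearMap.comp_apply]
      rw [haff, map_neg, S.q1, map_neg]
    have hF : S.F s u (x u) (S.e1, 0) (S.e1, 0)
        = (act s u (1, 0)).1 ^ 2 + (act s u (1, 0)).2 ^ 2 := by
      unfold F
      rw [LinearMap.mk₂_apply, haff]
      unfold N
      rw [LinearMap.mk₂_apply, map_neg, S.q1, map_neg]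
      simp only [Prod.fst_neg, Prod.snd_neg, map_neg, LinearMap.neg_apply, S.Ge1]
      ring
    have hlen : len (S.Q s u (x u) (S.e1, 0)) = nm (S.F s u (x u)) (S.e1, 0) := by
      unfold len nm
      rw [hF, hQ]
      simp only [Prod.fst_neg, Prod.snd_neg, neg_sq]
    have hpos : 0 < nm (S.F s u (x u)) (S.e1, 0) := by
      unfold nm
      rw [hF]
      apply Real.sqrt_pos.mpr
      have h1 : 0 < (act s u (1, 0)).1 := by
        simp only [act, LinearMap.coe_mk, AddHom.coe_mk, mul_one]
        exact Real.exp_pos _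
      positivity
    rw [hlen] at hq
    have he : Real.exp (-v) < 1 := by
      rw [Real.exp_lt_one_iff]; linarith
    nlinarith
  unfold PW
  rw [hempty]
  simp

end Sys
end Pool.Agent.TFL
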