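/-
MP_e98778_an, module L, TWO: two different labels on one cell give a label of higher rank on the
whole cell.

PAPER PROOF.  Write x_u = S.xh c c' u, x0 = x_{u0}, ζ = zeta D r, η = 2 K e^{-3s}.
From t <= 5 ζ v and v <= 3(s+t): 3s >= v - 15 ζ v, so η <= 2K e^{-v+15 ζ v} <= 1 for v >= V0.
By TR.xh_cell (both orders) all x-differences on the cell are <= η.
IsLabel.back: vol (F s u0 x0) z, z' <= V := (4 e^t)^r e^{ζ v}, q-defect on both spans
<= α := 8 e^{2t-v} + η <= (8+2K) e^{-v+15 ζ v}.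
Lattice: with ρ = e^{-ζ v/(D+1)} <= 1, sys_F: nm >= ρ on L \ 0.
LA3.two_labels: k > r, b : Fin k -> L independent, spn z <= spn b, vol <= R^k,
R = 2^(r^2) V / ρ^(r-1), defect <= k 2^(k^2) (R/ρ)^k α.
k <= D + 1 because b is independent in V × ℝ (finrank D+1).
(b_i).2 <> 0 for some i, since spn z <= spn b and some (z_i).2 <> 0.
log R <= C + (5r+2) ζ v, log (R/ρ) <= C + (5r+3) ζ v  (r <= D+1, C = C(D)).
Spread (TR.spread) to every w in the cell:
 * volume: 4^k R^k <= exp (ζ_k v''), v'' = (1 - Cd ζ) v - C0 >= v/4 when v >= 4 C0 (Cd ζ <= 1/2):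
   ζ_k v'' >= 100 (D+2)^2 ζ v/4 = 25 (D+2)^2 ζ v  (zeta_up), and
   k (5r+2) <= (D+1)(5D+7) <= 25(D+2)^2 - (D+2)^2, the rest (D+2)^2 ζ v absorbs k(C + log 4) when
   v >= V0 (ζ >= eps^(D+2) is bounded below in terms of D).
 * defect: 8 k 2^(k^2) (R/ρ)^k α + η <= C' exp(-v + (15 + k(5r+3)) ζ v) and
   15 + (D+1)(5D+8) <= 20 (D+2)^2 = Cd, so it is <= exp(-v'') for C0 = log C'.
V0 and C0 depend only on D and K.
-/
import Pool.Agent.Helper45.TFL.TR
import Pool.Agent.Helper45.TFL.LA3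
import Pool.Agent.Helper45.TFL.Consts

open MeasureTheory Set Module

namespace Pool.Agent.TFL
namespace Sys

private theorem two_pow_le_exp (n : ℕ) : (2 : ℝ) ^ n ≤ Real.exp n := by
  have h : (2 : ℝ) ≤ Real.exp 1 := by
    have := Real.add_one_le_exp (1 : ℝ); linarith
  calc (2 : ℝ) ^ n ≤ Real.exp 1 ^ n := pow_le_pow_left₀ (by norm_num) h n
    _ = Real.exp n := by rw [← Real.exp_nat_mul, mul_one]

private theorem four_le_exp : (4 : ℝ) ≤ Real.exp 2 := by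
  have h := two_pow_le_exp 2
  norm_num at h
  exact h

private theorem R_le {r D : ℕ} (hr : r ≤ D + 1) {X t : ℝ} (hX : 0 ≤ X) (ht : t ≤ 5 * X) :
    2 ^ (r ^ 2) * ((4 * Real.exp t) ^ r * Real.exp X) /
      Real.exp (-(X / ((D : ℝ) + 1))) ^ (r - 1) ≤
    Real.exp ((((D : ℝ) + 1) ^ 2 + 2 * ((D : ℝ) + 1)) + (5 * r + 2) * X) := by
  have hM : (r : ℝ) ≤ (D : ℝ) + 1 := by exact_mod_cast hr
  have hr0 : (0 : ℝ) ≤ r := Nat.cast_nonneg r
  have h1 : (2 : ℝ) ^ (r ^ 2) ≤ Real.exp ((r : ℝ) ^ 2) := by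
    have := two_pow_le_exp (r ^ 2); push_cast at this; exact this
  have h2 : (4 * Real.exp t) ^ r ≤ Real.exp ((r : ℝ) * (2 + 5 * X)) := by
    have h : 4 * Real.exp t ≤ Real.exp (2 + 5 * X) := by
      rw [Real.exp_add]
      exact mul_le_mul four_le_exp (Real.exp_le_exp.2 ht) (Real.exp_pos _).le (Real.exp_pos _).le
    calc (4 * Real.exp t) ^ r ≤ Real.exp (2 + 5 * X) ^ r :=
          pow_le_pow_left₀ (by positivity) h r
      _ = Real.exp ((r : ℝ) * (2 + 5 * X)) := by rw [← Real.exp_nat_mul]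
  have h3 : (Real.exp (-(X / ((D : ℝ) + 1))) ^ (r - 1))⁻¹ ≤ Real.exp X := by
    rw [← Real.exp_nat_mul, ← Real.exp_neg]
    apply Real.exp_le_exp.2
    have h4 : (((r - 1 : ℕ)) : ℝ) ≤ (D : ℝ) + 1 := by
      have : r - 1 ≤ D + 1 := by omega
      exact_mod_cast this
    have hD : (0 : ℝ) < (D : ℝ) + 1 := by positivity
    have h5 : (((r - 1 : ℕ)) : ℝ) * (X / ((D : ℝ) + 1)) ≤ X := by
      rw [mul_div_assoc', div_le_iff₀ hD]
      nlinarith
    linarith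
  rw [div_eq_mul_inv]
  calc 2 ^ (r ^ 2) * ((4 * Real.exp t) ^ r * Real.exp X) *
        (Real.exp (-(X / ((D : ℝ) + 1))) ^ (r - 1))⁻¹
      ≤ Real.exp ((r : ℝ) ^ 2) * (Real.exp ((r : ℝ) * (2 + 5 * X)) * Real.exp X) * Real.exp X := by
        gcongr
    _ = Real.exp ((r : ℝ) ^ 2 + (r : ℝ) * (2 + 5 * X) + X + X) := by
        rw [← Real.exp_add, ← Real.exp_add, ← Real.exp_add]; congr 1; ring
    _ ≤ _ := by
        apply Real.exp_le_exp.2
        nlinarith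

private theorem Rr_le {r D : ℕ} (hr : r ≤ D + 1) {X t : ℝ} (hX : 0 ≤ X) (ht : t ≤ 5 * X) :
    2 ^ (r ^ 2) * ((4 * Real.exp t) ^ r * Real.exp X) /
      Real.exp (-(X / ((D : ℝ) + 1))) ^ (r - 1) / Real.exp (-(X / ((D : ℝ) + 1))) ≤
    Real.exp ((((D : ℝ) + 1) ^ 2 + 2 * ((D : ℝ) + 1)) + (5 * r + 3) * X) := by
  have h1 := R_le hr hX ht
  have hD : (0 : ℝ) < (D : ℝ) + 1 := by positivity
  have h2 : (Real.exp (-(X / ((D : ℝ) + 1))))⁻¹ ≤ Real.exp X := by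
    rw [← Real.exp_neg, neg_neg]
    apply Real.exp_le_exp.2
    rw [div_le_iff₀ hD]
    nlinarith [Nat.cast_nonneg (α := ℝ) D]
  rw [div_eq_mul_inv _ (Real.exp (-(X / ((D : ℝ) + 1))))]
  calc _ ≤ Real.exp ((((D : ℝ) + 1) ^ 2 + 2 * ((D : ℝ) + 1)) + (5 * r + 2) * X) * Real.exp X := by
        apply mul_le_mul h1 h2 (by positivity) (Real.exp_pos _).le
    _ = _ := by rw [← Real.exp_add]; congr 1; ring

/-- Constants: `C1 = M^2 + 2M`, `C3 = 3 + M + M^2 + M C1`, `M = D + 1`. -/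
private noncomputable def cC0 (D : ℕ) (K : ℝ) : ℝ :=
  3 + ((D : ℝ) + 1) + ((D : ℝ) + 1) ^ 2 + ((D : ℝ) + 1) * (((D : ℝ) + 1) ^ 2 + 2 * ((D : ℝ) + 1))
    + (8 + 4 * |K|)

private noncomputable def cV0 (D : ℕ) (K : ℝ) : ℝ :=
  4 * cC0 D K + ((D : ℝ) + 1) * (2 + (((D : ℝ) + 1) ^ 2 + 2 * ((D : ℝ) + 1))) / zeta D 1

private theorem cC0_pos (D : ℕ) (K : ℝ) : 0 < cC0 D K := by
  unfold cC0; positivity

private theorem four_cC0_le (D : ℕ) (K : ℝ) : 4 * cC0 D K ≤ cV0 D K := by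
  unfold cV0
  have : 0 ≤ ((D : ℝ) + 1) * (2 + (((D : ℝ) + 1) ^ 2 + 2 * ((D : ℝ) + 1))) / zeta D 1 :=
    div_nonneg (by positivity) (zeta_pos D 1).le
  linarith

private theorem num_vol {D r k : ℕ} (hr1 : 1 ≤ r) (hrk : r < k) (hk : k ≤ D + 1) {K v R : ℝ}
    (hv : cV0 D K ≤ v) (hR0 : 0 ≤ R)
    (hR : R ≤ Real.exp ((((D : ℝ) + 1) ^ 2 + 2 * ((D : ℝ) + 1)) + (5 * r + 2) * (zeta D r * v))) :
    4 ^ k * R ^ k ≤ Real.exp (zeta D k * ((1 - Cd D * zeta D r) * v - cC0 D K)) := by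
  have hC0 := cC0_pos D K
  have h4 := four_cC0_le D K
  have hv0 : 0 < v := by linarith
  have hr : r ≤ D + 1 := by omega
  set C1 : ℝ := ((D : ℝ) + 1) ^ 2 + 2 * ((D : ℝ) + 1) with hC1
  have hC1p : 0 ≤ C1 := by positivity
  set X := zeta D r * v with hXd
  have hX : 0 ≤ X := mul_nonneg (zeta_pos D r).le hv0.le
  have hD0 : (0 : ℝ) ≤ D := Nat.cast_nonneg D
  have hkM : (k : ℝ) ≤ (D : ℝ) + 1 := by exact_mod_cast hk
  have hrM : (r : ℝ) ≤ (D : ℝ) + 1 := by exact_mod_cast hr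
  have hk0 : (0 : ℝ) ≤ k := Nat.cast_nonneg k
  have hr0 : (0 : ℝ) ≤ r := Nat.cast_nonneg r
  have e1 : 4 ^ k * R ^ k ≤ Real.exp ((k : ℝ) * (2 + (C1 + (5 * r + 2) * X))) := by
    rw [← mul_pow]
    have h : 4 * R ≤ Real.exp (2 + (C1 + (5 * r + 2) * X)) := by
      rw [Real.exp_add 2]
      exact mul_le_mul four_le_exp hR hR0 (Real.exp_pos _).le
    calc (4 * R) ^ k ≤ Real.exp (2 + (C1 + (5 * r + 2) * X)) ^ k :=
          pow_le_pow_left₀ (by positivity) h k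
      _ = _ := by rw [← Real.exp_nat_mul]
  refine e1.trans (Real.exp_le_exp.2 ?_)
  -- lower bound of the right side
  have hz1 : zeta D 1 * v ≤ X := mul_le_mul_of_nonneg_right (zeta_mono hr1) hv0.le
  have hz2 : ((D : ℝ) + 1) * (2 + C1) ≤ zeta D 1 * v := by
    have : ((D : ℝ) + 1) * (2 + C1) / zeta D 1 ≤ v := by
      have : cV0 D K = 4 * cC0 D K + ((D : ℝ) + 1) * (2 + C1) / zeta D 1 := rfl
      linarith
    rw [div_le_iff₀ (zeta_pos D 1)] at this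
    linarith
  have hup := zeta_up hrk hk
  have hcd := Cd_zeta D r hr
  have hv'' : v / 4 ≤ (1 - Cd D * zeta D r) * v - cC0 D K := by
    have : Cd D * zeta D r * v ≤ 1 / 2 * v := mul_le_mul_of_nonneg_right hcd hv0.le
    nlinarith
  have hlow : 25 * ((D : ℝ) + 2) ^ 2 * X ≤ zeta D k * ((1 - Cd D * zeta D r) * v - cC0 D K) := by
    calc 25 * ((D : ℝ) + 2) ^ 2 * X = (100 * ((D : ℝ) + 2) ^ 2 * zeta D r) * (v / 4) := by
          rw [hXd]; ring
      _ ≤ zeta D k * (v / 4) := mul_le_mul_of_nonneg_right hup (by linarith)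
      _ ≤ _ := mul_le_mul_of_nonneg_left hv'' (zeta_pos D k).le
  refine le_trans ?_ hlow
  have h1 : (k : ℝ) * (2 + (C1 + (5 * r + 2) * X)) ≤
      ((D : ℝ) + 1) * (2 + C1) + ((D : ℝ) + 1) * (5 * ((D : ℝ) + 1) + 2) * X := by
    have a1 : (k : ℝ) * (2 + C1) ≤ ((D : ℝ) + 1) * (2 + C1) :=
      mul_le_mul_of_nonneg_right hkM (by linarith)
    have a2 : (k : ℝ) * (5 * r + 2) ≤ ((D : ℝ) + 1) * (5 * ((D : ℝ) + 1) + 2) :=
      mul_le_mul hkM (by linarith) (by positivity) (by positivity)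
    have a3 := mul_le_mul_of_nonneg_right a2 hX
    nlinarith
  have h2 : ((D : ℝ) + 1) * (5 * ((D : ℝ) + 1) + 2) + 1 ≤ 25 * ((D : ℝ) + 2) ^ 2 := by nlinarith
  have h3 := mul_le_mul_of_nonneg_right h2 hX
  nlinarith

private theorem num_def {D r k : ℕ} (hr : r ≤ D + 1) (hk : k ≤ D + 1) {K v Q α η : ℝ}
    (hv : 0 < v) (hQ0 : 0 ≤ Q)
    (hQ : Q ≤ Real.exp ((((D : ℝ) + 1) ^ 2 + 2 * ((D : ℝ) + 1)) + (5 * r + 3) * (zeta D r * v)))
    (hα0 : 0 ≤ α) (hα : α ≤ (8 + 2 * |K|) * Real.exp (-v + 15 * (zeta D r * v)))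
    (hη : η ≤ 2 * |K| * Real.exp (-v + 15 * (zeta D r * v))) :
    8 * (k * 2 ^ (k ^ 2) * Q ^ k * α) + η ≤
      Real.exp (-((1 - Cd D * zeta D r) * v - cC0 D K)) := by
  set C1 : ℝ := ((D : ℝ) + 1) ^ 2 + 2 * ((D : ℝ) + 1) with hC1
  have hC1p : 0 ≤ C1 := by positivity
  set X := zeta D r * v with hXd
  have hX : 0 ≤ X := mul_nonneg (zeta_pos D r).le hv.le
  have hD0 : (0 : ℝ) ≤ D := Nat.cast_nonneg D
  have hkM : (k : ℝ) ≤ (D : ℝ) + 1 := by exact_mod_cast hk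
  have hrM : (r : ℝ) ≤ (D : ℝ) + 1 := by exact_mod_cast hr
  have hk0 : (0 : ℝ) ≤ k := Nat.cast_nonneg k
  have hr0 : (0 : ℝ) ≤ r := Nat.cast_nonneg r
  set M : ℝ := (D : ℝ) + 1 with hM
  have hM1 : 1 ≤ M := by linarith
  have e1 : (8 : ℝ) ≤ Real.exp 3 := by
    have := two_pow_le_exp 3; norm_num at this; exact this
  have e2 : (k : ℝ) ≤ Real.exp M := by
    have := Real.add_one_le_exp M; linarith
  have e3 : (2 : ℝ) ^ (k ^ 2) ≤ Real.exp (M ^ 2) := by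
    have := two_pow_le_exp (k ^ 2)
    push_cast at this
    exact this.trans (Real.exp_le_exp.2 (by nlinarith))
  have e4 : Q ^ k ≤ Real.exp (M * C1 + M * (5 * M + 3) * X) := by
    calc Q ^ k ≤ Real.exp (C1 + (5 * r + 3) * X) ^ k := pow_le_pow_left₀ hQ0 hQ k
      _ = Real.exp ((k : ℝ) * (C1 + (5 * r + 3) * X)) := by rw [← Real.exp_nat_mul]
      _ ≤ _ := by
        apply Real.exp_le_exp.2
        have a1 : (k : ℝ) * C1 ≤ M * C1 := mul_le_mul_of_nonneg_right hkM hC1p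
        have a2 : (k : ℝ) * (5 * r + 3) ≤ M * (5 * M + 3) :=
          mul_le_mul hkM (by linarith) (by positivity) (by positivity)
        have a3 := mul_le_mul_of_nonneg_right a2 hX
        nlinarith
  have e5 : 8 * (k * 2 ^ (k ^ 2) * Q ^ k * α) ≤
      Real.exp 3 * (Real.exp M * Real.exp (M ^ 2) * Real.exp (M * C1 + M * (5 * M + 3) * X) *
        ((8 + 2 * |K|) * Real.exp (-v + 15 * X))) := by
    gcongr
  set C3 : ℝ := 3 + M + M ^ 2 + M * C1 with hC3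
  have hC3p : 0 ≤ C3 := by positivity
  have hcd : 15 + M * (5 * M + 3) ≤ Cd D := by
    unfold Cd
    rw [hM]; nlinarith
  have hcdX := mul_le_mul_of_nonneg_right hcd hX
  have e6 : 8 * (k * 2 ^ (k ^ 2) * Q ^ k * α) ≤
      (8 + 2 * |K|) * (Real.exp C3 * Real.exp (-v + Cd D * X)) := by
    refine e5.trans ?_
    have : Real.exp 3 * (Real.exp M * Real.exp (M ^ 2) * Real.exp (M * C1 + M * (5 * M + 3) * X) *
        ((8 + 2 * |K|) * Real.exp (-v + 15 * X))) =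
        (8 + 2 * |K|) * Real.exp (3 + M + M ^ 2 + (M * C1 + M * (5 * M + 3) * X) +
          (-v + 15 * X)) := by
      rw [Real.exp_add (3 + M + M ^ 2 + (M * C1 + M * (5 * M + 3) * X)),
        Real.exp_add (3 + M + M ^ 2), Real.exp_add (3 + M), Real.exp_add 3]
      ring
    rw [this, ← Real.exp_add]
    apply mul_le_mul_of_nonneg_left _ (by positivity)
    apply Real.exp_le_exp.2
    rw [hC3]
    nlinarith
  have e7 : η ≤ 2 * |K| * (Real.exp C3 * Real.exp (-v + Cd D * X)) := by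
    refine hη.trans ?_
    apply mul_le_mul_of_nonneg_left _ (by positivity)
    rw [← Real.exp_add]
    apply Real.exp_le_exp.2
    have : 0 ≤ M * (5 * M + 3) * X := by positivity
    nlinarith
  have e8 : 8 + 4 * |K| ≤ Real.exp (8 + 4 * |K|) := by
    have := Real.add_one_le_exp (8 + 4 * |K|); linarith
  have e9 : Real.exp (-((1 - Cd D * zeta D r) * v - cC0 D K)) =
      Real.exp (8 + 4 * |K|) * (Real.exp C3 * Real.exp (-v + Cd D * X)) := by
    rw [← Real.exp_add, ← Real.exp_add]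
    congr 1
    have : cC0 D K = C3 + (8 + 4 * |K|) := rfl
    rw [this, hXd]; ring
  rw [e9]
  have e10 := mul_le_mul_of_nonneg_right e8
    (show 0 ≤ Real.exp C3 * Real.exp (-v + Cd D * X) by positivity)
  nlinarith

theorem two (V : Type) [AddCommGroup V] [Module ℝ V] [FiniteDimensional ℝ V] (K : ℝ) :
    ∃ C0 V0 : ℝ, 0 < C0 ∧ 4 * C0 ≤ V0 ∧ ∀ (S : Sys V) (c c' c'' : ℝ → ℝ) (κ a b : ℝ), 0 < κ →
      Curv c c' c'' κ K a b →
      ∀ (r : ℕ) (s t v u₀ u u' : ℝ) (z z' : Fin r → V × ℝ),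
        1 ≤ r → r ≤ finrank ℝ V + 1 → 0 ≤ t → t ≤ 5 * zeta (finrank ℝ V) r * v →
        v ≤ 3 * (s + t) → V0 ≤ v →
        u₀ ∈ Icc a b → u ∈ Icc a b → u' ∈ Icc a b →
        |u - u₀| ≤ Real.exp (-(2 * s)) → |u' - u₀| ≤ Real.exp (-(2 * s)) →
        u₀ ∉ S.SYSbad (Real.exp (-(zeta (finrank ℝ V) r * v / (finrank ℝ V + 1)))) s →
        S.IsLabel (S.xh c c' u) (zeta (finrank ℝ V) r) (s + t) u v z →
        S.IsLabel (S.xh c c' u') (zeta (finrank ℝ V) r) (s + t) u' v z' →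
        spn z ≠ spn z' →
        ∃ k, r < k ∧ k ≤ finrank ℝ V + 1 ∧
          ∀ w ∈ Icc a b, |w - u₀| ≤ Real.exp (-(2 * s)) →
            w ∈ S.Ev (S.xh c c') (zeta (finrank ℝ V)) k s
              ((1 - Cd (finrank ℝ V) * zeta (finrank ℝ V) r) * v - C0) := by
  set D := finrank ℝ V with hD
  refine ⟨cC0 D K, cV0 D K, cC0_pos D K, four_cC0_le D K, ?_⟩
  intro S c c' c'' κ a b hκ hc r s t v u₀ u u' z z' hr1 hr ht0 ht hvst hv hu₀ hu hu' hd hd' hsys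
    hz hz' hne
  have hC0 := cC0_pos D K
  have h4 := four_cC0_le D K
  have hv0 : 0 < v := by linarith
  have hzp := zeta_pos D r
  have hzs := zeta_small D r hr
  set X := zeta D r * v with hXd
  have hX : 0 ≤ X := mul_nonneg hzp.le hv0.le
  have hXs : X ≤ 1 / 10000 * v := mul_le_mul_of_nonneg_right hzs hv0.le
  have ht5 : t ≤ 5 * X := by rw [hXd]; linarith
  have hK0 : 0 < K := lt_of_lt_of_le hκ ((hc.lo u₀ hu₀).trans (hc.hi u₀ hu₀))
  have hKa : |K| = K := abs_of_pos hK0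
  -- the shift
  have hη0 : 0 ≤ 2 * K * Real.exp (-(3 * s)) := by positivity
  have hηX : 2 * K * Real.exp (-(3 * s)) ≤ 2 * K * Real.exp (-v + 15 * X) := by
    apply mul_le_mul_of_nonneg_left _ (by positivity)
    apply Real.exp_le_exp.2; linarith
  have hK1 : 2 * K ≤ Real.exp (2 * K) := by
    have := Real.add_one_le_exp (2 * K); linarith
  have hv4K : 16 * K ≤ v := by
    have h1 : 4 * |K| ≤ cC0 D K := by unfold cC0; rw [hKa]; nlinarith [Nat.cast_nonneg (α := ℝ) D, sq_nonneg ((D : ℝ) + 1), show (0:ℝ) ≤ ((D : ℝ) + 1) * (((D : ℝ) + 1) ^ 2 + 2 * ((D : ℝ) + 1)) by positivity]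
    rw [hKa] at h1; linarith
  have hη1 : 2 * K * Real.exp (-(3 * s)) ≤ 1 := by
    calc 2 * K * Real.exp (-(3 * s)) ≤ 2 * K * Real.exp (-v + 15 * X) := hηX
      _ ≤ Real.exp (2 * K) * Real.exp (-v + 15 * X) :=
          mul_le_mul_of_nonneg_right hK1 (Real.exp_pos _).le
      _ = Real.exp (2 * K + (-v + 15 * X)) := by rw [← Real.exp_add]
      _ ≤ Real.exp 0 := by apply Real.exp_le_exp.2; linarith
      _ = 1 := Real.exp_zero
  have hcell : ∀ w ∈ Icc a b, |w - u₀| ≤ Real.exp (-(2 * s)) →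
      nm (S.N s u₀) (S.xh c c' u₀ - S.xh c c' w) ≤ 2 * K * Real.exp (-(3 * s)) := by
    intro w hw hwu
    exact S.xh_cell hκ hc hu₀ hw (by rwa [abs_sub_comm])
  obtain ⟨hVz, hqz⟩ := hz.back ht0 hd hη1 (hcell u hu hd)
  obtain ⟨hVz', hqz'⟩ := hz'.back ht0 hd' hη1 (hcell u' hu' hd')
  -- the lattice
  have hD1 : (0 : ℝ) < (D : ℝ) + 1 := by positivity
  have hρ1 : Real.exp (-(X / ((D : ℝ) + 1))) ≤ 1 := by
    apply Real.exp_le_one_iff.2
    have : 0 ≤ X / ((D : ℝ) + 1) := by positivity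
    linarith
  have hα0 : 0 ≤ 8 * Real.exp (2 * t - v) + 2 * K * Real.exp (-(3 * s)) := by positivity
  obtain ⟨k, hrk, bb, hbL, hbi, hspn, hvolb, hqb⟩ :=
    two_labels (S.F_pos s u₀ (S.xh c c' u₀)) (S.Q s u₀ (S.xh c c' u₀)) S.L
      (ρ := Real.exp (-(X / ((D : ℝ) + 1)))) (V := (4 * Real.exp t) ^ r * Real.exp X)
      (Real.exp_pos _) hα0
      (fun x hx hx0 => S.sys_F hρ1 hsys (S.xh c c' u₀) hx hx0)
      hz.mem hz'.mem hz.indep hz'.indep hne hVz hVz' hqz hqz'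
  have hk : k ≤ D + 1 := by
    have h := hbi.fintype_card_le_finrank
    rw [Fintype.card_fin, Module.finrank_prod, Module.finrank_self] at h
    exact h
  have haff : ∃ i, (bb i).2 ≠ 0 := by
    by_contra hcon
    push Not at hcon
    obtain ⟨i, hi⟩ := hz.aff
    apply hi
    have hle : spn bb ≤ LinearMap.ker (LinearMap.snd ℝ V ℝ) := by
      unfold spn
      rw [Submodule.span_le]
      rintro _ ⟨j, rfl⟩
      simpa using hcon j
    have hzi : z i ∈ spn z := Submodule.subset_span ⟨i, rfl⟩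
    simpa using hle (hspn hzi)
  have hR0 : 0 ≤ 2 ^ (r ^ 2) * ((4 * Real.exp t) ^ r * Real.exp X) /
      Real.exp (-(X / ((D : ℝ) + 1))) ^ (r - 1) := by positivity
  have hR := R_le hr hX ht5
  have hQ := Rr_le hr hX ht5
  refine ⟨k, hrk, hk, ?_⟩
  intro w hw hwu
  refine ⟨bb, ?_⟩
  refine S.spread (x₀ := S.xh c c' u₀) (η := 2 * K * Real.exp (-(3 * s)))
    (W := (2 ^ (r ^ 2) * ((4 * Real.exp t) ^ r * Real.exp X) /
      Real.exp (-(X / ((D : ℝ) + 1))) ^ (r - 1)) ^ k)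
    hbL hbi haff hvolb ?_ hqb hwu hη0 hη1 (S.xh_cell hκ hc hw hu₀ hwu) ?_ ?_
  · positivity
  · exact num_vol hr1 hrk hk hv hR0 hR
  · refine num_def hr hk hv0 (by positivity) hQ hα0 ?_ ?_
    · rw [hKa]
      have : Real.exp (2 * t - v) ≤ Real.exp (-v + 15 * X) := by
        apply Real.exp_le_exp.2; linarith
      nlinarith
    · rw [hKa]; exact hηX

end Sys
end Pool.Agent.TFL
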