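/-
MP_e98778_an, module L, FINAL: the second inequality of the chain (see the end of this header).

PW S c c' a b r s v = relative outer measure of E_r(s,v) in [a,b].

PAPER PROOF (STEP).  ℓ = e^{-2s}, t = c3 v, ρ = exp(-ζ_r v/(D+1)), E = Ev r (s+t) v \ GRbad Cg c₂ s t,
X = SYSbad (2ρ) s ∪ Ev r s v' ∪ ⋃_{k ∈ (r, D+1]} Ev k s v'',
v' = (1+c₂c3) v - C0, v'' = (1 - Cd ζ_r) v - C0  (C0 = max of the constants of ONE and TWO; a label
for a larger v' is a label for a smaller one ONLY if the volume bound still holds, therefore use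
TWO and ONE with their own C0 (C0a, C0b) and put them separately in the statement: see below).
For a cell Icc (u0-ℓ) (u0+ℓ) ⊆ Icc a b:
 * u0 ∈ SYSbad ρ s: the whole cell is in SYSbad (2ρ) s ⊆ X (TR.SYSbad_cell);
 * otherwise, if two points u, u' of E ∩ cell carry labels with different spans: TWO: the cell is in
   Ev k s v'' ⊆ X (hypothesis t <= 5 ζ_r v: c3_le; v <= 3(s+t));
 * otherwise all labels on E ∩ cell have the same span W: ONE: the cell is in Ev r s v' ⊆ X or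
   volume (E ∩ cell) <= C1 e^{-v/C1} ℓ.
CELL: volume (E ∩ [a,b]) <= volume (X ∩ [a,b]) + C1 e^{-v/C1}(b-a) + 2ℓ.
Ev ⊆ E ∪ GRbad; (GR): volume (GRbad ∩ [a,b]) <= Cg e^{-cg t}(b-a) for s >= s0;
(SYS): volume (SYSbad (2ρ) s ∩ [a,b]) <= Cs (2ρ)^β (b-a) for s >= s0';
2ℓ = 2 e^{-2s} <= 2 e^{-s} (b-a) when e^{-s} <= b-a, and s >= v/4 (v <= 3(s+t), t <= v/1000).
Sum the errors: <= C1' e^{-v/C1'} (b-a).
FINAL: the same with t = 5 ζ_r v, E = Ev r (s+t) v, FIN instead of ONE (no GRbad, no v' term);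
s >= v/3 - t >= v/4.
-/
import Pool.Agent.Helper45.TFL.STEP0
import Pool.Agent.Helper45.TFL.TWO
import Pool.Agent.Helper45.TFL.FIN
import Pool.Agent.Helper45.TFL.CELL

open MeasureTheory Set Module

namespace Pool.Agent.TFL
namespace Sys

theorem final (V : Type) [AddCommGroup V] [Module ℝ V] [FiniteDimensional ℝ V] (S : Sys V)
    (κ K Cn δ Cs β : ℝ) (hκ : 0 < κ) (hCn : 0 < Cn) (hδ : 0 < δ) (hCs : 0 < Cs) (hβ : 0 < β)
    (hNS : S.NS Cn δ) (hSYS : S.SYS Cs β) :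
    ∃ C0 V0 : ℝ, 0 < C0 ∧ 4 * C0 ≤ V0 ∧ ∀ (c c' c'' : ℝ → ℝ) (a b : ℝ), a < b →
      Curv c c' c'' κ K a b → ∃ s₁ : ℝ, 1 ≤ s₁ ∧ ∀ (r : ℕ) (s v : ℝ),
        1 ≤ r → r ≤ finrank ℝ V + 1 → s₁ ≤ s → V0 ≤ v →
        (3 - zeta (finrank ℝ V) 1) * (s + 5 * zeta (finrank ℝ V) r * v) ≤ v →
        v ≤ 3 * (s + 5 * zeta (finrank ℝ V) r * v) →
        ∃ C0b : ℝ, 0 ≤ C0b ∧ C0b ≤ C0 ∧
        S.PW (S.xh c c') (zeta (finrank ℝ V)) a b r (s + 5 * zeta (finrank ℝ V) r * v) v ≤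
          ∑ k ∈ Finset.Ioc r (finrank ℝ V + 1), S.PW (S.xh c c') (zeta (finrank ℝ V)) a b k s
              ((1 - Cd (finrank ℝ V) * zeta (finrank ℝ V) r) * v - C0b)
          + C0 * Real.exp (-(v / C0)) := by
  obtain ⟨V0F, C1, hV0F, hC1, hFIN⟩ := fin V κ K Cn δ hκ hCn hδ
  obtain ⟨C0T, V0T, hC0T, hV0T, hTWO⟩ := two V K
  set D : ℕ := finrank ℝ V with hD
  have hD1 : (0 : ℝ) < (D : ℝ) + 1 := by positivity
  set α : ℝ := β * (zeta D 1 / (D + 1)) with hα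
  have hα0 : 0 < α := mul_pos hβ (div_pos (zeta_pos D 1) hD1)
  have h2β : (0 : ℝ) < 2 ^ β := Real.rpow_pos_of_pos (by norm_num) _
  set C0 : ℝ := max C0T (max (1 / α) (max C1 (max 4 (Cs * 2 ^ β + C1 + 2)))) with hC0def
  have hC0_T : C0T ≤ C0 := le_max_left _ _
  have hC0_α : 1 / α ≤ C0 := (le_max_left _ _).trans (le_max_right _ _)
  have hC0_1 : C1 ≤ C0 :=
    ((le_max_left _ _).trans (le_max_right _ _)).trans (le_max_right _ _)
  have hC0_4 : 4 ≤ C0 :=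
    (((le_max_left _ _).trans (le_max_right _ _)).trans (le_max_right _ _)).trans
      (le_max_right _ _)
  have hC0_s : Cs * 2 ^ β + C1 + 2 ≤ C0 :=
    (((le_max_right _ _).trans (le_max_right _ _)).trans (le_max_right _ _)).trans
      (le_max_right _ _)
  have hC0pos : 0 < C0 := by linarith
  set V0 : ℝ := max (4 * C0) (max V0T V0F) with hV0def
  have hV0_4 : 4 * C0 ≤ V0 := le_max_left _ _
  have hV0_T : V0T ≤ V0 := (le_max_left _ _).trans (le_max_right _ _)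
  have hV0_F : V0F ≤ V0 := (le_max_right _ _).trans (le_max_right _ _)
  refine ⟨C0, V0, hC0pos, hV0_4, ?_⟩
  intro c c' c'' a b hab hc
  have hba : 0 < b - a := by linarith
  obtain ⟨s₀, hs₀⟩ := hSYS a b hab
  refine ⟨max 1 (max s₀ (-Real.log (b - a))), le_max_left _ _, ?_⟩
  intro r s v hr hrD hs hv hv1 hv2
  have hs1 : 1 ≤ s := (le_max_left _ _).trans hs
  have hss₀ : s₀ ≤ s := ((le_max_left _ _).trans (le_max_right _ _)).trans hs
  have hslog : -Real.log (b - a) ≤ s := ((le_max_right _ _).trans (le_max_right _ _)).trans hs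
  have hvpos : 0 < v := by linarith
  refine ⟨C0T, hC0T.le, hC0_T, ?_⟩
  set ζ : ℝ := zeta D r with hζ
  have hζ0 : 0 < ζ := zeta_pos D r
  have hζ1 : ζ ≤ 1 / 10000 := zeta_small D r hrD
  set t : ℝ := 5 * ζ * v with ht
  have ht0 : 0 ≤ t := by positivity
  set ρ : ℝ := Real.exp (-(ζ * v / (D + 1))) with hρ
  set ℓ : ℝ := Real.exp (-(2 * s)) with hℓ
  have hℓ0 : 0 < ℓ := Real.exp_pos _
  set x : ℝ → V := S.xh c c' with hx
  set v'' : ℝ := (1 - Cd D * ζ) * v - C0T with hv''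
  set X : Set ℝ := S.SYSbad (2 * ρ) s ∪ ⋃ k ∈ Finset.Ioc r (D + 1), S.Ev x (zeta D) k s v''
    with hX
  set ε : ℝ := C1 * Real.exp (-(v / C1)) with hε
  have hε0 : 0 ≤ ε := by positivity
  -- cells
  have hcell : ∀ u₀, a ≤ u₀ - ℓ → u₀ + ℓ ≤ b → Icc (u₀ - ℓ) (u₀ + ℓ) ⊆ X ∨
      volume (S.Ev x (zeta D) r (s + t) v ∩ Icc (u₀ - ℓ) (u₀ + ℓ)) ≤
        ENNReal.ofReal (ε * ℓ) := by
    intro u₀ hu1 hu2
    have hu₀ : u₀ ∈ Icc a b := ⟨by linarith, by linarith⟩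
    have habs : ∀ u ∈ Icc (u₀ - ℓ) (u₀ + ℓ), |u - u₀| ≤ Real.exp (-(2 * s)) := by
      intro u hu
      rw [abs_le]
      exact ⟨by linarith [hu.1], by linarith [hu.2]⟩
    have hIcc : ∀ u ∈ Icc (u₀ - ℓ) (u₀ + ℓ), u ∈ Icc a b := fun u hu =>
      ⟨by linarith [hu.1], by linarith [hu.2]⟩
    by_cases hbad : u₀ ∈ S.SYSbad ρ s
    · left
      intro u hu
      exact Or.inl (S.SYSbad_cell (habs u hu) hbad)
    by_cases htwo : ∃ u ∈ Icc (u₀ - ℓ) (u₀ + ℓ), ∃ u' ∈ Icc (u₀ - ℓ) (u₀ + ℓ),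
        ∃ z z' : Fin r → V × ℝ, S.IsLabel (x u) ζ (s + t) u v z ∧
          S.IsLabel (x u') ζ (s + t) u' v z' ∧ spn z ≠ spn z'
    · left
      obtain ⟨u, hu, u', hu', z, z', hz, hz', hne⟩ := htwo
      obtain ⟨k, hk1, hk2, hk⟩ := hTWO S c c' c'' κ a b hκ hc r s t v u₀ u u' z z' hr hrD ht0
        le_rfl hv2 (hV0_T.trans hv) hu₀ (hIcc u hu) (hIcc u' hu') (habs u hu) (habs u' hu')
        hbad hz hz' hne
      intro w hw
      refine Or.inr ?_
      rw [Set.mem_iUnion₂]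
      exact ⟨k, Finset.mem_Ioc.2 ⟨hk1, hk2⟩, hk w (hIcc w hw) (habs w hw)⟩
    · right
      by_cases hemp : (S.Ev x (zeta D) r (s + t) v ∩ Icc (u₀ - ℓ) (u₀ + ℓ)) = ∅
      · rw [hemp]; simp
      obtain ⟨u₁, ⟨z₁, hz₁⟩, hu₁⟩ := Set.nonempty_iff_ne_empty.2 hemp
      have hsub : (S.Ev x (zeta D) r (s + t) v ∩ Icc (u₀ - ℓ) (u₀ + ℓ)) ⊆
          {u | u ∈ Icc a b ∧ |u - u₀| ≤ Real.exp (-(2 * s)) ∧
            ∃ z : Fin r → V × ℝ, S.IsLabel (S.xh c c' u) (zeta D r) (s + t) u v z ∧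
              spn z = spn z₁} := by
        rintro u ⟨⟨z, hz⟩, hu⟩
        refine ⟨hIcc u hu, habs u hu, z, hz, ?_⟩
        by_contra hne
        exact htwo ⟨u, hu, u₁, hu₁, z, z₁, hz, hz₁, hne⟩
      refine (measure_mono hsub).trans ?_
      exact hFIN S hNS c c' c'' a b hc r s t v u₀ (spn z₁) hr hrD rfl hv1 hv2
        (hV0_F.trans hv) hu₀ hbad
  have hsum := cell_sum a b ℓ ε hab hℓ0 hε0 (S.Ev x (zeta D) r (s + t) v) X hcell
  -- the part of `X`
  have hXle : volume (X ∩ Icc a b) ≤ ENNReal.ofReal (Cs * (2 * ρ) ^ β * (b - a)) +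
      ∑ k ∈ Finset.Ioc r (D + 1), volume (S.Ev x (zeta D) k s v'' ∩ Icc a b) := by
    have h1 : X ∩ Icc a b = (S.SYSbad (2 * ρ) s ∩ Icc a b) ∪
        ⋃ k ∈ Finset.Ioc r (D + 1), (S.Ev x (zeta D) k s v'' ∩ Icc a b) := by
      rw [hX, Set.union_inter_distrib_right, Set.iUnion₂_inter]
    rw [h1]
    refine (measure_union_le _ _).trans (add_le_add ?_ ?_)
    · exact hs₀ s (2 * ρ) hss₀ (by positivity)
    · exact measure_biUnion_finset_le _ _
  have hfinite : ∀ A : Set ℝ, volume (A ∩ Icc a b) ≠ ⊤ := by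
    intro A
    refine ne_top_of_le_ne_top ?_ (measure_mono (Set.inter_subset_right (s := A)))
    rw [Real.volume_Icc]
    exact ENNReal.ofReal_ne_top
  have hreal : (volume (S.Ev x (zeta D) r (s + t) v ∩ Icc a b)).toReal ≤
      Cs * (2 * ρ) ^ β * (b - a) +
      ∑ k ∈ Finset.Ioc r (D + 1), (volume (S.Ev x (zeta D) k s v'' ∩ Icc a b)).toReal +
      ε * (b - a) + 2 * ℓ := by
    have h2 : volume (S.Ev x (zeta D) r (s + t) v ∩ Icc a b) ≤
        ENNReal.ofReal (Cs * (2 * ρ) ^ β * (b - a)) +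
        ∑ k ∈ Finset.Ioc r (D + 1), volume (S.Ev x (zeta D) k s v'' ∩ Icc a b) +
        ENNReal.ofReal (ε * (b - a)) + ENNReal.ofReal (2 * ℓ) := by
      refine hsum.trans ?_
      gcongr
    have hne : ENNReal.ofReal (Cs * (2 * ρ) ^ β * (b - a)) +
        ∑ k ∈ Finset.Ioc r (D + 1), volume (S.Ev x (zeta D) k s v'' ∩ Icc a b) +
        ENNReal.ofReal (ε * (b - a)) + ENNReal.ofReal (2 * ℓ) ≠ ⊤ := by
      have h3 : ∑ k ∈ Finset.Ioc r (D + 1), volume (S.Ev x (zeta D) k s v'' ∩ Icc a b) ≠ ⊤ := by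
        rw [ENNReal.sum_ne_top]
        intro k _
        exact hfinite _
      exact ENNReal.add_ne_top.2 ⟨ENNReal.add_ne_top.2 ⟨ENNReal.add_ne_top.2
        ⟨ENNReal.ofReal_ne_top, h3⟩, ENNReal.ofReal_ne_top⟩, ENNReal.ofReal_ne_top⟩
    have h4 := ENNReal.toReal_mono hne h2
    have h3 : ∑ k ∈ Finset.Ioc r (D + 1), volume (S.Ev x (zeta D) k s v'' ∩ Icc a b) ≠ ⊤ := by
      rw [ENNReal.sum_ne_top]
      intro k _
      exact hfinite _
    have hn1 : 0 ≤ Cs * (2 * ρ) ^ β * (b - a) := by positivity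
    rw [ENNReal.toReal_add (ENNReal.add_ne_top.2 ⟨ENNReal.add_ne_top.2
        ⟨ENNReal.ofReal_ne_top, h3⟩, ENNReal.ofReal_ne_top⟩) ENNReal.ofReal_ne_top,
      ENNReal.toReal_add (ENNReal.add_ne_top.2 ⟨ENNReal.ofReal_ne_top, h3⟩)
        ENNReal.ofReal_ne_top,
      ENNReal.toReal_add ENNReal.ofReal_ne_top h3,
      ENNReal.toReal_ofReal hn1, ENNReal.toReal_ofReal (by positivity),
      ENNReal.toReal_ofReal (by positivity), ENNReal.toReal_sum (fun k _ => hfinite _)] at h4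
    exact h4
  -- the error terms
  have hzr : zeta D 1 ≤ ζ := zeta_mono hr
  have hρβ : (2 * ρ) ^ β ≤ 2 ^ β * Real.exp (-(v / C0)) := by
    rw [Real.mul_rpow (by norm_num) (Real.exp_pos _).le]
    refine mul_le_mul_of_nonneg_left ?_ h2β.le
    rw [← Real.exp_mul]
    apply Real.exp_le_exp.2
    have h5 : v / C0 ≤ α * v := by
      rw [div_le_iff₀ hC0pos]
      have h6 : 1 ≤ α * C0 := by
        have := mul_le_mul_of_nonneg_left hC0_α hα0.le
        rwa [mul_one_div_cancel hα0.ne'] at this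
      nlinarith
    have h7 : α * v ≤ ζ * v / (D + 1) * β := by
      rw [hα]
      have : zeta D 1 / (D + 1) ≤ ζ / (D + 1) := div_le_div_of_nonneg_right hzr hD1.le
      calc β * (zeta D 1 / (D + 1)) * v = zeta D 1 / (D + 1) * (v * β) := by ring
        _ ≤ ζ / (D + 1) * (v * β) := mul_le_mul_of_nonneg_right this (by positivity)
        _ = ζ * v / (D + 1) * β := by ring
    have h8 : -(ζ * v / (D + 1)) * β = -(ζ * v / (D + 1) * β) := by ring
    rw [h8]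
    linarith
  have hε' : ε ≤ C1 * Real.exp (-(v / C0)) := by
    rw [hε]
    refine mul_le_mul_of_nonneg_left ?_ hC1.le
    apply Real.exp_le_exp.2
    have : v / C0 ≤ v / C1 := div_le_div_of_nonneg_left hvpos.le hC1 hC0_1
    linarith
  have hℓ' : 2 * ℓ ≤ 2 * Real.exp (-(v / C0)) * (b - a) := by
    have h9 : v / C0 ≤ s := by
      have h10 : v / C0 ≤ v / 4 := div_le_div_of_nonneg_left hvpos.le (by norm_num) hC0_4
      have h11 : t ≤ v / 2000 := by
        rw [ht]; nlinarith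
      linarith
    have h12 : Real.exp (-s) ≤ b - a := by
      calc Real.exp (-s) ≤ Real.exp (Real.log (b - a)) := Real.exp_le_exp.2 (by linarith)
        _ = b - a := Real.exp_log hba
    have h13 : ℓ = Real.exp (-s) * Real.exp (-s) := by
      rw [hℓ, ← Real.exp_add]; ring_nf
    have h14 : Real.exp (-s) ≤ Real.exp (-(v / C0)) := Real.exp_le_exp.2 (by linarith)
    rw [h13]
    have := mul_le_mul h14 h12 (Real.exp_pos _).le (Real.exp_pos _).le
    linarith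
  have hE0 : 0 < Real.exp (-(v / C0)) := Real.exp_pos _
  -- assembly
  have hfinal : (volume (S.Ev x (zeta D) r (s + t) v ∩ Icc a b)).toReal ≤
      (∑ k ∈ Finset.Ioc r (D + 1), S.PW x (zeta D) a b k s v'' +
        C0 * Real.exp (-(v / C0))) * (b - a) := by
    have h15 : ∑ k ∈ Finset.Ioc r (D + 1), (volume (S.Ev x (zeta D) k s v'' ∩ Icc a b)).toReal =
        (∑ k ∈ Finset.Ioc r (D + 1), S.PW x (zeta D) a b k s v'') * (b - a) := by
      rw [Finset.sum_mul]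
      refine Finset.sum_congr rfl fun k _ => ?_
      unfold PW
      rw [div_mul_cancel₀ _ hba.ne']
    rw [h15] at hreal
    have h16 : Cs * (2 * ρ) ^ β * (b - a) ≤ Cs * (2 ^ β * Real.exp (-(v / C0))) * (b - a) := by
      gcongr
    have h17 : ε * (b - a) ≤ C1 * Real.exp (-(v / C0)) * (b - a) := by gcongr
    have h18 : (Cs * 2 ^ β + C1 + 2) * Real.exp (-(v / C0)) * (b - a) ≤
        C0 * Real.exp (-(v / C0)) * (b - a) := by gcongr
    nlinarith
  unfold PW at hfinal ⊢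
  rw [div_le_iff₀ hba]
  exact hfinal

end Sys
end Pool.Agent.TFL
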