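/-
MP_e98778_an, module L, REC: the recursion (real numbers only, independent of everything else).

SETTING.  D, constants eps D, zeta D r, Cd D, c3 D of Consts; c₂ ∈ (0,1/2]; C0, V0 with 4 C0 <= V0.
P r s v ∈ [0,1], P (D+1) s v = 0 for v > 0, and for s >= s₁:
 STEP  (V0 <= v <= (3-ζ1)(s + c3 v)):
   P r (s + c3 v) v <= P r s ((1+c₂c3) v - C0a) + Σ_{k∈(r,D+1]} P k s ((1 - Cd ζ_r) v - C0b)
                        + C0 e^{-v/C0},          C0a, C0b ∈ [0, C0] (depending on r, s, v)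
 FINAL (V0 <= v, (3-ζ1)(s+5ζ_r v) <= v <= 3 (s + 5 ζ_r v)):
   P r (s + 5 ζ_r v) v <= Σ_{k∈(r,D+1]} P k s ((1 - Cd ζ_r) v - C0b) + C0 e^{-v/C0}.
CLAIM.  There are C, c, Λ > 0 depending only on D, c₂, C0, V0 with
   P 1 S v <= C e^{-c v} for S >= Λ s₁, 0 < v <= (3-ζ1) S.
PAPER PROOF.  Let γ = c₂ c3/2, κ = 2/c₂, vmin = max(V0, 2 C0/(c₂c3)).  Downward induction on r from
D+1 to 1: S(r): there are A_r, c_r, Λ_r > 0 such that for ALL such P, s₁ >= 1, and all S, v with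
   v <= (3-ζ1/2) S and Λ_r s₁ <= S + κ v and 0 <= v :  P r S v <= A_r e^{-c_r v}.
r = D+1: P = 0 for v > 0, and P <= 1 <= A for v = 0.
r <= D: given S(k) for k > r; A' = Σ_k A_k + C0 etc., c' = min of c_k/4, 1/C0: all the error terms of
STEP and FINAL at (S,v) are <= A' e^{-c' v}, because v'' = (1 - Cd ζ_r) v - C0b >= v/4
(Cd_zeta: Cd ζ_r <= 1/2, C0b <= C0 <= v/4).  Take Λ_r = (2+6κ) max_{k>r} Λ_k + 2 + 6κ.
 From v <= 3S and Λ_r s₁ <= S + κ v <= (1+3κ) S: S >= 2 s₁ and S/2 >= Λ_k s₁ for k > r.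
 (a) v < vmin: P <= 1 <= A_r e^{-c_r v} if A_r >= e^{c_r vmin}.
 (b) (3-ζ1) S <= v <= (3-ζ1/2) S: s = S - 5 ζ_r v >= S (1 - 15 ζ_r) >= S/2 >= s₁: FINAL.  The terms
     P k s v'': v'' <= (1 - Cd ζ_r) 3 S <= (3-ζ1/2)(1-15ζ_r) S <= (3-ζ1/2) s
     (3 Cd ζ_r = 60 (D+2)^2 ζ_r >= ζ1/2 + 45 ζ_r), v'' >= 0, Λ_k s₁ <= S/2 <= s + κ v'': S(k) applies.
 (c) vmin <= v <= (3-ζ1) S: s = S - c3 v >= S/2: STEP.  v' = (1+c₂c3) v - C0a >= (1+γ) v
     (C0a <= C0 <= c₂c3 v/2), v' <= (3-ζ1/2) s:  (1+c₂c3)(3-ζ1) <= (3-ζ1/2)(1-3c3) as c3 = ζ1/100;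
     s + κ v' >= S - c3 v + κ v + κ γ v = S + κ v (κγ = c3): the invariant is kept.
     Terms P k s v'': v'' <= v <= (3-ζ1) S <= (3-ζ1/2) s.
     Iterate: induction on n with S <= v (1+γ)^n (the ratio v/S grows: S >= s, v' >= (1+γ) v; for
     n = 0, v >= S: impossible?? no: use the measure 3 S <= v (1+γ)^n: for n = 0 we have v >= 3S >
     (3-ζ1/2) S: contradiction; (3 s <= 3 S <= v (1+γ)^(n+1) <= v' (1+γ)^n)).
     Bound: A_r e^{-c_r v'} + A' e^{-c' v} <= A_r e^{-c_r v} because e^{-c_r v'} <= e^{-c_r γ vmin}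
     e^{-c_r v}, c_r = c', A_r = max (e^{c' vmin}) (A'/(1 - e^{-c' γ vmin})) .
-/
import Pool.Agent.Helper45.TFL.Consts

open Set

namespace Pool.Agent.TFL

/-- The hypotheses of the recursion. -/
structure RecHyp (D : ℕ) (c₂ C0 V0 s₁ : ℝ) (P : ℕ → ℝ → ℝ → ℝ) : Prop where
  nonneg : ∀ r s v, 0 ≤ P r s v
  le_one : ∀ r s v, P r s v ≤ 1
  top : ∀ s v, 0 < v → P (D + 1) s v = 0
  step : ∀ (r : ℕ) (s v : ℝ), 1 ≤ r → r ≤ D + 1 → s₁ ≤ s → V0 ≤ v →
    v ≤ (3 - zeta D 1) * (s + c3 D * v) →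
    ∃ C0a C0b : ℝ, 0 ≤ C0a ∧ C0a ≤ C0 ∧ 0 ≤ C0b ∧ C0b ≤ C0 ∧
      P r (s + c3 D * v) v ≤ P r s ((1 + c₂ * c3 D) * v - C0a)
        + ∑ k ∈ Finset.Ioc r (D + 1), P k s ((1 - Cd D * zeta D r) * v - C0b)
        + C0 * Real.exp (-(v / C0))
  final : ∀ (r : ℕ) (s v : ℝ), 1 ≤ r → r ≤ D + 1 → s₁ ≤ s → V0 ≤ v →
    (3 - zeta D 1) * (s + 5 * zeta D r * v) ≤ v → v ≤ 3 * (s + 5 * zeta D r * v) →
    ∃ C0b : ℝ, 0 ≤ C0b ∧ C0b ≤ C0 ∧
      P r (s + 5 * zeta D r * v) v ≤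
        ∑ k ∈ Finset.Ioc r (D + 1), P k s ((1 - Cd D * zeta D r) * v - C0b)
        + C0 * Real.exp (-(v / C0))

/-- The uniform statement for all ranks `k ≥ r`. -/
private def HH41 (D : ℕ) (c₂ C0 V0 : ℝ) (r : ℕ) : Prop :=
  ∃ A c Λ : ℝ, 1 ≤ A ∧ 0 < c ∧ 1 ≤ Λ ∧ ∀ (P : ℕ → ℝ → ℝ → ℝ) (s₁ : ℝ), 1 ≤ s₁ →
    RecHyp D c₂ C0 V0 s₁ P → ∀ k : ℕ, r ≤ k → k ≤ D + 1 → ∀ S v : ℝ, 0 ≤ v →
      v ≤ (3 - zeta D 1 / 2) * S → Λ * s₁ ≤ S + 2 / c₂ * v → P k S v ≤ A * Real.exp (-(c * v))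

private theorem hh41_base (D : ℕ) (c₂ C0 V0 : ℝ) : HH41 D c₂ C0 V0 (D + 1) := by
  refine ⟨1, 1, 1, le_refl _, one_pos, le_refl _, ?_⟩
  intro P s₁ _ h k hk hk' S v hv _ _
  obtain rfl : k = D + 1 := le_antisymm hk' hk
  rcases hv.eq_or_lt with h0 | h0
  · rw [← h0]
    simpa using h.le_one (D + 1) S 0
  · rw [h.top S v h0]
    positivity

private theorem hh41_num {c z : ℝ} (hc : 0 < c) (hc' : c ≤ 1 / 2) (hz : 0 < z) :
    (1 + c * (z / 100)) * (3 - z) ≤ (3 - z / 2) * (1 - 3 * (z / 100)) := by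
  have h1 : c * z ≤ 1 / 2 * z := mul_le_mul_of_nonneg_right hc' hz.le
  have h2 : 0 ≤ c * z * z := by positivity
  have h3 : 0 ≤ z * z := by positivity
  linarith

private theorem hh41_pos {z v S : ℝ} (hz : z ≤ 1) (hv : 0 < v) (h : v ≤ (3 - z / 2) * S) :
    0 < S := by
  have h1 : 0 < (3 - z / 2) * S := lt_of_lt_of_le hv h
  exact (mul_pos_iff_of_pos_left (by linarith)).1 h1

private theorem hh41_Cd (D : ℕ) : 15 ≤ Cd D := by
  unfold Cd
  have h : (4 : ℝ) ≤ ((D : ℝ) + 2) ^ 2 := by nlinarith [Nat.cast_nonneg (α := ℝ) D]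
  linarith

private theorem hh41_err {D r : ℕ} {c₂ C0 V0 A c Λ s₁ : ℝ} {P : ℕ → ℝ → ℝ → ℝ}
    (hrD : r ≤ D) (hc₂ : 0 < c₂) (hC0 : 0 < C0) (hV0 : 4 * C0 ≤ V0) (hA : 1 ≤ A) (hc : 0 < c)
    (hb : ∀ k : ℕ, r + 1 ≤ k → k ≤ D + 1 → ∀ S v : ℝ, 0 ≤ v →
      v ≤ (3 - zeta D 1 / 2) * S → Λ * s₁ ≤ S + 2 / c₂ * v → P k S v ≤ A * Real.exp (-(c * v)))
    {s v b : ℝ} (hv : V0 ≤ v) (hb0 : 0 ≤ b) (hb1 : b ≤ C0)
    (h1 : (1 - Cd D * zeta D r) * v ≤ (3 - zeta D 1 / 2) * s) (h2 : Λ * s₁ ≤ s) :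
    ∑ k ∈ Finset.Ioc r (D + 1), P k s ((1 - Cd D * zeta D r) * v - b)
        + C0 * Real.exp (-(v / C0)) ≤
      (((D : ℝ) + 1) * A + C0) * Real.exp (-(min (c / 4) (1 / C0) * v)) := by
  have hv0 : 0 < v := by linarith
  have hz := Cd_zeta D r (by omega)
  have hv'' : v / 4 ≤ (1 - Cd D * zeta D r) * v - b := by
    have := mul_le_mul_of_nonneg_right hz hv0.le
    linarith
  have hterm : ∀ k ∈ Finset.Ioc r (D + 1), P k s ((1 - Cd D * zeta D r) * v - b) ≤
      A * Real.exp (-(min (c / 4) (1 / C0) * v)) := by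
    intro k hk
    rw [Finset.mem_Ioc] at hk
    have h3 := hb k (by omega) hk.2 s ((1 - Cd D * zeta D r) * v - b) (by linarith)
      (by linarith) (by
        have : 0 ≤ 2 / c₂ * ((1 - Cd D * zeta D r) * v - b) :=
          mul_nonneg (by positivity) (by linarith)
        linarith)
    refine h3.trans ?_
    refine mul_le_mul_of_nonneg_left (Real.exp_le_exp.mpr ?_) (by linarith)
    have h4 : min (c / 4) (1 / C0) ≤ c / 4 := min_le_left _ _
    have h5 : min (c / 4) (1 / C0) * v ≤ c / 4 * v := mul_le_mul_of_nonneg_right h4 hv0.le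
    have h6 : c * (v / 4) ≤ c * ((1 - Cd D * zeta D r) * v - b) :=
      mul_le_mul_of_nonneg_left hv'' hc.le
    linarith
  have hsum : ∑ k ∈ Finset.Ioc r (D + 1), P k s ((1 - Cd D * zeta D r) * v - b) ≤
      ((D : ℝ) + 1) * (A * Real.exp (-(min (c / 4) (1 / C0) * v))) := by
    refine (Finset.sum_le_sum hterm).trans ?_
    rw [Finset.sum_const, nsmul_eq_mul, Nat.card_Ioc]
    refine mul_le_mul_of_nonneg_right ?_ (by positivity)
    have : ((D + 1 - r : ℕ) : ℝ) ≤ ((D + 1 : ℕ) : ℝ) := by exact_mod_cast Nat.sub_le _ _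
    push_cast at this
    exact this
  have hlast : C0 * Real.exp (-(v / C0)) ≤ C0 * Real.exp (-(min (c / 4) (1 / C0) * v)) := by
    refine mul_le_mul_of_nonneg_left (Real.exp_le_exp.mpr ?_) hC0.le
    have h4 : min (c / 4) (1 / C0) ≤ 1 / C0 := min_le_right _ _
    have h5 : min (c / 4) (1 / C0) * v ≤ 1 / C0 * v := mul_le_mul_of_nonneg_right h4 hv0.le
    have h6 : v / C0 = 1 / C0 * v := by ring
    rw [h6]
    linarith
  calc _ ≤ ((D : ℝ) + 1) * (A * Real.exp (-(min (c / 4) (1 / C0) * v))) +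
        C0 * Real.exp (-(min (c / 4) (1 / C0) * v)) := add_le_add hsum hlast
    _ = _ := by ring

/-- The constants of one step. -/
private structure Cst41 (A C0 c₂ t D c V0 B c' γ κ M Λ vm q A' : ℝ) : Prop where
  hB1 : A ≤ B
  hB2 : Real.exp (c' * vm) ≤ B
  hB4 : B * q + A' ≤ B
  hq : q = Real.exp (-(c' * γ * vm))
  hc' : c' = min (c / 4) (1 / C0)
  hA' : A' = (D + 1) * A + C0
  hvm1 : V0 ≤ vm
  hvm3 : 2 * C0 ≤ c₂ * t * vm
  hγ : γ = c₂ * t / 2
  hκ : κ = 2 / c₂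
  hκγ : κ * γ = t
  hM : M = (2 + 6 * κ) * Λ + (2 + 6 * κ)

private theorem cst41 {A C0 c₂ t D c V0 Λ : ℝ} (hc₂ : 0 < c₂) (ht : 0 < t) (hC0 : 0 < C0)
    (hA : 1 ≤ A) (hc : 0 < c) (hD : 0 ≤ D) (hV0 : 4 * C0 ≤ V0) :
    ∃ B c' γ κ M vm q A' : ℝ, Cst41 A C0 c₂ t D c V0 B c' γ κ M Λ vm q A' := by
  have hcc : 0 < c₂ * t := mul_pos hc₂ ht
  obtain ⟨vm, hvm⟩ : ∃ vm, vm = max V0 (2 * C0 / (c₂ * t)) := ⟨_, rfl⟩
  have hvm1 : V0 ≤ vm := hvm ▸ le_max_left _ _
  have hvm2 : 2 * C0 / (c₂ * t) ≤ vm := hvm ▸ le_max_right _ _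
  have hvm0 : 0 < vm := by linarith
  have hvm3 : 2 * C0 ≤ c₂ * t * vm := by
    rw [div_le_iff₀ hcc] at hvm2
    linarith
  have hc'0 : 0 < min (c / 4) (1 / C0) := by positivity
  have hq1 : Real.exp (-(min (c / 4) (1 / C0) * (c₂ * t / 2) * vm)) < 1 := by
    rw [Real.exp_lt_one_iff]
    have : 0 < min (c / 4) (1 / C0) * (c₂ * t / 2) * vm := by positivity
    linarith
  obtain ⟨B, hB⟩ : ∃ B, B = max A (max (Real.exp (min (c / 4) (1 / C0) * vm))
      (((D + 1) * A + C0) / (1 - Real.exp (-(min (c / 4) (1 / C0) * (c₂ * t / 2) * vm))))) :=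
    ⟨_, rfl⟩
  have hB3 : ((D + 1) * A + C0) /
      (1 - Real.exp (-(min (c / 4) (1 / C0) * (c₂ * t / 2) * vm))) ≤ B :=
    hB ▸ (le_max_right _ _).trans (le_max_right _ _)
  refine ⟨B, _, _, _, _, vm, _, _, hB ▸ le_max_left _ _,
    hB ▸ (le_max_left _ _).trans (le_max_right _ _), ?_, rfl, rfl, rfl, hvm1, hvm3, rfl, rfl,
    by field_simp, rfl⟩
  rw [div_le_iff₀ (by linarith)] at hB3
  linarith

private theorem hh41_step (D : ℕ) (c₂ C0 V0 : ℝ) (hc₂ : 0 < c₂) (hc₂' : c₂ ≤ 1 / 2) (hC0 : 0 < C0)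
    (hV0 : 4 * C0 ≤ V0) (r : ℕ) (hr : 1 ≤ r) (hrD : r ≤ D) (ih : HH41 D c₂ C0 V0 (r + 1)) :
    HH41 D c₂ C0 V0 r := by
  obtain ⟨A, c, Λ, hA, hc, hΛ, hI⟩ := ih
  have hz1 := zeta_pos D 1
  have hz1s := zeta_small D 1 (by omega)
  have hzr := zeta_pos D r
  have hzrs := zeta_small D r (by omega)
  have hc3 := c3_pos D
  obtain ⟨B, c', γ, κ, M, vm, q, A', hk⟩ :=
    cst41 (V0 := V0) (Λ := Λ) hc₂ hc3 hC0 hA hc (Nat.cast_nonneg (α := ℝ) D) hV0
  have hcc : 0 < c₂ * c3 D := mul_pos hc₂ hc3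
  have hvm0 : 0 < vm := by linarith [hk.hvm1]
  have hγ0 : 0 < γ := by rw [hk.hγ]; positivity
  have hc'0 : 0 < c' := by rw [hk.hc']; positivity
  have hc'c : c' ≤ c := by
    have : c' ≤ c / 4 := hk.hc' ▸ min_le_left _ _
    linarith
  have hκ0 : 0 < κ := by rw [hk.hκ]; positivity
  have hMΛ : Λ ≤ M := by
    have h1 := mul_nonneg hκ0.le (by linarith : (0 : ℝ) ≤ Λ)
    rw [hk.hM]
    linarith
  have hB0 : 0 < B := by linarith [hk.hB1]
  refine ⟨B, c', M, hA.trans hk.hB1, hc'0, hΛ.trans hMΛ, ?_⟩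
  intro P s₁ hs₁ h k hk1 hk2 S v hv hvS hMS
  have hs₁0 : 0 < s₁ := by linarith
  -- the ranks above `r`
  rcases hk1.eq_or_lt with hkr | hkr
  swap
  · have h1 := hI P s₁ hs₁ h k hkr hk2 S v hv hvS
      ((mul_le_mul_of_nonneg_right hMΛ hs₁0.le).trans hMS)
    refine h1.trans (mul_le_mul hk.hB1 (Real.exp_le_exp.mpr ?_) (Real.exp_pos _).le hB0.le)
    have := mul_le_mul_of_nonneg_right hc'c hv
    linarith
  subst hkr
  have hb := hI P s₁ hs₁ h
  rw [← hk.hκ] at hMS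
  -- small `v`
  have hsmall : ∀ S v : ℝ, v ≤ vm → P r S v ≤ B * Real.exp (-(c' * v)) := by
    intro S v hv
    refine (h.le_one r S v).trans ?_
    have h1 : 1 = Real.exp (c' * vm) * Real.exp (-(c' * vm)) := by
      rw [← Real.exp_add]; simp
    rw [h1]
    refine mul_le_mul hk.hB2 (Real.exp_le_exp.mpr ?_) (Real.exp_pos _).le hB0.le
    have := mul_le_mul_of_nonneg_left hv hc'0.le
    linarith
  have hkey : ∀ n : ℕ, ∀ S v : ℝ, 0 < v → v ≤ (3 - zeta D 1 / 2) * S → M * s₁ ≤ S + κ * v →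
      3 * S ≤ v * (1 + γ) ^ n → P r S v ≤ B * Real.exp (-(c' * v)) := by
    intro n
    induction n with
    | zero =>
      intro S v hv hvS hMS hn
      exfalso
      have hS0 : 0 < S := hh41_pos (by linarith) hv hvS
      rw [pow_zero, mul_one] at hn
      have := mul_pos hz1 hS0
      linarith
    | succ n ihn =>
      intro S v hv0 hvS hMS hn
      rcases le_total v vm with hvvm | hvvm
      · exact hsmall S v hvvm
      have hvV : V0 ≤ v := hk.hvm1.trans hvvm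
      have hS0 : 0 < S := hh41_pos (by linarith) hv0 hvS
      have hzS := mul_pos hz1 hS0
      have hv3 : v ≤ 3 * S := by linarith
      have hS2 : (2 * Λ + 2) * s₁ ≤ S := by
        have h1 : κ * v ≤ κ * (3 * S) := mul_le_mul_of_nonneg_left hv3 hκ0.le
        have h2 : (1 + 3 * κ) * ((2 * Λ + 2) * s₁) ≤ (1 + 3 * κ) * S := by
          have h3 : (1 + 3 * κ) * ((2 * Λ + 2) * s₁) = M * s₁ := by rw [hk.hM]; ring
          rw [h3]
          linarith
        exact le_of_mul_le_mul_left h2 (by positivity)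
      have hΛs : 0 ≤ Λ * s₁ := mul_nonneg (by linarith) hs₁0.le
      rcases le_total v ((3 - zeta D 1) * S) with hvc | hvc
      · -- STEP
        obtain ⟨s, hs⟩ : ∃ s, s = S - c3 D * v := ⟨_, rfl⟩
        have hst : s + c3 D * v = S := by rw [hs]; ring
        have htv : c3 D * v ≤ c3 D * (3 * S) := mul_le_mul_of_nonneg_left hv3 hc3.le
        have hs2 : (1 - 3 * c3 D) * S ≤ s := by rw [hs]; linarith
        have hsS : S / 2 ≤ s := by
          have h1 : 3 * c3 D ≤ 1 / 2 := by unfold c3; linarith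
          have := mul_le_mul_of_nonneg_right h1 hS0.le
          linarith
        have hnum : (1 + c₂ * c3 D) * (3 - zeta D 1) ≤ (3 - zeta D 1 / 2) * (1 - 3 * c3 D) :=
          hh41_num hc₂ hc₂' hz1
        have hnum2 : (3 - zeta D 1) ≤ (3 - zeta D 1 / 2) * (1 - 3 * c3 D) := by
          refine le_trans ?_ hnum
          have := mul_nonneg hcc.le (by linarith : (0 : ℝ) ≤ 3 - zeta D 1)
          linarith
        have h3s : (3 - zeta D 1 / 2) * ((1 - 3 * c3 D) * S) ≤ (3 - zeta D 1 / 2) * s :=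
          mul_le_mul_of_nonneg_left hs2 (by linarith)
        obtain ⟨a, b, ha0, ha1, hb0, hb1, hst'⟩ := h.step r s v hr (by omega)
          (by linarith) hvV (by rw [hst]; exact hvc)
        rw [hst] at hst'
        have herr := hh41_err (P := P) (s₁ := s₁) hrD hc₂ hC0 hV0 hA hc hb (s := s) hvV hb0 hb1
          (by
            have h1 : (1 - Cd D * zeta D r) * v ≤ v := by
              have := mul_nonneg (mul_nonneg (Cd_pos D).le hzr.le) hv0.le
              linarith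
            have h2 : (3 - zeta D 1) * S ≤ (3 - zeta D 1 / 2) * (1 - 3 * c3 D) * S :=
              mul_le_mul_of_nonneg_right hnum2 hS0.le
            linarith)
          (by linarith)
        rw [← hk.hA', ← hk.hc'] at herr
        obtain ⟨w, hw⟩ : ∃ w, w = (1 + c₂ * c3 D) * v - a := ⟨_, rfl⟩
        rw [← hw] at hst'
        have hwv : (1 + γ) * v ≤ w := by
          have h1 : c₂ * c3 D * vm ≤ c₂ * c3 D * v := mul_le_mul_of_nonneg_left hvvm hcc.le
          have h2 := hk.hvm3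
          rw [hw, hk.hγ]
          linarith
        have hw0 : 0 < w := by
          have := mul_pos hγ0 hv0
          linarith
        have hws : w ≤ (3 - zeta D 1 / 2) * s := by
          have h1 : (1 + c₂ * c3 D) * v ≤ (1 + c₂ * c3 D) * ((3 - zeta D 1) * S) :=
            mul_le_mul_of_nonneg_left hvc (by linarith)
          have h2 : (1 + c₂ * c3 D) * (3 - zeta D 1) * S ≤
              (3 - zeta D 1 / 2) * (1 - 3 * c3 D) * S :=
            mul_le_mul_of_nonneg_right hnum hS0.le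
          rw [hw]
          linarith
        have hinv : M * s₁ ≤ s + κ * w := by
          have h1 : κ * ((1 + γ) * v) ≤ κ * w := mul_le_mul_of_nonneg_left hwv hκ0.le
          have h2 : κ * ((1 + γ) * v) = κ * v + κ * γ * v := by ring
          rw [hk.hκγ] at h2
          rw [hs]
          linarith
        have hmeas : 3 * s ≤ w * (1 + γ) ^ n := by
          have h1 : 0 ≤ c3 D * v := by positivity
          have h2 : v * (1 + γ) ^ (n + 1) = (1 + γ) * v * (1 + γ) ^ n := by ring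
          have h3 : (1 + γ) * v * (1 + γ) ^ n ≤ w * (1 + γ) ^ n :=
            mul_le_mul_of_nonneg_right hwv (by positivity)
          rw [hs]
          linarith
        have hrec := ihn s w hw0 hws hinv hmeas
        have hexp : Real.exp (-(c' * w)) ≤ q * Real.exp (-(c' * v)) := by
          rw [hk.hq, ← Real.exp_add]
          refine Real.exp_le_exp.mpr ?_
          have h1 : c' * ((1 + γ) * v) ≤ c' * w := mul_le_mul_of_nonneg_left hwv hc'0.le
          have h2 : c' * γ * vm ≤ c' * γ * v :=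
            mul_le_mul_of_nonneg_left hvvm (by positivity)
          linarith
        calc P r S v ≤ P r s w + (∑ k ∈ Finset.Ioc r (D + 1),
              P k s ((1 - Cd D * zeta D r) * v - b) + C0 * Real.exp (-(v / C0))) := by linarith
          _ ≤ B * (q * Real.exp (-(c' * v))) + A' * Real.exp (-(c' * v)) :=
              add_le_add (hrec.trans (mul_le_mul_of_nonneg_left hexp hB0.le)) herr
          _ = (B * q + A') * Real.exp (-(c' * v)) := by ring
          _ ≤ B * Real.exp (-(c' * v)) := mul_le_mul_of_nonneg_right hk.hB4 (Real.exp_pos _).le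
      · -- FINAL
        obtain ⟨s, hs⟩ : ∃ s, s = S - 5 * zeta D r * v := ⟨_, rfl⟩
        have hst : s + 5 * zeta D r * v = S := by rw [hs]; ring
        have htv : zeta D r * v ≤ zeta D r * (3 * S) := mul_le_mul_of_nonneg_left hv3 hzr.le
        have hs2 : (1 - 15 * zeta D r) * S ≤ s := by rw [hs]; linarith
        have hsS : S / 2 ≤ s := by
          have := mul_le_mul_of_nonneg_right hzrs hS0.le
          linarith
        obtain ⟨b, hb0, hb1, hfin⟩ := h.final r s v hr (by omega) (by linarith) hvV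
          (by rw [hst]; exact hvc) (by rw [hst]; exact hv3)
        rw [hst] at hfin
        have herr := hh41_err (P := P) (s₁ := s₁) hrD hc₂ hC0 hV0 hA hc hb (s := s) hvV hb0 hb1
          (by
            have hz := Cd_zeta D r (by omega)
            have h1 : (1 - Cd D * zeta D r) * v ≤
                (1 - Cd D * zeta D r) * ((3 - zeta D 1 / 2) * S) :=
              mul_le_mul_of_nonneg_left hvS (by linarith)
            have h2 : (1 - Cd D * zeta D r) ≤ 1 - 15 * zeta D r := by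
              have := mul_le_mul_of_nonneg_right (hh41_Cd D) hzr.le
              linarith
            have h3 : (1 - Cd D * zeta D r) * ((3 - zeta D 1 / 2) * S) ≤
                (1 - 15 * zeta D r) * ((3 - zeta D 1 / 2) * S) :=
              mul_le_mul_of_nonneg_right h2 (mul_nonneg (by linarith) hS0.le)
            have h4 : (3 - zeta D 1 / 2) * ((1 - 15 * zeta D r) * S) ≤ (3 - zeta D 1 / 2) * s :=
              mul_le_mul_of_nonneg_left hs2 (by linarith)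
            linarith)
          (by linarith)
        rw [← hk.hA', ← hk.hc'] at herr
        have hA'B : A' ≤ B := by
          have h1 : 0 ≤ B * q := mul_nonneg hB0.le (by rw [hk.hq]; exact (Real.exp_pos _).le)
          linarith [hk.hB4]
        exact (hfin.trans herr).trans (mul_le_mul_of_nonneg_right hA'B (Real.exp_pos _).le)
  rcases le_total v vm with hvvm | hvvm
  · exact hsmall S v hvvm
  · have hv0 : 0 < v := by linarith
    obtain ⟨n, hn⟩ := pow_unbounded_of_one_lt (3 * S / v) (by linarith : 1 < 1 + γ)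
    refine hkey n S v hv0 hvS hMS ?_
    rw [div_lt_iff₀ hv0] at hn
    linarith

theorem recursion (D : ℕ) (c₂ C0 V0 : ℝ) (hc₂ : 0 < c₂) (hc₂' : c₂ ≤ 1 / 2) (hC0 : 0 < C0)
    (hV0 : 4 * C0 ≤ V0) :
    ∃ C c Λ : ℝ, 0 < C ∧ 0 < c ∧ 1 ≤ Λ ∧ ∀ (P : ℕ → ℝ → ℝ → ℝ) (s₁ : ℝ), 1 ≤ s₁ →
      RecHyp D c₂ C0 V0 s₁ P → ∀ s v : ℝ, Λ * s₁ ≤ s → 0 < v → v ≤ (3 - zeta D 1) * s →
        P 1 s v ≤ C * Real.exp (-(c * v)) := by
  have hall : ∀ j : ℕ, j ≤ D → HH41 D c₂ C0 V0 (D + 1 - j) := by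
    intro j
    induction j with
    | zero => intro _; exact hh41_base D c₂ C0 V0
    | succ j ih =>
      intro hj
      have h1 : D + 1 - j = D + 1 - (j + 1) + 1 := by omega
      have h2 := ih (by omega)
      rw [h1] at h2
      exact hh41_step D c₂ C0 V0 hc₂ hc₂' hC0 hV0 _ (by omega) (by omega) h2
  have h1 := hall D le_rfl
  rw [show D + 1 - D = 1 by omega] at h1
  obtain ⟨A, c, Λ, hA, hc, hΛ, hI⟩ := h1
  refine ⟨A, c, Λ, by linarith, hc, hΛ, ?_⟩
  intro P s₁ hs₁ h s v hs hv hvs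
  have hz1 := zeta_pos D 1
  have hs0 : 0 < s := by
    have : 0 < Λ * s₁ := mul_pos (by linarith) (by linarith)
    linarith
  have hzs := mul_pos hz1 hs0
  refine hI P s₁ hs₁ h 1 le_rfl (by omega) s v hv.le (by linarith) ?_
  have : 0 ≤ 2 / c₂ * v := by positivity
  linarith

end Pool.Agent.TFL
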