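/-
MP_e98778_an, module L, ONE: one label on a cell (the q-part grows forward in time).

PAPER PROOF.  x_u = S.xh c c' u, x0 = x_{u0}, ζ = zeta D r, ζ1 = zeta D 1, t = c3 v = ζ1 v/100,
η = 2 K e^{-3s}, η1 = e^t η.  From v <= (3-ζ1)(s+t): 3(s+t) >= v + ζ1 (s+t) >= v + ζ1 v/3, hence
3s - c₂ t >= v + c₂ t + ζ1 v/4 (c₂ <= 1/2, t = ζ1 v/100); in particular η1 <= 1 for v >= V0.
Let Bd be the set in the statement.
(A) q-part.  Suppose some y ∈ W has len (Q s u0 x0 y) > α nm (F s u0 x0) y, where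
  α := 2 sqrt(3 Cg+1) e^{-v-c₂t} + 6 K e^{c₂t-3s}.  Scale y so that nm (F s u0 x0) y = 1 (y <> 0).
  w0 = aff x0 y, j = y.2, |j| <= 1, p0 = act s u0 (q w0), len p0 > α.
  act (s+t) u (q w0) = (e^{-t} p0.1, e^t (p0.2 + w p0.1)), w = (u-u0) e^{2s} (TR.act_add, act_cell).
  B1 = {|u-u0| <= e^{-2s}, |p0.2 + w p0.1| <= e^{-c₂t} len p0} has measure <= 6 e^{-c₂t} e^{-2s}
  (elementary: {w ∈ [-1,1] : |β + w a| <= κ sqrt(a²+β²)} has measure <= 6 κ: if |a| >= |β|/2 it
  lies in an interval of length 2κ sqrt(a²+β²)/|a| <= 2κ√5; if |a| < |β|/2 then |β+wa| >= |β|/2 and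
  sqrt(a²+β²) <= (√5/2)|β| so κ >= 1/√5 and 6κ >= 2).
  For u ∈ Bd \ B1: g := len (act (s+t) u (q w0)) >= e^{(1-c₂)t} len p0 > e^{(1-c₂)t} α.
  G (s+t) u w0 w0 = G (s+t) u w0' w0' with w0' = w0 - (q w0).1 e1 - (q w0).2 e2 ∈ ker q
  (Ge1, Ge2, symmetry) <= Cg e^{2(1-2c₂)t} G s u w0' w0' (u ∉ GRbad) = ... G s u w0 w0
  <= 3 Cg e^{2(1-2c₂)t} G s u0 w0 w0 <= 3 Cg e^{2(1-2c₂)t}.  j² <= 1 <= e^{2(1-2c₂)t}.
  So nm (F (s+t) u x0) y <= g + sqrt(3Cg+1) e^{(1-2c₂)t}.
  nm (N (s+t) u)(x_u - x0) <= e^t η = η1 (xh_cell, nmN_up), so by TR.nmF_shift, lenQ_shift: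
  len (Q (s+t) u x_u y) >= g - η1, nm (F (s+t) u x_u) y <= nm (F (s+t) u x0) y + η1.
  The label at u gives g - η1 <= e^{-v}(g + sqrt(3Cg+1) e^{(1-2c₂)t} + η1), e^{-v} <= 1/2, so
  g <= 2 sqrt(3Cg+1) e^{-v+(1-2c₂)t} + 3 η1, and α < e^{-(1-c₂)t} g <= α.  Contradiction.
  So Bd ⊆ B1, unless len (Q s u0 x0 y) <= α nm (F s u0 x0) y for all y ∈ W.
(B) volume.  ρ' = e^{-ζ c₂ t / 2}.  If Bd is non-empty fix a basis zW of W (a label) and
  z0 i = (zW i).1 - (zW i).2 x0, (zW i).2).  vol (F s u x0) zW = vol (F s u 0) z0.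
  NSbad = the set of (NS) for z0: measure <= Cn ρ'^δ e^{-2s}.
  For u ∈ Bd \ NSbad with label z (spn z = W): vol (F (s+t) u x0) z > ρ' vol (F s u0 x0) z
  (vol_ratio), vol (F (s+t) u x0) z <= 2^r vol (F (s+t) u x_u) z <= 2^r e^{ζ v}.
  Hence vol (F s u0 x0) z <= 2^r ρ'^{-1} e^{ζ v}.
(C) If volume Bd is larger than the bound (6 e^{-c₂t} + Cn ρ'^δ) e^{-2s}, take u ∈ Bd \ (B1 ∪ NSbad)
  (in case the alternative in (A) fails B1 contains Bd: contradiction), and z its label; TR.spread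
  to every w of the cell: 4^r 2^r ρ'^{-1} e^{ζ v} <= exp(ζ ((1+c₂c3) v - C0)) because
  ζ c₂ c3 v/2 >= ζ C0 + r log 8 for v >= V0; and 8 α + η <= C' e^{-v-c₂t} = exp(-((1+c₂c3)v - C0)),
  C0 = log C'.
The constants C0, V0 depend on V, K, Cn, δ, Cg, c₂ (and the C1 of the error bound too).
-/
import Pool.Agent.Helper45.TFL.TR
import Pool.Agent.Helper45.TFL.Consts

open MeasureTheory Set Module

namespace Pool.Agent.TFL

/-- elementary measure bound -/
theorem measure_small (a β κ s u₀ : ℝ) (hκ : 0 ≤ κ) :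
    volume {u : ℝ | |u - u₀| ≤ Real.exp (-(2 * s)) ∧
      |β + (u - u₀) * Real.exp (2 * s) * a| ≤ κ * Real.sqrt (a ^ 2 + β ^ 2)} ≤
      ENNReal.ofReal (6 * κ * Real.exp (-(2 * s))) ∨ (a = 0 ∧ β = 0) := by
  by_cases h0 : a = 0 ∧ β = 0
  · exact Or.inr h0
  refine Or.inl ?_
  set E : ℝ := Real.exp (-(2 * s)) with hE
  have hEpos : 0 < E := Real.exp_pos _
  have hEE : E * Real.exp (2 * s) = 1 := by rw [hE, ← Real.exp_add]; simp
  have hepos : 0 < Real.exp (2 * s) := Real.exp_pos _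
  have hm0 : 0 ≤ Real.sqrt (a ^ 2 + β ^ 2) := Real.sqrt_nonneg _
  by_cases h1 : |β| ≤ 2 * |a|
  · have ha : a ≠ 0 := by
      rintro rfl
      apply h0
      refine ⟨rfl, ?_⟩
      simpa using h1
    have ha' : 0 < |a| := abs_pos.2 ha
    have hm : Real.sqrt (a ^ 2 + β ^ 2) ≤ 3 * |a| := by
      apply Real.sqrt_le_iff.2
      refine ⟨by positivity, ?_⟩
      have : β ^ 2 ≤ (2 * |a|) ^ 2 := by
        rw [← sq_abs β]
        exact pow_le_pow_left₀ (abs_nonneg _) h1 2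
      have h2 : a ^ 2 = |a| ^ 2 := (sq_abs a).symm
      nlinarith
    have hsub : {u : ℝ | |u - u₀| ≤ E ∧
        |β + (u - u₀) * Real.exp (2 * s) * a| ≤ κ * Real.sqrt (a ^ 2 + β ^ 2)} ⊆
        Icc (u₀ - β / a * E - 3 * κ * E) (u₀ - β / a * E + 3 * κ * E) := by
      rintro u ⟨-, h⟩
      have h3 : |β + (u - u₀) * Real.exp (2 * s) * a| ≤ 3 * κ * |a| := by
        calc _ ≤ κ * Real.sqrt (a ^ 2 + β ^ 2) := h
          _ ≤ κ * (3 * |a|) := by gcongr
          _ = _ := by ring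
      have h4 : u - u₀ + β / a * E = (β + (u - u₀) * Real.exp (2 * s) * a) * (E / a) := by
        have : (u - u₀) * Real.exp (2 * s) * a * (E / a) = (u - u₀) * (E * Real.exp (2 * s)) := by
          field_simp
        rw [add_mul, this, hEE]
        field_simp
        ring
      have h5 : |u - u₀ + β / a * E| ≤ 3 * κ * E := by
        rw [h4, abs_mul, abs_div, abs_of_pos hEpos]
        calc _ ≤ 3 * κ * |a| * (E / |a|) := by gcongr
          _ = _ := by field_simp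
      rw [abs_le] at h5
      constructor <;> linarith [h5.1, h5.2]
    calc _ ≤ volume (Icc (u₀ - β / a * E - 3 * κ * E) (u₀ - β / a * E + 3 * κ * E)) :=
          measure_mono hsub
      _ = ENNReal.ofReal (6 * κ * E) := by
          rw [Real.volume_Icc]; congr 1; ring
  · push Not at h1
    have hβ : 0 < |β| := lt_of_le_of_lt (by positivity) h1
    by_cases hne : ({u : ℝ | |u - u₀| ≤ E ∧
        |β + (u - u₀) * Real.exp (2 * s) * a| ≤ κ * Real.sqrt (a ^ 2 + β ^ 2)}).Nonempty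
    · obtain ⟨u, hu1, hu2⟩ := hne
      have hw : |(u - u₀) * Real.exp (2 * s)| ≤ 1 := by
        rw [abs_mul, abs_of_pos hepos]
        calc _ ≤ E * Real.exp (2 * s) := by gcongr
          _ = 1 := hEE
      have h3 : |β| / 2 ≤ |β + (u - u₀) * Real.exp (2 * s) * a| := by
        have h4 : |(u - u₀) * Real.exp (2 * s) * a| ≤ |a| := by
          rw [abs_mul]
          calc _ ≤ 1 * |a| := by gcongr
            _ = _ := one_mul _
        have h5 : |β| ≤ |β + (u - u₀) * Real.exp (2 * s) * a| +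
            |(u - u₀) * Real.exp (2 * s) * a| := by
          have := abs_sub (β + (u - u₀) * Real.exp (2 * s) * a) ((u - u₀) * Real.exp (2 * s) * a)
          rwa [add_sub_cancel_right] at this
        linarith
      have hm : Real.sqrt (a ^ 2 + β ^ 2) ≤ 3 / 2 * |β| := by
        apply Real.sqrt_le_iff.2
        refine ⟨by positivity, ?_⟩
        have h2 : β ^ 2 = |β| ^ 2 := (sq_abs β).symm
        have h6 : a ^ 2 = |a| ^ 2 := (sq_abs a).symm
        have h7 : (2 * |a|) ^ 2 ≤ |β| ^ 2 := pow_le_pow_left₀ (by positivity) h1.le 2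
        nlinarith
      have hk : 1 / 3 ≤ κ := by
        have h8 : |β| / 2 ≤ κ * (3 / 2 * |β|) := by
          calc _ ≤ _ := h3
            _ ≤ κ * Real.sqrt (a ^ 2 + β ^ 2) := hu2
            _ ≤ _ := by gcongr
        by_contra hcon
        push Not at hcon
        nlinarith
      have hsub : {u : ℝ | |u - u₀| ≤ E ∧
          |β + (u - u₀) * Real.exp (2 * s) * a| ≤ κ * Real.sqrt (a ^ 2 + β ^ 2)} ⊆
          Icc (u₀ - E) (u₀ + E) := by
        rintro w ⟨hw, -⟩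
        rw [abs_le] at hw
        constructor <;> linarith [hw.1, hw.2]
      calc _ ≤ volume (Icc (u₀ - E) (u₀ + E)) := measure_mono hsub
        _ = ENNReal.ofReal (2 * E) := by
            rw [Real.volume_Icc]; congr 1; ring
        _ ≤ _ := by
            apply ENNReal.ofReal_le_ofReal
            nlinarith
    · rw [not_nonempty_iff_eq_empty] at hne
      rw [hne]
      simp

namespace Sys
section ONEaux
variable {V : Type} [AddCommGroup V] [Module ℝ V] (S : Sys V)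

private theorem one_G_eq (s u : ℝ) (w : V) :
    S.G s u (w - (S.q w).1 • S.e1 - (S.q w).2 • S.e2)
      (w - (S.q w).1 • S.e1 - (S.q w).2 • S.e2) = S.G s u w w := by
  have h1 : ∀ x, S.G s u x S.e1 = 0 := fun x => by rw [S.Gsymm, S.Ge1]
  have h2 : ∀ x, S.G s u x S.e2 = 0 := fun x => by rw [S.Gsymm, S.Ge2]
  simp [h1, h2, S.Ge1, S.Ge2]

private theorem one_q_eq (w : V) :
    S.q (w - (S.q w).1 • S.e1 - (S.q w).2 • S.e2) = 0 := by
  rw [map_sub, map_sub, map_smul, map_smul, S.q1, S.q2]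
  ext <;> simp

private theorem one_nmN_neg (s u : ℝ) (x y : V) :
    nm (S.N s u) (x - y) = nm (S.N s u) (y - x) := by
  have h := nm_smul (S.N_pos s u) (-1) (x - y)
  have h2 : (-1 : ℝ) • (x - y) = y - x := by rw [neg_smul, one_smul, neg_sub]
  rw [h2] at h
  simpa using h.symm

private theorem one_gbound {Cg c₂ s t u u₀ v η : ℝ} {x x₀ : V} {y : V × ℝ} (hCg : 0 < Cg)
    (hc : c₂ ≤ 1 / 2) (ht : 0 ≤ t) (hu : |u - u₀| ≤ Real.exp (-(2 * s)))
    (hG : u ∉ S.GRbad Cg c₂ s t) (hη : nm (S.N s u) (x - x₀) ≤ η) (hη0 : 0 ≤ η)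
    (hv : Real.exp (-v) ≤ 1 / 2)
    (hq : len (S.Q (s + t) u x y) ≤ Real.exp (-v) * nm (S.F (s + t) u x) y) :
    len (S.Q (s + t) u x₀ y) ≤
      (2 * Real.sqrt (3 * Cg + 1) * (Real.exp (-v) * Real.exp ((1 - 2 * c₂) * t))
        + 3 * (Real.exp t * η)) * nm (S.F s u₀ x₀) y := by
  set n0 := nm (S.F s u₀ x₀) y with hn0
  set w := aff x₀ y with hw
  set g := len (S.Q (s + t) u x₀ y) with hg
  set E := Real.exp ((1 - 2 * c₂) * t) with hE
  set e := Real.exp (-v) with he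
  set R := Real.sqrt (3 * Cg + 1) with hR
  have hn0' : 0 ≤ n0 := nm_nonneg _ _
  have hg0 : 0 ≤ g := len_nonneg _
  have hE1 : 1 ≤ E := Real.one_le_exp (by nlinarith)
  have he0 : 0 < e := Real.exp_pos _
  have hR0 : 0 ≤ R := Real.sqrt_nonneg _
  have hR2 : R ^ 2 = 3 * Cg + 1 := Real.sq_sqrt (by positivity)
  have hET : 0 < Real.exp t := Real.exp_pos _
  have hj : |y.2| ≤ n0 := S.abs_snd_le s u₀ x₀ y
  -- the G part
  have hN0 : S.G s u₀ w w ≤ n0 ^ 2 := by
    rw [hn0, S.nmF_sq, S.nmN_sq, ← hw]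
    nlinarith [sq_nonneg (len (act s u₀ (S.q w))), sq_nonneg y.2]
  have hGle : S.G (s + t) u w w ≤ 3 * Cg * E ^ 2 * n0 ^ 2 := by
    have h1 : ¬ (Cg * Real.exp (2 * (1 - 2 * c₂) * t) * S.G s u
        (w - (S.q w).1 • S.e1 - (S.q w).2 • S.e2) (w - (S.q w).1 • S.e1 - (S.q w).2 • S.e2) <
        S.G (s + t) u (w - (S.q w).1 • S.e1 - (S.q w).2 • S.e2)
          (w - (S.q w).1 • S.e1 - (S.q w).2 • S.e2)) := by
      intro hcon
      exact hG ⟨_, S.one_q_eq w, hcon⟩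
    rw [S.one_G_eq, S.one_G_eq] at h1
    push Not at h1
    have h2 : Real.exp (2 * (1 - 2 * c₂) * t) = E ^ 2 := by
      rw [hE, ← Real.exp_nat_mul]; congr 1; push_cast; ring
    rw [h2] at h1
    have h3 := S.Gcell s u u₀ w hu
    calc _ ≤ _ := h1
      _ ≤ Cg * E ^ 2 * (3 * S.G s u₀ w w) := by gcongr
      _ ≤ Cg * E ^ 2 * (3 * n0 ^ 2) := by gcongr
      _ = _ := by ring
  have hF : nm (S.F (s + t) u x₀) y ≤ g + R * E * n0 := by
    apply le_of_sq_le_sq _ (by positivity)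
    rw [S.nmF_sq, S.nmN_sq, ← hw]
    have h1 : len (act (s + t) u (S.q w)) = g := by rw [hg, S.Q_apply]
    rw [h1]
    have h2 : y.2 ^ 2 ≤ E ^ 2 * n0 ^ 2 := by
      have h3 : y.2 ^ 2 ≤ n0 ^ 2 := by
        rw [← sq_abs]; exact pow_le_pow_left₀ (abs_nonneg _) hj 2
      nlinarith [sq_nonneg n0, one_le_pow₀ hE1 (n := 2)]
    have h4 : (R * E * n0) ^ 2 = (3 * Cg + 1) * E ^ 2 * n0 ^ 2 := by
      rw [mul_pow, mul_pow, hR2]
    have h5 : 0 ≤ g * (R * E * n0) := by positivity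
    nlinarith
  have hηt : nm (S.N (s + t) u) (x - x₀) ≤ Real.exp t * η :=
    (S.nmN_up s t u ht _).trans (by gcongr)
  have hηt' : nm (S.N (s + t) u) (x₀ - x) ≤ Real.exp t * η := by
    rw [S.one_nmN_neg]; exact hηt
  have h1 := S.nmF_shift (s + t) u hηt y
  have h2 := S.lenQ_shift (s + t) u hηt' y
  have hEη : 0 ≤ Real.exp t * η := by positivity
  have h3 : Real.exp t * η * |y.2| ≤ Real.exp t * η * n0 := by gcongr
  have h4 : nm (S.F (s + t) u x) y ≤ g + R * E * n0 + Real.exp t * η * n0 := by linarith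
  have h5 : g ≤ e * (g + R * E * n0 + Real.exp t * η * n0) + Real.exp t * η * n0 := by
    have := mul_le_mul_of_nonneg_left h4 he0.le
    linarith
  have h6 : 0 ≤ Real.exp t * η * n0 := by positivity
  have h7 : e * (Real.exp t * η * n0) ≤ 1 / 2 * (Real.exp t * η * n0) := by gcongr
  have h8 : e * g ≤ 1 / 2 * g := by gcongr
  nlinarith

private theorem one_linA {Cg c₂ s t u u₀ v η : ℝ} {x x₀ : V} {y : V × ℝ} (hCg : 0 < Cg)
    (hc : c₂ ≤ 1 / 2) (ht : 0 ≤ t) (hu : |u - u₀| ≤ Real.exp (-(2 * s)))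
    (hG : u ∉ S.GRbad Cg c₂ s t) (hη : nm (S.N s u) (x - x₀) ≤ η) (hη0 : 0 ≤ η)
    (hv : Real.exp (-v) ≤ 1 / 2)
    (hq : len (S.Q (s + t) u x y) ≤ Real.exp (-v) * nm (S.F (s + t) u x) y)
    (hy : (2 * Real.sqrt (3 * Cg + 1) * Real.exp (-v - c₂ * t) + 3 * (Real.exp (c₂ * t) * η)) *
      nm (S.F s u₀ x₀) y < len (S.Q s u₀ x₀ y)) :
    |(S.Q s u₀ x₀ y).2 + (u - u₀) * Real.exp (2 * s) * (S.Q s u₀ x₀ y).1| ≤
      Real.exp (-(c₂ * t)) * Real.sqrt ((S.Q s u₀ x₀ y).1 ^ 2 + (S.Q s u₀ x₀ y).2 ^ 2) := by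
  have h1 := S.one_gbound hCg hc ht hu hG hη hη0 hv hq
  set p := S.Q s u₀ x₀ y with hp
  have h2 : (S.Q (s + t) u x₀ y).2 =
      Real.exp t * (p.2 + (u - u₀) * Real.exp (2 * s) * p.1) := by
    rw [S.Q_apply, act_add]
    have := act_cell s u u₀ (S.q (aff x₀ y))
    rw [this]
    rfl
  have h3 : Real.exp t * |p.2 + (u - u₀) * Real.exp (2 * s) * p.1| ≤
      len (S.Q (s + t) u x₀ y) := by
    rw [← abs_of_pos (Real.exp_pos t), ← abs_mul, ← h2]
    unfold len
    apply Real.abs_le_sqrt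
    nlinarith [sq_nonneg (S.Q (s + t) u x₀ y).1]
  have h4 : (2 * Real.sqrt (3 * Cg + 1) * (Real.exp (-v) * Real.exp ((1 - 2 * c₂) * t))
        + 3 * (Real.exp t * η)) = Real.exp ((1 - c₂) * t) *
        (2 * Real.sqrt (3 * Cg + 1) * Real.exp (-v - c₂ * t) + 3 * (Real.exp (c₂ * t) * η)) := by
    have e1 : Real.exp (-v) * Real.exp ((1 - 2 * c₂) * t) =
        Real.exp ((1 - c₂) * t) * Real.exp (-v - c₂ * t) := by
      rw [← Real.exp_add, ← Real.exp_add]; congr 1; ring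
    have e2 : Real.exp t = Real.exp ((1 - c₂) * t) * Real.exp (c₂ * t) := by
      rw [← Real.exp_add]; congr 1; ring
    rw [e1]
    nth_rewrite 1 [e2]
    ring
  rw [h4, mul_assoc] at h1
  have h5 : Real.exp t * |p.2 + (u - u₀) * Real.exp (2 * s) * p.1| ≤
      Real.exp ((1 - c₂) * t) * len p := by
    calc _ ≤ _ := h3
      _ ≤ _ := h1
      _ ≤ _ := by gcongr
  have h6 : Real.exp ((1 - c₂) * t) = Real.exp t * Real.exp (-(c₂ * t)) := by
    rw [← Real.exp_add]; congr 1; ring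
  have h7 : Real.exp t * |p.2 + (u - u₀) * Real.exp (2 * s) * p.1| ≤
      Real.exp t * (Real.exp (-(c₂ * t)) * len p) := by
    rw [← mul_assoc (Real.exp t) (Real.exp (-(c₂ * t))), ← h6]; exact h5
  exact le_of_mul_le_mul_left h7 (Real.exp_pos t)

private noncomputable def onePhi (x₀ : V) : (V × ℝ) →ₗ[ℝ] (V × ℝ) :=
  (LinearMap.fst ℝ V ℝ - (LinearMap.snd ℝ V ℝ).smulRight x₀).prod (LinearMap.snd ℝ V ℝ)

private theorem onePhi_apply (x₀ : V) (y : V × ℝ) : onePhi x₀ y = (y.1 - y.2 • x₀, y.2) := by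
  simp [onePhi]

private theorem one_vol_phi (s u : ℝ) (x₀ : V) {r : ℕ} (z : Fin r → V × ℝ) :
    vol (S.F s u 0) (fun i => onePhi x₀ (z i)) = vol (S.F s u x₀) z := by
  unfold vol
  congr 3
  ext i j
  have h : ∀ y : V × ℝ, aff (0 : V) (y.1 - y.2 • x₀, y.2) = aff x₀ y := by
    intro y
    rw [aff_apply, aff_apply]
    simp
  show S.F s u 0 (onePhi x₀ (z i)) (onePhi x₀ (z j)) = S.F s u x₀ (z i) (z j)
  rw [S.F_apply, S.F_apply, onePhi_apply, onePhi_apply, h, h]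

private theorem one_phi_indep (x₀ : V) {r : ℕ} {z : Fin r → V × ℝ} (hz : LinearIndependent ℝ z) :
    LinearIndependent ℝ (fun i => onePhi x₀ (z i)) := by
  have := hz.map' (onePhi x₀) (by
    rw [LinearMap.ker_eq_bot']
    intro y hy
    rw [onePhi_apply, Prod.mk_eq_zero] at hy
    obtain ⟨h1, h2⟩ := hy
    rw [h2, zero_smul, sub_zero] at h1
    exact Prod.ext h1 h2)
  exact this

/-- Volume part: for a label `z` at `(s+t,u)` outside the bad set of `zW`. -/
private theorem one_volB {ζ s t u u₀ v η ρ : ℝ} {x x₀ : V} {r : ℕ} {z zW : Fin r → V × ℝ}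
    (hz : S.IsLabel x ζ (s + t) u v z) (hW : LinearIndependent ℝ zW) (hs : spn z = spn zW)
    (ht : 0 ≤ t) (hη : nm (S.N s u) (x - x₀) ≤ η) (hη1 : Real.exp t * η ≤ 1) (hρ : 0 < ρ)
    (hnot : ¬ vol (S.F (s + t) u 0) (fun i => onePhi x₀ (zW i)) ≤
      ρ * vol (S.F s u₀ 0) (fun i => onePhi x₀ (zW i))) :
    vol (S.F s u₀ x₀) z ≤ 2 ^ r * ρ⁻¹ * Real.exp (ζ * v) := by
  rw [S.one_vol_phi, S.one_vol_phi] at hnot
  push Not at hnot
  have h1 := vol_ratio (S.F_pos (s + t) u x₀) (S.F_pos s u₀ x₀) hz.indep hW hs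
  have hp1 : 0 < vol (S.F s u₀ x₀) zW := vol_pos (S.F_pos _ _ _) hW
  have hp2 : 0 < vol (S.F s u₀ x₀) z := vol_pos (S.F_pos _ _ _) hz.indep
  have h2 : ρ * vol (S.F s u₀ x₀) z ≤ vol (S.F (s + t) u x₀) z := by
    have h3 : ρ * vol (S.F s u₀ x₀) z * vol (S.F s u₀ x₀) zW ≤
        vol (S.F (s + t) u x₀) z * vol (S.F s u₀ x₀) zW := by
      rw [h1]
      nlinarith
    exact le_of_mul_le_mul_right h3 hp1
  have hηt : nm (S.N (s + t) u) (x₀ - x) ≤ 1 := by
    rw [S.one_nmN_neg]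
    calc _ ≤ Real.exp t * nm (S.N s u) (x - x₀) := S.nmN_up s t u ht _
      _ ≤ Real.exp t * η := by gcongr
      _ ≤ 1 := hη1
  have h4 : vol (S.F (s + t) u x₀) z ≤ 2 ^ r * vol (S.F (s + t) u x) z := by
    apply vol_mono (S.F_pos _ _ _) (S.F_pos _ _ _) (by norm_num)
    intro y _
    have h5 := S.nmF_shift (s + t) u hηt y
    have h6 := S.abs_snd_le (s + t) u x y
    linarith
  have h7 : ρ * vol (S.F s u₀ x₀) z ≤ 2 ^ r * Real.exp (ζ * v) := by
    calc _ ≤ _ := h2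
      _ ≤ _ := h4
      _ ≤ _ := by gcongr; exact hz.vol_le
  calc vol (S.F s u₀ x₀) z = ρ⁻¹ * (ρ * vol (S.F s u₀ x₀) z) := by field_simp
    _ ≤ ρ⁻¹ * (2 ^ r * Real.exp (ζ * v)) := by gcongr
    _ = _ := by ring

private theorem one_arith1 {ζ1 v s t : ℝ} (h1 : 0 < ζ1) (h2 : ζ1 ≤ 1 / 10000) (hv0 : 0 < v)
    (hv : v ≤ (3 - ζ1) * (s + t)) : v + ζ1 * v / 3 ≤ 3 * (s + t) := by
  have h3 : 0 < 3 - ζ1 := by linarith
  have hst : 0 ≤ s + t := by
    by_contra hcon
    push Not at hcon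
    nlinarith
  have h4 := mul_le_mul_of_nonneg_left hv (show 0 ≤ 1 + ζ1 / 3 by positivity)
  nlinarith [mul_nonneg (sq_nonneg ζ1) hst]

end ONEaux

theorem one (V : Type) [AddCommGroup V] [Module ℝ V] [FiniteDimensional ℝ V]
    (K Cn δ Cg c₂ : ℝ) (hCn : 0 < Cn) (hδ : 0 < δ) (hCg : 0 < Cg) (hc₂ : 0 < c₂)
    (hc₂' : c₂ ≤ 1 / 2) :
    ∃ C0 V0 C1 : ℝ, 0 < C0 ∧ 0 < V0 ∧ 0 < C1 ∧ ∀ (S : Sys V), S.NS Cn δ →
      ∀ (c c' c'' : ℝ → ℝ) (κ a b : ℝ), 0 < κ → Curv c c' c'' κ K a b →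
      ∀ (r : ℕ) (s t v u₀ : ℝ) (W : Submodule ℝ (V × ℝ)),
        1 ≤ r → r ≤ finrank ℝ V + 1 → t = c3 (finrank ℝ V) * v →
        v ≤ (3 - zeta (finrank ℝ V) 1) * (s + t) → V0 ≤ v → u₀ ∈ Icc a b →
        (∀ w ∈ Icc a b, |w - u₀| ≤ Real.exp (-(2 * s)) →
            w ∈ S.Ev (S.xh c c') (zeta (finrank ℝ V)) r s
              ((1 + c₂ * c3 (finrank ℝ V)) * v - C0)) ∨
        volume {u | u ∈ Icc a b ∧ |u - u₀| ≤ Real.exp (-(2 * s)) ∧ u ∉ S.GRbad Cg c₂ s t ∧
          ∃ z : Fin r → V × ℝ, S.IsLabel (S.xh c c' u) (zeta (finrank ℝ V) r) (s + t) u v z ∧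
            spn z = W} ≤ ENNReal.ofReal (C1 * Real.exp (-(v / C1)) * Real.exp (-(2 * s))) := by
  set D := finrank ℝ V with hD
  set ζ1 := zeta D 1 with hζ1
  have hζ1p : 0 < ζ1 := zeta_pos D 1
  have hζ1s : ζ1 ≤ 1 / 10000 := zeta_small D 1 (by omega)
  have hc3p : 0 < c3 D := c3_pos D
  have hc3e : c3 D = ζ1 / 100 := rfl
  set R := Real.sqrt (3 * Cg + 1) with hR
  have hR1 : 1 ≤ R := by rw [hR]; apply Real.one_le_sqrt.2; linarith
  set K' : ℝ := |K| + 1 with hK'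
  have hK'1 : 1 ≤ K' := by rw [hK']; linarith [abs_nonneg K]
  have hKK' : K ≤ K' := by rw [hK']; linarith [le_abs_self K]
  set C' : ℝ := 16 * R + 50 * K' with hC'
  have hC'1 : 1 < C' := by rw [hC']; linarith
  set C0 : ℝ := Real.log C' with hC0
  have hC0p : 0 < C0 := Real.log_pos hC'1
  have hC0e : Real.exp C0 = C' := Real.exp_log (by linarith)
  set q1 : ℝ := c₂ * c3 D with hq1
  have hq1p : 0 < q1 := by positivity
  set q2 : ℝ := ζ1 * q1 / 2 * δ with hq2
  have hq2p : 0 < q2 := by positivity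
  set C1 : ℝ := 6 + Cn + 1 / q1 + 1 / q2 with hC1
  have hC1p : 0 < C1 := by positivity
  have hC1a : 1 / C1 ≤ q1 := by
    rw [div_le_iff₀ hC1p]
    have h1 : q1 * (1 / q1) = 1 := by field_simp
    have h2 : 0 < q1 * (6 + Cn + 1 / q2) := by positivity
    have h3 : q1 * (6 + Cn + 1 / q1 + 1 / q2) = q1 * (6 + Cn + 1 / q2) + q1 * (1 / q1) := by ring
    rw [hC1, h3, h1]; linarith
  have hC1b : 1 / C1 ≤ q2 := by
    rw [div_le_iff₀ hC1p]
    have h1 : q2 * (1 / q2) = 1 := by field_simp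
    have h2 : 0 < q2 * (6 + Cn + 1 / q1) := by positivity
    have h3 : q2 * (6 + Cn + 1 / q1 + 1 / q2) = q2 * (6 + Cn + 1 / q1) + q2 * (1 / q2) := by ring
    rw [hC1, h3, h1]; linarith
  have hC16 : 6 ≤ C1 := by
    have h1 : 0 < 1 / q1 := by positivity
    have h2 : 0 < 1 / q2 := by positivity
    rw [hC1]; linarith
  have hC1n : Cn ≤ C1 := by
    have h1 : 0 < 1 / q1 := by positivity
    have h2 : 0 < 1 / q2 := by positivity
    rw [hC1]; linarith
  set V0 : ℝ := 1 + 2 * (2 * K') + 2 / q1 * ((D + 1) * Real.log 8 / ζ1 + C0) with hV0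
  have hlog8 : 0 < Real.log 8 := Real.log_pos (by norm_num)
  have hV0a : 0 < 2 / q1 * ((D + 1) * Real.log 8 / ζ1 + C0) := by positivity
  refine ⟨C0, V0, C1, hC0p, by rw [hV0]; positivity, hC1p, ?_⟩
  intro S hNS c c' c'' κ a b hκ hcurv r s t v u₀ W hr1 hr2 ht hv hV0v hu₀
  -- K is positive here
  have hK : 0 < K := by
    have h1 := hcurv.lo u₀ hu₀
    have h2 := hcurv.hi u₀ hu₀
    linarith
  set ζ := zeta D r with hζ
  have hζp : 0 < ζ := zeta_pos D r
  have hζ1ζ : ζ1 ≤ ζ := zeta_mono hr1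
  have hv0 : 0 < v := by
    have : 0 < V0 := by rw [hV0]; positivity
    linarith
  have hv1 : 1 ≤ v := by
    have : 1 ≤ V0 := by rw [hV0]; linarith
    linarith
  have ht0 : 0 ≤ t := by rw [ht]; positivity
  have htv : t = ζ1 * v / 100 := by rw [ht, hc3e]; ring
  have hc2t : c₂ * t = q1 * v := by rw [ht, hq1]; ring
  have hc2t' : c₂ * t ≤ ζ1 * v / 200 := by
    calc c₂ * t ≤ 1 / 2 * t := by gcongr
      _ = ζ1 * v / 200 := by rw [htv]; ring
  have hc2t0 : 0 ≤ c₂ * t := by positivity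
  have hsv : v + ζ1 * v / 3 ≤ 3 * (s + t) := one_arith1 hζ1p hζ1s hv0 hv
  have h3s : v + c₂ * t + ζ1 * v / 4 ≤ 3 * s - c₂ * t := by
    rw [htv] at hsv
    have : 0 < ζ1 * v := by positivity
    linarith
  set η : ℝ := 2 * K * Real.exp (-(3 * s)) with hη
  have hη0 : 0 ≤ η := by positivity
  have hev : Real.exp (-v) ≤ 1 / 2 := by
    have h1 : Real.exp (-v) ≤ Real.exp (-1) := Real.exp_le_exp.2 (by linarith)
    have h2 : Real.exp (-1) ≤ 1 / 2 := by
      rw [Real.exp_neg, inv_eq_one_div]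
      apply one_div_le_one_div_of_le (by norm_num)
      linarith [Real.add_one_le_exp (1 : ℝ)]
    linarith
  have hη1 : Real.exp t * η ≤ 1 := by
    have h1 : Real.exp t * η = 2 * K * Real.exp (t - 3 * s) := by
      rw [hη, sub_eq_add_neg, Real.exp_add]; ring
    have h2 : t - 3 * s ≤ -(v / 2) := by
      have : 0 < ζ1 * v := by positivity
      linarith
    have h3 : v / 2 + 1 ≤ Real.exp (v / 2) := Real.add_one_le_exp _
    have h4 : 2 * K ≤ v / 2 := by
      have : 2 * (2 * K') ≤ V0 := by rw [hV0]; linarith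
      linarith
    rw [h1]
    calc 2 * K * Real.exp (t - 3 * s) ≤ 2 * K * Real.exp (-(v / 2)) := by gcongr
      _ ≤ Real.exp (v / 2) * Real.exp (-(v / 2)) := by
          gcongr
          linarith
      _ = 1 := by rw [← Real.exp_add]; simp
  have hη1' : η ≤ 1 := by
    have : 1 ≤ Real.exp t := Real.one_le_exp ht0
    calc η = 1 * η := (one_mul _).symm
      _ ≤ Real.exp t * η := by gcongr
      _ ≤ 1 := hη1
  set α : ℝ := 2 * R * Real.exp (-v - c₂ * t) + 3 * (Real.exp (c₂ * t) * η) with hα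
  have hα0 : 0 ≤ α := by positivity
  set Bd : Set ℝ := {u | u ∈ Icc a b ∧ |u - u₀| ≤ Real.exp (-(2 * s)) ∧ u ∉ S.GRbad Cg c₂ s t ∧
          ∃ z : Fin r → V × ℝ, S.IsLabel (S.xh c c' u) ζ (s + t) u v z ∧ spn z = W} with hBd
  have hE1 : Real.exp (-(q1 * v)) ≤ Real.exp (-(v / C1)) := by
    apply Real.exp_le_exp.2
    have : v / C1 = 1 / C1 * v := by ring
    rw [this]
    exact neg_le_neg (mul_le_mul_of_nonneg_right hC1a hv0.le)
  have hxcell : ∀ u ∈ Icc a b, |u - u₀| ≤ Real.exp (-(2 * s)) →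
      nm (S.N s u) (S.xh c c' u - S.xh c c' u₀) ≤ η := fun u hu h =>
    S.xh_cell hκ hcurv hu hu₀ h
  by_cases hA : ∃ y ∈ W, α * nm (S.F s u₀ (S.xh c c' u₀)) y < len (S.Q s u₀ (S.xh c c' u₀) y)
  · -- case (A): the q-part expands
    right
    obtain ⟨y, hyW, hy⟩ := hA
    have hsub : Bd ⊆ {u : ℝ | |u - u₀| ≤ Real.exp (-(2 * s)) ∧
        |(S.Q s u₀ (S.xh c c' u₀) y).2 + (u - u₀) * Real.exp (2 * s) *
          (S.Q s u₀ (S.xh c c' u₀) y).1| ≤ Real.exp (-(c₂ * t)) *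
          Real.sqrt ((S.Q s u₀ (S.xh c c' u₀) y).1 ^ 2 + (S.Q s u₀ (S.xh c c' u₀) y).2 ^ 2)} := by
      rintro u ⟨hu, huc, hG, z, hz, hzW⟩
      refine ⟨huc, ?_⟩
      exact S.one_linA hCg hc₂' ht0 huc hG (hxcell u hu huc) hη0 hev
        (hz.q_le y (by rw [hzW]; exact hyW)) hy
    rcases measure_small (S.Q s u₀ (S.xh c c' u₀) y).1 (S.Q s u₀ (S.xh c c' u₀) y).2
      (Real.exp (-(c₂ * t))) s u₀ (Real.exp_pos _).le with h | ⟨h1, h2⟩
    · calc volume Bd ≤ _ := measure_mono hsub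
        _ ≤ _ := h
        _ ≤ _ := by
          apply ENNReal.ofReal_le_ofReal
          rw [hc2t]
          gcongr
    · exfalso
      have : len (S.Q s u₀ (S.xh c c' u₀) y) = 0 := by
        unfold len; rw [h1, h2]; simp
      rw [this] at hy
      have := mul_nonneg hα0 (nm_nonneg (S.F s u₀ (S.xh c c' u₀)) y)
      linarith
  · push Not at hA
    by_cases hne : Bd.Nonempty
    · obtain ⟨u1, hu1, hu1c, hG1, zW, hzW, hzWs⟩ := hne
      set ρ : ℝ := Real.exp (-(ζ * (c₂ * t) / 2)) with hρ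
      have hρ0 : 0 < ρ := Real.exp_pos _
      have hns := hNS r (fun i => onePhi (S.xh c c' u₀) (zW i)) (one_phi_indep _ hzW.indep)
        s t u₀ ρ ht0 hρ0
      by_cases hsub : Bd ⊆ {u | |u - u₀| ≤ Real.exp (-(2 * s)) ∧
          vol (S.F (s + t) u 0) (fun i => onePhi (S.xh c c' u₀) (zW i)) ≤
            ρ * vol (S.F s u₀ 0) (fun i => onePhi (S.xh c c' u₀) (zW i))}
      · right
        calc volume Bd ≤ _ := measure_mono hsub
          _ ≤ _ := hns
          _ ≤ _ := by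
            apply ENNReal.ofReal_le_ofReal
            have h1 : ρ ^ δ ≤ Real.exp (-(v / C1)) := by
              rw [hρ, ← Real.exp_mul]
              apply Real.exp_le_exp.2
              have h2 : v / C1 = 1 / C1 * v := by ring
              rw [h2, hc2t]
              have h3 : 1 / C1 * v ≤ q2 * v := by gcongr
              have h4 : q2 * v ≤ ζ * (q1 * v) / 2 * δ := by
                calc q2 * v = ζ1 * (q1 * v) / 2 * δ := by rw [hq2]; ring
                  _ ≤ _ := by gcongr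
              linarith
            gcongr
      · left
        rw [not_subset] at hsub
        obtain ⟨u, ⟨hu, huc, hG, z, hz, hzs⟩, hnot⟩ := hsub
        have hnot' : ¬ vol (S.F (s + t) u 0) (fun i => onePhi (S.xh c c' u₀) (zW i)) ≤
            ρ * vol (S.F s u₀ 0) (fun i => onePhi (S.xh c c' u₀) (zW i)) :=
          fun h => hnot ⟨huc, h⟩
        have hvolz := S.one_volB hz hzW.indep (hzs.trans hzWs.symm) ht0 (hxcell u hu huc) hη1 hρ0
          hnot'
        intro w hw hwc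
        refine ⟨z, ?_⟩
        refine S.spread hz.mem hz.indep hz.aff hvolz hα0 ?_ hwc hη0 hη1' (hxcell w hw hwc) ?_ ?_
        · intro y hy
          exact hA y (by rw [← hzs]; exact hy)
        · have h1 : (4 : ℝ) ^ r * (2 ^ r * ρ⁻¹ * Real.exp (ζ * v)) =
              Real.exp (r * Real.log 8 + ζ * (c₂ * t) / 2 + ζ * v) := by
            rw [Real.exp_add, Real.exp_add, hρ, ← Real.exp_neg, neg_neg]
            have h2 : Real.exp (r * Real.log 8) = (8 : ℝ) ^ r := by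
              rw [mul_comm, Real.exp_mul, Real.exp_log (by norm_num), Real.rpow_natCast]
            have h3 : (8 : ℝ) ^ r = 4 ^ r * 2 ^ r := by rw [← mul_pow]; norm_num
            rw [h2, h3]
            ring
          rw [h1]
          apply Real.exp_le_exp.2
          have h4 : (r : ℝ) ≤ D + 1 := by exact_mod_cast hr2
          have h5 : (r : ℝ) * Real.log 8 ≤ (D + 1) * Real.log 8 := by gcongr
          have h6 : 2 / q1 * ((D + 1) * Real.log 8 / ζ1 + C0) ≤ v := by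
            have : 2 / q1 * ((D + 1) * Real.log 8 / ζ1 + C0) ≤ V0 := by rw [hV0]; linarith
            linarith
          have h7 : (D + 1) * Real.log 8 / ζ1 + C0 ≤ q1 * v / 2 := by
            have h8 := mul_le_mul_of_nonneg_left h6 (show 0 ≤ q1 / 2 by positivity)
            have h9 : q1 / 2 * (2 / q1 * ((D + 1) * Real.log 8 / ζ1 + C0)) =
              (D + 1) * Real.log 8 / ζ1 + C0 := by field_simp
            rw [h9] at h8
            linarith
          have h10 : ζ * ((D + 1) * Real.log 8 / ζ1 + C0) ≤ ζ * (q1 * v / 2) := by gcongr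
          have h11 : (D + 1) * Real.log 8 ≤ ζ * ((D + 1) * Real.log 8 / ζ1) := by
            calc (D + 1) * Real.log 8 = ζ1 * ((D + 1) * Real.log 8 / ζ1) := by field_simp
              _ ≤ _ := by gcongr
          rw [hc2t]
          have h14 : ζ * ((1 + c₂ * c3 D) * v - C0) = ζ * v + ζ * (q1 * v) - ζ * C0 := by
            rw [hq1]; ring
          have h15 : ζ * ((D + 1) * Real.log 8 / ζ1 + C0) =
            ζ * ((D + 1) * Real.log 8 / ζ1) + ζ * C0 := by ring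
          rw [h14]
          rw [h15] at h10
          have h16 : ζ * (q1 * v / 2) = ζ * (q1 * v) / 2 := by ring
          rw [h16] at h10
          linarith
        · have h1 : Real.exp (-((1 + c₂ * c3 D) * v - C0)) = C' * Real.exp (-v - c₂ * t) := by
            rw [← hC0e, ← Real.exp_add]; congr 1; rw [hc2t, hq1]; ring
          rw [h1, hα, hC']
          have h2 : Real.exp (c₂ * t) * η ≤ 2 * K' * Real.exp (-v - c₂ * t) := by
            have h3 : Real.exp (c₂ * t) * η = 2 * K * Real.exp (c₂ * t - 3 * s) := by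
              rw [hη, sub_eq_add_neg, Real.exp_add]; ring
            rw [h3]
            have h4 : Real.exp (c₂ * t - 3 * s) ≤ Real.exp (-v - c₂ * t) := by
              apply Real.exp_le_exp.2
              have : 0 < ζ1 * v := by positivity
              linarith
            gcongr
          have h5 : η ≤ 2 * K' * Real.exp (-v - c₂ * t) := by
            have h6 : 1 ≤ Real.exp (c₂ * t) := Real.one_le_exp hc2t0
            have h7 : η ≤ Real.exp (c₂ * t) * η := by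
              calc η = 1 * η := (one_mul _).symm
                _ ≤ _ := by gcongr
            linarith
          have h8 : (16 * R + 50 * K') * Real.exp (-v - c₂ * t) =
            8 * (2 * R * Real.exp (-v - c₂ * t)) + 25 * (2 * K' * Real.exp (-v - c₂ * t)) := by ring
          rw [h8]
          linarith
    · right
      rw [not_nonempty_iff_eq_empty] at hne
      rw [hne]
      simp

end Sys
end Pool.Agent.TFL
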