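/-
MP_e98778_an, module L, STEP: the first inequality of the chain.

PW S c c' a b r s v = relative outer measure of E_r(s,v) in [a,b].

PAPER PROOF (STEP).  ℓ = e^{-2s}, t = c3 v, ρ = exp(-ζ_r v/(D+1)), E = Ev r (s+t) v \ GRbad Cg c₂ s t,
X = SYSbad (2ρ) s ∪ Ev r s v' ∪ ⋃_{k ∈ (r, D+1]} Ev k s v'',
v' = (1+c₂c3) v - C0, v'' = (1 - Cd ζ_r) v - C0  (C0 = max of the constants of ONE and TWO; a label
for a larger v' is a label for a smaller one ONLY if the volume bound still holds, therefore use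
TWO and ONE with their own C0 (C0a, C0b) and put them separately in the statement: see below).
For a cell Icc (u0-ℓ) (u0+ℓ) ⊆ Icc a b:
 * u0 ∈ SYSbad ρ s: the whole cell is in SYSbad (2ρ) s ⊆ X (TR.SYSbad_cell);
 * otherwise, if two points u, u' of E ∩ cell carry labels with different spans: TWO: the cell is in
   Ev k s v'' ⊆ X (hypothesis t <= 5 ζ_r v: c3_le; v <= 3(s+t));
 * otherwise all labels on E ∩ cell have the same span W: ONE: the cell is in Ev r s v' ⊆ X or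
   volume (E ∩ cell) <= C1 e^{-v/C1} ℓ.
CELL: volume (E ∩ [a,b]) <= volume (X ∩ [a,b]) + C1 e^{-v/C1}(b-a) + 2ℓ.
Ev ⊆ E ∪ GRbad; (GR): volume (GRbad ∩ [a,b]) <= Cg e^{-cg t}(b-a) for s >= s0;
(SYS): volume (SYSbad (2ρ) s ∩ [a,b]) <= Cs (2ρ)^β (b-a) for s >= s0';
2ℓ = 2 e^{-2s} <= 2 e^{-s} (b-a) when e^{-s} <= b-a, and s >= v/4 (v <= 3(s+t), t <= v/1000).
Sum the errors: <= C1' e^{-v/C1'} (b-a).
FINAL: the same with t = 5 ζ_r v, E = Ev r (s+t) v, FIN instead of ONE (no GRbad, no v' term);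
s >= v/3 - t >= v/4.
-/
import Pool.Agent.Helper45.TFL.STEP0
import Pool.Agent.Helper45.TFL.TWO
import Pool.Agent.Helper45.TFL.ONE
import Pool.Agent.Helper45.TFL.CELL

open MeasureTheory Set Module

namespace Pool.Agent.TFL
namespace Sys

/-- an outer measure bound in `[a,b]` turned into a real bound -/
private theorem h16_toReal_le {a b : ℝ} (hab : a < b) {A : Set ℝ} {y : ℝ} (hy : 0 ≤ y)
    (h : volume (A ∩ Icc a b) ≤ ENNReal.ofReal (y * (b - a))) :
    (volume (A ∩ Icc a b)).toReal / (b - a) ≤ y := by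
  have hba : 0 < b - a := by linarith
  rw [div_le_iff₀ hba]
  exact ENNReal.toReal_le_of_le_ofReal (by positivity) h

private theorem h16_ne_top {a b : ℝ} (A : Set ℝ) : volume (A ∩ Icc a b) ≠ ⊤ := by
  have h1 : volume (A ∩ Icc a b) ≤ volume (Icc a b) := measure_mono inter_subset_right
  rw [Real.volume_Icc] at h1
  exact ne_top_of_le_ne_top ENNReal.ofReal_ne_top h1

private theorem h16_key {ι : Type} {A : ENNReal} (B1 B2 G : ENNReal) (s : Finset ι)
    (f : ι → ENNReal) (p : ℝ) {q : ℝ} (hp : 0 ≤ p) (hq : 0 ≤ q) (h1 : B1 ≠ ⊤) (h2 : B2 ≠ ⊤)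
    (hf : ∀ k ∈ s, f k ≠ ⊤) (hG : G ≠ ⊤)
    (h : A ≤ (B1 + B2) + ∑ k ∈ s, f k + ENNReal.ofReal p + ENNReal.ofReal q + G) :
    A.toReal ≤ B1.toReal + B2.toReal + ∑ k ∈ s, (f k).toReal + p + q + G.toReal := by
  have hs : 0 ≤ ∑ k ∈ s, (f k).toReal := Finset.sum_nonneg fun k _ => ENNReal.toReal_nonneg
  have hb1 : 0 ≤ B1.toReal := ENNReal.toReal_nonneg
  have hb2 : 0 ≤ B2.toReal := ENNReal.toReal_nonneg
  have hg : 0 ≤ G.toReal := ENNReal.toReal_nonneg
  apply ENNReal.toReal_le_of_le_ofReal (by positivity)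
  rw [ENNReal.ofReal_add (by positivity) hg, ENNReal.ofReal_add (by positivity) hq,
    ENNReal.ofReal_add (by positivity) hp, ENNReal.ofReal_add (by positivity) hs,
    ENNReal.ofReal_add hb1 hb2, ENNReal.ofReal_toReal h1, ENNReal.ofReal_toReal h2,
    ENNReal.ofReal_toReal hG, ENNReal.ofReal_sum_of_nonneg (fun k _ => ENNReal.toReal_nonneg)]
  have h3 : ∑ k ∈ s, ENNReal.ofReal (f k).toReal = ∑ k ∈ s, f k :=
    Finset.sum_congr rfl fun k hk => ENNReal.ofReal_toReal (hf k hk)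
  rw [h3]
  exact h

private theorem h16_exp_le {v p q : ℝ} (hv : 0 ≤ v) (hp : 0 < p) (hpq : p ≤ q) :
    Real.exp (-(v / p)) ≤ Real.exp (-(v / q)) := by
  apply Real.exp_le_exp.mpr
  have := div_le_div_of_nonneg_left hv hp hpq
  linarith

theorem step (V : Type) [AddCommGroup V] [Module ℝ V] [FiniteDimensional ℝ V] (S : Sys V)
    (κ K Cn δ Cg cg c₂ Cs β : ℝ) (hκ : 0 < κ) (hCn : 0 < Cn) (hδ : 0 < δ) (hCg : 0 < Cg)
    (hcg : 0 < cg) (hc₂ : 0 < c₂) (hc₂' : c₂ ≤ 1 / 2) (hCs : 0 < Cs) (hβ : 0 < β)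
    (hNS : S.NS Cn δ) (hGR : S.GR Cg cg c₂) (hSYS : S.SYS Cs β) :
    ∃ C0 V0 : ℝ, 0 < C0 ∧ 4 * C0 ≤ V0 ∧ ∀ (c c' c'' : ℝ → ℝ) (a b : ℝ), a < b →
      Curv c c' c'' κ K a b → ∃ s₁ : ℝ, 1 ≤ s₁ ∧ ∀ (r : ℕ) (s v : ℝ),
        1 ≤ r → r ≤ finrank ℝ V + 1 → s₁ ≤ s → V0 ≤ v →
        v ≤ (3 - zeta (finrank ℝ V) 1) * (s + c3 (finrank ℝ V) * v) →
        ∃ C0a C0b : ℝ, 0 ≤ C0a ∧ C0a ≤ C0 ∧ 0 ≤ C0b ∧ C0b ≤ C0 ∧
        S.PW (S.xh c c') (zeta (finrank ℝ V)) a b r (s + c3 (finrank ℝ V) * v) v ≤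
          S.PW (S.xh c c') (zeta (finrank ℝ V)) a b r s ((1 + c₂ * c3 (finrank ℝ V)) * v - C0a)
          + ∑ k ∈ Finset.Ioc r (finrank ℝ V + 1), S.PW (S.xh c c') (zeta (finrank ℝ V)) a b k s
              ((1 - Cd (finrank ℝ V) * zeta (finrank ℝ V) r) * v - C0b)
          + C0 * Real.exp (-(v / C0)) := by
  classical
  obtain ⟨Cb, Vb, hCb, hVb, htwo⟩ := two V K
  obtain ⟨Ca, Va, C1, hCa, hVa, hC1, hone⟩ := one V K Cn δ Cg c₂ hCn hδ hCg hc₂ hc₂'
  set D := finrank ℝ V with hD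
  have hc3 := c3_pos D
  have hz1 := zeta_pos D 1
  have hrate1 : 0 < 1 / (cg * c3 D) := by positivity
  have hD1 : (0 : ℝ) < (D : ℝ) + 1 := by positivity
  have hrate2 : 0 < ((D : ℝ) + 1) / (β * zeta D 1) := by positivity
  have h2β : (0 : ℝ) < 2 ^ β := by positivity
  have hCs2 : 0 < Cs * 2 ^ β := by positivity
  set C0 : ℝ := Ca + Cb + C1 + 2 + Cg + Cs * 2 ^ β + 4 + 1 / (cg * c3 D)
    + ((D : ℝ) + 1) / (β * zeta D 1) with hC0
  have hC0pos : 0 < C0 := by positivity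
  refine ⟨C0, Va + Vb + 4 * C0, hC0pos, by linarith, ?_⟩
  intro c c' c'' a b hab hcurv
  obtain ⟨sg, hsg⟩ := hGR a b hab
  obtain ⟨ss, hss⟩ := hSYS a b hab
  refine ⟨max 1 (max sg (max ss (-Real.log (b - a)))), le_max_left _ _, ?_⟩
  intro r s v hr1 hrD hs hV hvs
  have hs1 : 1 ≤ s := le_trans (le_max_left _ _) hs
  have hs2 : sg ≤ s := le_trans (le_trans (le_max_left _ _) (le_max_right _ _)) hs
  have hs3 : ss ≤ s := le_trans (le_trans (le_trans (le_max_left _ _) (le_max_right _ _))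
    (le_max_right _ _)) hs
  have hs4 : -Real.log (b - a) ≤ s := le_trans (le_trans (le_trans (le_max_right _ _)
    (le_max_right _ _)) (le_max_right _ _)) hs
  have hba : 0 < b - a := by linarith
  have hv : 0 < v := by nlinarith
  have hVa' : Va ≤ v := by nlinarith
  have hVb' : Vb ≤ v := by nlinarith
  set t : ℝ := c3 D * v with ht
  have ht0 : 0 ≤ t := by positivity
  have hzr := zeta_pos D r
  have hz1r : zeta D 1 ≤ zeta D r := zeta_mono hr1
  have hz1s : zeta D 1 ≤ 1 / 10000 := zeta_small D 1 (by omega)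
  have ht5 : t ≤ 5 * zeta D r * v := by
    rw [ht]; exact mul_le_mul_of_nonneg_right (c3_le D r hr1) hv.le
  have hst : 0 ≤ s + t := by linarith
  have hv3 : v ≤ 3 * (s + t) := by nlinarith
  have hc3s : c3 D ≤ 1 / 1000000 := by unfold c3; linarith
  have hsv : v / 4 ≤ s := by
    have : t ≤ 1 / 1000000 * v := by rw [ht]; exact mul_le_mul_of_nonneg_right hc3s hv.le
    linarith
  set ρ : ℝ := Real.exp (-(zeta D r * v / (D + 1))) with hρ
  have hρ0 : 0 < ρ := Real.exp_pos _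
  set ℓ : ℝ := Real.exp (-(2 * s)) with hℓ
  have hℓ0 : 0 < ℓ := Real.exp_pos _
  set v' : ℝ := (1 + c₂ * c3 D) * v - Ca with hv'
  set v'' : ℝ := (1 - Cd D * zeta D r) * v - Cb with hv''
  set x := S.xh c c' with hx
  set E : Set ℝ := S.Ev x (zeta D) r (s + t) v \ S.GRbad Cg c₂ s t with hE
  set X : Set ℝ := (S.SYSbad (2 * ρ) s ∪ S.Ev x (zeta D) r s v') ∪
    ⋃ k ∈ Finset.Ioc r (D + 1), S.Ev x (zeta D) k s v'' with hX
  have hcell := cell_sum a b ℓ (C1 * Real.exp (-(v / C1))) hab hℓ0 (by positivity) E X (by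
    intro u₀ hu1 hu2
    have hu₀ : u₀ ∈ Icc a b := ⟨by linarith, by linarith⟩
    have hmem : ∀ w ∈ Icc (u₀ - ℓ) (u₀ + ℓ), w ∈ Icc a b ∧ |w - u₀| ≤ ℓ := by
      intro w hw
      refine ⟨⟨by linarith [hw.1], by linarith [hw.2]⟩, ?_⟩
      rw [abs_le]
      exact ⟨by linarith [hw.1], by linarith [hw.2]⟩
    by_cases h1 : u₀ ∈ S.SYSbad ρ s
    · left
      intro w hw
      left; left
      exact S.SYSbad_cell (hmem w hw).2 h1
    · by_cases h2 : ∃ u u' : ℝ, ∃ z z' : Fin r → V × ℝ, u ∈ Icc a b ∧ u' ∈ Icc a b ∧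
          |u - u₀| ≤ ℓ ∧ |u' - u₀| ≤ ℓ ∧
          S.IsLabel (x u) (zeta D r) (s + t) u v z ∧
          S.IsLabel (x u') (zeta D r) (s + t) u' v z' ∧ spn z ≠ spn z'
      · left
        obtain ⟨u, u', z, z', hu, hu', hul, hul', hz, hz', hne⟩ := h2
        obtain ⟨k, hk1, hk2, hk3⟩ := htwo S c c' c'' κ a b hκ hcurv r s t v u₀ u u' z z' hr1 hrD
          ht0 ht5 hv3 hVb' hu₀ hu hu' hul hul' h1 hz hz' hne
        intro w hw
        right
        simp only [mem_iUnion]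
        exact ⟨k, Finset.mem_Ioc.mpr ⟨hk1, hk2⟩, hk3 w (hmem w hw).1 (hmem w hw).2⟩
      · push Not at h2
        by_cases h3 : (E ∩ Icc (u₀ - ℓ) (u₀ + ℓ)).Nonempty
        · obtain ⟨u₁, ⟨⟨z₁, hz₁⟩, _⟩, hu₁⟩ := h3
          have h4 := hone S hNS c c' c'' κ a b hκ hcurv r s t v u₀ (spn z₁) hr1 hrD ht hvs hVa' hu₀
          rcases h4 with h4 | h4
          · left
            intro w hw
            left; right
            exact h4 w (hmem w hw).1 (hmem w hw).2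
          · right
            refine le_trans (measure_mono ?_) h4
            rintro u ⟨⟨⟨z, hz⟩, hnG⟩, hu⟩
            refine ⟨(hmem u hu).1, (hmem u hu).2, hnG, z, hz, ?_⟩
            exact h2 u u₁ z z₁ (hmem u hu).1 (hmem u₁ hu₁).1 (hmem u hu).2 (hmem u₁ hu₁).2 hz hz₁
        · right
          rw [not_nonempty_iff_eq_empty] at h3
          rw [h3, measure_empty]
          positivity)
  -- measure inequalities
  have hG := hsg s t hs2 ht0
  have hSy := hss s (2 * ρ) hs3 (by positivity)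
  have hEv : volume (S.Ev x (zeta D) r (s + t) v ∩ Icc a b) ≤
      volume (E ∩ Icc a b) + volume (S.GRbad Cg c₂ s t ∩ Icc a b) := by
    refine le_trans (measure_mono ?_) (measure_union_le _ _)
    rintro u ⟨hu1, hu2⟩
    by_cases h : u ∈ S.GRbad Cg c₂ s t
    · right; exact ⟨h, hu2⟩
    · left; exact ⟨⟨hu1, h⟩, hu2⟩
  have hXm : volume (X ∩ Icc a b) ≤ (volume (S.SYSbad (2 * ρ) s ∩ Icc a b) +
      volume (S.Ev x (zeta D) r s v' ∩ Icc a b)) +
      ∑ k ∈ Finset.Ioc r (D + 1), volume (S.Ev x (zeta D) k s v'' ∩ Icc a b) := by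
    have h1 : X ∩ Icc a b ⊆ ((S.SYSbad (2 * ρ) s ∩ Icc a b) ∪
        (S.Ev x (zeta D) r s v' ∩ Icc a b)) ∪
        ⋃ k ∈ Finset.Ioc r (D + 1), (S.Ev x (zeta D) k s v'' ∩ Icc a b) := by
      rintro u ⟨hu1, hu2⟩
      rcases hu1 with (hu1 | hu1) | hu1
      · left; left; exact ⟨hu1, hu2⟩
      · left; right; exact ⟨hu1, hu2⟩
      · right
        simp only [mem_iUnion] at hu1 ⊢
        obtain ⟨k, hk, hk'⟩ := hu1
        exact ⟨k, hk, hk', hu2⟩
    refine le_trans (measure_mono h1) (le_trans (measure_union_le _ _) ?_)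
    exact add_le_add (measure_union_le _ _) (measure_biUnion_finset_le _ _)
  have hG' := h16_toReal_le hab (A := S.GRbad Cg c₂ s t) (by positivity) hG
  have hSy' := h16_toReal_le hab (A := S.SYSbad (2 * ρ) s) (by positivity) hSy
  -- pass to the reals
  have key : (volume (S.Ev x (zeta D) r (s + t) v ∩ Icc a b)).toReal ≤
      (volume (S.SYSbad (2 * ρ) s ∩ Icc a b)).toReal +
      (volume (S.Ev x (zeta D) r s v' ∩ Icc a b)).toReal +
      ∑ k ∈ Finset.Ioc r (D + 1), (volume (S.Ev x (zeta D) k s v'' ∩ Icc a b)).toReal +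
      C1 * Real.exp (-(v / C1)) * (b - a) + 2 * ℓ +
      (volume (S.GRbad Cg c₂ s t ∩ Icc a b)).toReal := by
    have h1 : volume (S.Ev x (zeta D) r (s + t) v ∩ Icc a b) ≤
        (volume (S.SYSbad (2 * ρ) s ∩ Icc a b) +
        volume (S.Ev x (zeta D) r s v' ∩ Icc a b)) +
        ∑ k ∈ Finset.Ioc r (D + 1), volume (S.Ev x (zeta D) k s v'' ∩ Icc a b) +
        ENNReal.ofReal (C1 * Real.exp (-(v / C1)) * (b - a)) + ENNReal.ofReal (2 * ℓ) +
        volume (S.GRbad Cg c₂ s t ∩ Icc a b) := by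
      refine le_trans hEv ?_
      gcongr
      refine le_trans hcell ?_
      gcongr
    exact h16_key _ _ _ _ _ _ (by positivity) (by positivity) (h16_ne_top _) (h16_ne_top _)
      (fun k _ => h16_ne_top _) (h16_ne_top _) h1
  -- the errors
  have e1 : C1 * Real.exp (-(v / C1)) ≤ C1 * Real.exp (-(v / C0)) := by
    refine mul_le_mul_of_nonneg_left (h16_exp_le hv.le hC1 ?_) hC1.le
    rw [hC0]; linarith [hCs2, hrate1, hrate2]
  have e2 : 2 * ℓ / (b - a) ≤ 2 * Real.exp (-(v / C0)) := by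
    have h1 : Real.exp (-s) ≤ b - a := by
      rw [← Real.exp_log hba]
      exact Real.exp_le_exp.mpr (by linarith)
    have h2 : ℓ = Real.exp (-s) * Real.exp (-s) := by
      rw [hℓ, ← Real.exp_add]; congr 1; ring
    have h3 : ℓ / (b - a) ≤ Real.exp (-s) := by
      rw [div_le_iff₀ hba, h2]
      exact mul_le_mul_of_nonneg_left h1 (Real.exp_pos _).le
    have h4 : Real.exp (-s) ≤ Real.exp (-(v / 4)) := Real.exp_le_exp.mpr (by linarith)
    have h5 : Real.exp (-(v / 4)) ≤ Real.exp (-(v / C0)) := by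
      refine h16_exp_le hv.le (by norm_num) ?_
      rw [hC0]; linarith [hCs2, hrate1, hrate2]
    have h6 : 2 * ℓ / (b - a) = 2 * (ℓ / (b - a)) := by ring
    rw [h6]
    linarith
  have e3 : Cg * Real.exp (-(cg * t)) ≤ Cg * Real.exp (-(v / C0)) := by
    refine mul_le_mul_of_nonneg_left ?_ hCg.le
    have h1 : cg * t = v / (1 / (cg * c3 D)) := by rw [ht]; field_simp
    rw [h1]
    refine h16_exp_le hv.le hrate1 ?_
    rw [hC0]; linarith [hCs2, hrate1, hrate2]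
  have e4 : Cs * (2 * ρ) ^ β ≤ Cs * 2 ^ β * Real.exp (-(v / C0)) := by
    rw [Real.mul_rpow (by norm_num) hρ0.le, ← mul_assoc]
    refine mul_le_mul_of_nonneg_left ?_ hCs2.le
    have h1 : ρ ^ β = Real.exp (-(zeta D r * v / (D + 1)) * β) := by
      rw [hρ, ← Real.exp_mul]
    rw [h1]
    have h2 : Real.exp (-(zeta D r * v / (D + 1)) * β) ≤
        Real.exp (-(v / (((D : ℝ) + 1) / (β * zeta D 1)))) := by
      apply Real.exp_le_exp.mpr
      have h3 : v / (((D : ℝ) + 1) / (β * zeta D 1)) = zeta D 1 * v / (D + 1) * β := by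
        field_simp
      rw [h3]
      have h4 : zeta D 1 * v / (D + 1) ≤ zeta D r * v / (D + 1) := by gcongr
      nlinarith
    refine le_trans h2 (h16_exp_le hv.le hrate2 ?_)
    rw [hC0]; linarith [hCs2, hrate1, hrate2]
  refine ⟨Ca, Cb, hCa.le, ?_, hCb.le, ?_, ?_⟩
  · rw [hC0]; linarith [hCs2, hrate1, hrate2]
  · rw [hC0]; linarith [hCs2, hrate1, hrate2]
  · have hfin : (volume (S.Ev x (zeta D) r (s + t) v ∩ Icc a b)).toReal / (b - a) ≤
        (volume (S.SYSbad (2 * ρ) s ∩ Icc a b)).toReal / (b - a) +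
        (volume (S.Ev x (zeta D) r s v' ∩ Icc a b)).toReal / (b - a) +
        ∑ k ∈ Finset.Ioc r (D + 1), (volume (S.Ev x (zeta D) k s v'' ∩ Icc a b)).toReal / (b - a) +
        C1 * Real.exp (-(v / C1)) + 2 * ℓ / (b - a) +
        (volume (S.GRbad Cg c₂ s t ∩ Icc a b)).toReal / (b - a) := by
      rw [div_le_iff₀ hba]
      refine le_trans key (le_of_eq ?_)
      rw [← Finset.sum_div]
      field_simp
    have hexp := Real.exp_pos (-(v / C0))
    have hCC : C1 * Real.exp (-(v / C0)) + 2 * Real.exp (-(v / C0)) + Cg * Real.exp (-(v / C0))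
        + Cs * 2 ^ β * Real.exp (-(v / C0)) ≤ C0 * Real.exp (-(v / C0)) := by
      have : C1 * Real.exp (-(v / C0)) + 2 * Real.exp (-(v / C0)) + Cg * Real.exp (-(v / C0))
        + Cs * 2 ^ β * Real.exp (-(v / C0)) = (C1 + 2 + Cg + Cs * 2 ^ β) * Real.exp (-(v / C0)) := by
        ring
      rw [this]
      refine mul_le_mul_of_nonneg_right ?_ hexp.le
      rw [hC0]; linarith [hCs2, hrate1, hrate2]
    simp only [PW]
    linarith
  
end Sys
end Pool.Agent.TFL
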