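/-
MP_e98778_an, module L, MAIN: statement (II) of the plan.

PAPER PROOF.  Combine step, final (constants C0, V0: take the maximum C0, and V0 := max, note that
C0 e^{-v/C0} is increasing in C0), PW_top, PW_le_one with REC.recursion: for s >= s₂(a,b,c):
PW 1 s v <= C e^{-c v} for 0 < v <= (3-ζ1) s.
Let u ∈ [a,b], m ∈ Lam, nm (N s u)(c(u) e2 - m) <= δ'.  With xh: nm (N s u) (xh u - c(u) e2)
<= K e^{-s} <= δ' for s large, so nm (N s u)(xh u - m) <= 2δ'.  z = ![(m, 1)]: label of rank 1: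
vol = nm (F s u xh) (m,1) = sqrt(nm(xh u - m)^2 + 1) <= 2 <= e^{ζ1 v}, v = -log (2δ'), if δ' <= δ0;
on the span y = τ (m,1): len (Q y) <= |τ| 2δ' <= e^{-v} nm (F ..) y as nm (F ..) y >= |τ|.
So the set is inside Ev 1 s v, measure <= C (2δ')^c (b-a).  v <= (3-ζ1) s for s large.
For δ' > δ0 use the trivial bound b - a.
-/
import Pool.Agent.Helper45.TFL.STEP
import Pool.Agent.Helper45.TFL.FINAL
import Pool.Agent.Helper45.TFL.REC

open MeasureTheory Set Module

namespace Pool.Agent.TFL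
namespace Sys

private theorem err_mono {A B v : ℝ} (hA : 0 < A) (hAB : A ≤ B) (hv : 0 ≤ v) :
    A * Real.exp (-(v / A)) ≤ B * Real.exp (-(v / B)) := by
  have hB : 0 < B := lt_of_lt_of_le hA hAB
  have h1 : v / B ≤ v / A := div_le_div_of_nonneg_left hv hA hAB
  have h2 : Real.exp (-(v / A)) ≤ Real.exp (-(v / B)) := Real.exp_le_exp.mpr (by linarith)
  exact mul_le_mul hAB h2 (Real.exp_pos _).le hB.le

private theorem label_of {V : Type} [AddCommGroup V] [Module ℝ V] (S : Sys V) (D : ℕ)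
    {s u v δ' : ℝ} {x m : V} (hm : m ∈ S.Lam) (hδ1 : 2 * δ' ≤ 1) (hδ0 : 0 < δ')
    (hv : Real.exp (-v) = 2 * δ') (h2 : 2 ≤ Real.exp (zeta D 1 * v))
    (h : nm (S.N s u) (x - m) ≤ 2 * δ') :
    ∃ z : Fin 1 → V × ℝ, S.IsLabel x (zeta D 1) s u v z := by
  set w : V × ℝ := (m, 1) with hw
  have haff : Sys.aff x w = x - m := by
    rw [aff_apply, hw]; simp
  have hF2 : nm (S.F s u x) w ≤ 2 := by
    have h1 : nm (S.F s u x) w ^ 2 = nm (S.N s u) (x - m) ^ 2 + 1 := by
      rw [nmF_sq, haff, hw]; norm_num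
    have h3 : 0 ≤ nm (S.N s u) (x - m) := nm_nonneg _ _
    have h4 : 0 ≤ nm (S.F s u x) w := nm_nonneg _ _
    nlinarith
  refine ⟨fun _ => w, ?_, ?_, ⟨0, ?_⟩, ?_, ?_⟩
  · intro i
    exact ⟨hm, AddSubgroup.mem_zmultiples 1⟩
  · rw [linearIndependent_unique_iff]
    intro h0
    have := congrArg Prod.snd h0
    simp [hw] at this
  · simp [hw]
  · have hvol : vol (S.F s u x) (fun _ : Fin 1 => w) = nm (S.F s u x) w := by
      unfold vol nm
      congr 1
      simp
    rw [hvol]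
    exact hF2.trans h2
  · intro y hy
    have hy' : y ∈ Submodule.span ℝ {w} := by
      have : Set.range (fun _ : Fin 1 => w) = {w} := Set.range_const
      rwa [spn, this] at hy
    obtain ⟨τ, rfl⟩ := Submodule.mem_span_singleton.mp hy'
    have h5 : len (S.Q s u x (τ • w)) ≤ |τ| * (2 * δ') := by
      rw [Q_apply]
      refine (len_le_nmN S s u _).trans ?_
      rw [map_smul, haff, nm_smul (S.N_pos s u)]
      exact mul_le_mul_of_nonneg_left h (abs_nonneg _)
    have h6 : |τ| ≤ nm (S.F s u x) (τ • w) := by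
      have := abs_snd_le S s u x (τ • w)
      simpa [hw] using this
    rw [hv]
    calc len (S.Q s u x (τ • w)) ≤ |τ| * (2 * δ') := h5
      _ ≤ nm (S.F s u x) (τ • w) * (2 * δ') := mul_le_mul_of_nonneg_right h6 (by linarith)
      _ = 2 * δ' * nm (S.F s u x) (τ • w) := mul_comm _ _

theorem main_II (V : Type) [AddCommGroup V] [Module ℝ V] [FiniteDimensional ℝ V] (S : Sys V)
    (κ K Cn δ Cg cg c₂ Cs β : ℝ) (hκ : 0 < κ) (hCn : 0 < Cn) (hδ : 0 < δ) (hCg : 0 < Cg)
    (hcg : 0 < cg) (hc₂ : 0 < c₂) (hc₂' : c₂ ≤ 1 / 2) (hCs : 0 < Cs) (hβ : 0 < β)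
    (hNS : S.NS Cn δ) (hGR : S.GR Cg cg c₂) (hSYS : S.SYS Cs β) :
    ∃ C' c' : ℝ, 0 < C' ∧ 0 < c' ∧ ∀ (f f' f'' : ℝ → ℝ) (a b : ℝ), a < b →
      Curv f f' f'' κ K a b → ∀ δ' : ℝ, 0 < δ' → ∃ s₁ : ℝ, ∀ s : ℝ, s₁ ≤ s →
        volume ({u | ∃ m ∈ S.Lam, nm (S.N s u) (f u • S.e2 - m) ≤ δ'} ∩ Icc a b) ≤
          ENNReal.ofReal (C' * δ' ^ c' * (b - a)) := by
  obtain ⟨A0, W0, hA0, hW0, hstep⟩ :=
    step V S κ K Cn δ Cg cg c₂ Cs β hκ hCn hδ hCg hcg hc₂ hc₂' hCs hβ hNS hGR hSYS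
  obtain ⟨B0, Y0, hB0, hY0, hfin⟩ := final V S κ K Cn δ Cs β hκ hCn hδ hCs hβ hNS hSYS
  set D := finrank ℝ V with hD
  set C0 := max A0 B0 with hC0
  set V0 := max (max W0 Y0) (4 * C0) with hV0
  have hAC : A0 ≤ C0 := le_max_left _ _
  have hBC : B0 ≤ C0 := le_max_right _ _
  have hC0p : 0 < C0 := lt_of_lt_of_le hA0 hAC
  have hV4 : 4 * C0 ≤ V0 := le_max_right _ _
  have hWV : W0 ≤ V0 := (le_max_left _ _).trans (le_max_left _ _)
  have hYV : Y0 ≤ V0 := (le_max_right _ _).trans (le_max_left _ _)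
  have hV0p : 0 ≤ V0 := by linarith
  obtain ⟨C, cc, Λ, hC, hcc, hΛ, hrec⟩ := recursion D c₂ C0 V0 hc₂ hc₂' hC0p hV4
  have hζ : 0 < zeta D 1 := zeta_pos D 1
  have hζs : zeta D 1 ≤ 1 / 10000 := zeta_small D 1 (by omega)
  -- the threshold
  set δ0 : ℝ := min (1 / 4) (Real.exp (-(Real.log 2 / zeta D 1)) / 2) with hδ0
  have hδ0p : 0 < δ0 := lt_min (by norm_num) (by positivity)
  refine ⟨C * 2 ^ cc + δ0 ^ (-cc), cc, by positivity, hcc, ?_⟩
  intro f f' f'' a b hab hcurv δ' hδ'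
  have hba : 0 < b - a := sub_pos.mpr hab
  by_cases hbig : δ0 < δ'
  · refine ⟨0, fun s _ => ?_⟩
    calc volume ({u | ∃ m ∈ S.Lam, nm (S.N s u) (f u • S.e2 - m) ≤ δ'} ∩ Icc a b)
        ≤ volume (Icc a b) := measure_mono inter_subset_right
      _ = ENNReal.ofReal (b - a) := Real.volume_Icc
      _ ≤ _ := by
        refine ENNReal.ofReal_le_ofReal ?_
        have h1 : (1 : ℝ) ≤ (C * 2 ^ cc + δ0 ^ (-cc)) * δ' ^ cc := by
          have h2 : (1 : ℝ) ≤ δ0 ^ (-cc) * δ' ^ cc := by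
            rw [Real.rpow_neg hδ0p.le, ← div_eq_inv_mul, le_div_iff₀ (by positivity), one_mul]
            exact Real.rpow_le_rpow hδ0p.le hbig.le hcc.le
          have h3 : 0 ≤ C * 2 ^ cc * δ' ^ cc := by positivity
          nlinarith
        nlinarith
  · push Not at hbig
    have hq1 : δ' ≤ 1 / 4 := hbig.trans (min_le_left _ _)
    have hq2 : 2 * δ' ≤ Real.exp (-(Real.log 2 / zeta D 1)) := by
      have := hbig.trans (min_le_right _ _)
      linarith
    obtain ⟨s1, hs1, hst⟩ := hstep f f' f'' a b hab hcurv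
    obtain ⟨s2, hs2, hfn⟩ := hfin f f' f'' a b hab hcurv
    set v : ℝ := - Real.log (2 * δ') with hv
    have hlog : Real.log (2 * δ') < 0 := Real.log_neg (by linarith) (by linarith)
    have hvp : 0 < v := by rw [hv]; linarith
    have hexpv : Real.exp (-v) = 2 * δ' := by
      rw [hv, neg_neg, Real.exp_log (by linarith)]
    have h2v : 2 ≤ Real.exp (zeta D 1 * v) := by
      have h3 : Real.log (2 * δ') ≤ -(Real.log 2 / zeta D 1) := by
        have := Real.log_le_log (by linarith) hq2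
        rwa [Real.log_exp] at this
      have h4 : Real.log 2 ≤ zeta D 1 * v := by
        have h5 : Real.log 2 / zeta D 1 ≤ v := by rw [hv]; linarith
        calc Real.log 2 = zeta D 1 * (Real.log 2 / zeta D 1) := by field_simp
          _ ≤ zeta D 1 * v := mul_le_mul_of_nonneg_left h5 hζ.le
      calc (2 : ℝ) = Real.exp (Real.log 2) := (Real.exp_log (by norm_num)).symm
        _ ≤ _ := Real.exp_le_exp.mpr h4
    set sm := max s1 s2 with hsm
    have hsm1 : 1 ≤ sm := hs1.trans (le_max_left _ _)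
    refine ⟨max (max (Λ * sm) v) (|K| / δ'), fun s hs => ?_⟩
    have hsA : Λ * sm ≤ s := ((le_max_left _ _).trans (le_max_left _ _)).trans hs
    have hsB : v ≤ s := ((le_max_right _ _).trans (le_max_left _ _)).trans hs
    have hsC : |K| / δ' ≤ s := (le_max_right _ _).trans hs
    have hs0 : 0 < s := lt_of_lt_of_le hvp hsB
    have hKs : K * Real.exp (-s) ≤ δ' := by
      have h1 : |K| ≤ s * δ' := by rwa [div_le_iff₀ hδ'] at hsC
      have h2 : s ≤ Real.exp s := by linarith [Real.add_one_le_exp s]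
      have h3 : |K| ≤ Real.exp s * δ' := h1.trans (mul_le_mul_of_nonneg_right h2 hδ'.le)
      calc K * Real.exp (-s) ≤ |K| * Real.exp (-s) :=
            mul_le_mul_of_nonneg_right (le_abs_self K) (Real.exp_pos _).le
        _ ≤ (Real.exp s * δ') * Real.exp (-s) :=
            mul_le_mul_of_nonneg_right h3 (Real.exp_pos _).le
        _ = δ' := by
            rw [mul_right_comm, ← Real.exp_add, add_neg_cancel, Real.exp_zero, one_mul]
    set P : ℕ → ℝ → ℝ → ℝ := fun r s v => S.PW (S.xh f f') (zeta D) a b r s v with hP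
    have hRH : RecHyp D c₂ C0 V0 sm P := by
      refine ⟨fun r s v => PW_nonneg S _ _ hab r s v, fun r s v => PW_le_one S _ _ hab r s v,
        fun s v hv => PW_top S _ _ a b hv, ?_, ?_⟩
      · intro r s v hr1 hr2 hs hv hle
        obtain ⟨Ca, Cb, h1, h2, h3, h4, h5⟩ := hst r s v hr1 hr2 ((le_max_left _ _).trans hs)
          (hWV.trans hv) hle
        refine ⟨Ca, Cb, h1, h2.trans hAC, h3, h4.trans hAC, h5.trans ?_⟩
        have := err_mono hA0 hAC (hV0p.trans hv)
        simp only [hP]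
        linarith
      · intro r s v hr1 hr2 hs hv hle hle'
        obtain ⟨Cb, h3, h4, h5⟩ := hfn r s v hr1 hr2 ((le_max_right _ _).trans hs)
          (hYV.trans hv) hle hle'
        refine ⟨Cb, h3, h4.trans hBC, h5.trans ?_⟩
        have := err_mono hB0 hBC (hV0p.trans hv)
        simp only [hP]
        linarith
    have hvs : v ≤ (3 - zeta D 1) * s := by nlinarith
    have hmain := hrec P sm hsm1 hRH s v hsA hvp hvs
    have hsub : {u | ∃ m ∈ S.Lam, nm (S.N s u) (f u • S.e2 - m) ≤ δ'} ∩ Icc a b ⊆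
        S.Ev (S.xh f f') (zeta D) 1 s v ∩ Icc a b := by
      rintro u ⟨⟨m, hm, hmu⟩, hu⟩
      refine ⟨?_, hu⟩
      have h1 := xh_near S hcurv (s := s) hu
      have h2 : nm (S.N s u) (S.xh f f' u - m) ≤ 2 * δ' := by
        have h3 : S.xh f f' u - m = (S.xh f f' u - f u • S.e2) + (f u • S.e2 - m) := by abel
        rw [h3]
        refine (nm_add_le (S.N_pos s u) _ _).trans ?_
        linarith
      exact label_of S D hm (by linarith) hδ' hexpv h2v h2
    have hfinite : volume (S.Ev (S.xh f f') (zeta D) 1 s v ∩ Icc a b) ≠ ⊤ := by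
      refine ne_top_of_le_ne_top ?_ (measure_mono inter_subset_right)
      rw [Real.volume_Icc]; exact ENNReal.ofReal_ne_top
    refine (measure_mono hsub).trans ?_
    rw [← ENNReal.ofReal_toReal hfinite]
    refine ENNReal.ofReal_le_ofReal ?_
    have h7 : (volume (S.Ev (S.xh f f') (zeta D) 1 s v ∩ Icc a b)).toReal ≤
        C * Real.exp (-(cc * v)) * (b - a) := by
      simp only [hP, PW] at hmain
      rwa [div_le_iff₀ hba] at hmain
    refine h7.trans (mul_le_mul_of_nonneg_right ?_ hba.le)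
    have h8 : Real.exp (-(cc * v)) = 2 ^ cc * δ' ^ cc := by
      rw [← Real.mul_rpow (by norm_num) hδ'.le, Real.rpow_def_of_pos (by linarith), hv]
      congr 1; ring
    rw [h8]
    have h9 : 0 ≤ δ0 ^ (-cc) * δ' ^ cc := by positivity
    have h10 : (C * 2 ^ cc + δ0 ^ (-cc)) * δ' ^ cc =
        C * (2 ^ cc * δ' ^ cc) + δ0 ^ (-cc) * δ' ^ cc := by ring
    rw [h10]
    linarith

end Sys
end Pool.Agent.TFL
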