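/-
MP_e98778_an, FULL PROJECT: `mod_L` of `Helper72/TF/Skel.lean` from the abstract statement (II)
(`Sys.main_II`), for a system `Sg : Sys V` which models the surface `S` (`Model`).
-/
import Pool.Agent.Helper72.TF.Core
import Pool.Agent.Helper45.TFL.MAIN
import Pool.Agent.Helper45.TFL.GRL

set_option autoImplicit false

open MeasureTheory Set Pool.Agent.Helper87.LS Pool.Agent.Helper79.G Pool.Agent.Helper72.TF

namespace Pool.Agent.Helper45.ModL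

/-- The system `Sg` models the surface `S` (of area `ar`). -/
structure Model (S : Surf) {V : Type} [AddCommGroup V] [Module ℝ V] (Sg : TFL.Sys V) (ar : ℝ)
    (p : Coch (ofSurf S) →ₗ[ℝ] V) : Prop where
  ar_pos : 0 < ar
  surj : Function.Surjective p
  ker : ∀ x, p x = 0 ↔ (x : Fin S.n × Fin 3 → ℝ) ∈ Cob (ofSurf S)
  lam : ∀ m : V, m ∈ Sg.Lam ↔ ∃ x : Coch (ofSurf S),
    (x : Fin S.n × Fin 3 → ℝ) ∈ CochZ (ofSurf S) ∧ p x = m
  N_eq : ∀ s u x, Sg.N s u (p x) (p x) = hn2 (lev (ofSurf S) s u) x / ar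
  e2 : ∃ y : Coch (ofSurf S), (∀ h, (y : Fin S.n × Fin 3 → ℝ) h = (S.vec h).im) ∧ p y = Sg.e2
  q0 : ∀ s u x, Sg.q (p x) = 0 → qT (lev (ofSurf S) s u) x = 0

variable {S : Surf} {V : Type} [AddCommGroup V] [Module ℝ V] {Sg : TFL.Sys V} {ar : ℝ}
    {p : Coch (ofSurf S) →ₗ[ℝ] V}

/-! ### Rounding -/

/-- Finitely many reals avoid a neighbourhood of some residue class. -/
theorem exists_avoid {ι : Type} [Fintype ι] (b : ι → ℝ) (ε : ℝ)
    (hε' : 2 * ε * (Fintype.card ι + 1) < 1) :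
    ∃ θ : ℝ, ∀ i, ∀ m : ℤ, ε < |b i - θ - m| := by
  classical
  by_contra hcon
  push Not at hcon
  set N := Fintype.card ι + 1 with hN
  have hNpos : (0 : ℝ) < N := by rw [hN]; positivity
  choose f m hfm using fun j : Fin N => hcon ((j : ℝ) / N)
  have hcard : Fintype.card ι < Fintype.card (Fin N) := by rw [Fintype.card_fin]; omega
  obtain ⟨j, k, hjk, hf⟩ := Fintype.exists_ne_map_eq_of_card_lt f hcard
  have h1 := hfm j
  have h2 := hfm k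
  rw [hf] at h1
  have h3 : |((k : ℝ) - j) / N + (m k - m j : ℤ)| ≤ 2 * ε := by
    have : ((k : ℝ) - j) / N + (m k - m j : ℤ) =
        (b (f k) - (j : ℝ) / N - m j) - (b (f k) - (k : ℝ) / N - m k) := by
      push_cast; ring
    rw [this]
    refine (abs_sub _ _).trans ?_
    linarith
  have hNε : 2 * ε * N < 1 := by
    have : ((N : ℕ) : ℝ) = Fintype.card ι + 1 := by rw [hN]; push_cast; ring
    rw [this]; exact hε'
  have h4 : |(((k : ℤ) - j + (m k - m j) * N : ℤ) : ℝ)| < 1 := by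
    have : (((k : ℤ) - j + (m k - m j) * N : ℤ) : ℝ) =
        (((k : ℝ) - j) / N + (m k - m j : ℤ)) * N := by
      push_cast; field_simp
    rw [this, abs_mul, abs_of_pos hNpos]
    calc _ ≤ 2 * ε * N := mul_le_mul_of_nonneg_right h3 hNpos.le
      _ < 1 := hNε
  have h5 : ((k : ℤ) - j + (m k - m j) * N : ℤ) = 0 := by
    rw [← Int.abs_lt_one_iff]
    exact_mod_cast h4
  have h6 : (N : ℤ) ∣ (k : ℤ) - j := by
    refine ⟨-(m k - m j), ?_⟩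
    linear_combination h5
  have hk := k.2
  have hj := j.2
  have h7 : (k : ℤ) - j = 0 := by
    apply Int.eq_zero_of_abs_lt_dvd h6
    rw [abs_lt]; omega
  apply hjk
  apply Fin.ext
  omega

/-- An integer cocycle close to a coboundary is a coboundary. -/
theorem mem_cob_of_close {H : Type} [Fintype H] (T : Tri H) (x : H → ℝ) (hx : x ∈ IntF H)
    (b : H → ℝ) (hb : b ∈ Vert T) (ε : ℝ) (hε : 0 < ε)
    (hε' : 2 * ε * (Fintype.card H + 1) < 1) (h : ∀ h, |x h - dv T b h| ≤ ε) :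
    x ∈ Cob T := by
  obtain ⟨θ, hθ⟩ := exists_avoid b ε hε'
  refine ⟨fun h => (⌊b h - θ⌋ : ℝ), ?_, ?_⟩
  · intro g
    have := hb g
    simp only [this]
  · funext g
    obtain ⟨m, hm⟩ := hx g
    have hg := h g
    have h1 := hθ g ⌊b g - θ⌋
    have h2 := hθ (T.next g) ⌊b (T.next g) - θ⌋
    have h1' := hθ g (⌊b g - θ⌋ + 1)
    have h2' := hθ (T.next g) (⌊b (T.next g) - θ⌋ + 1)
    have f1 := Int.floor_le (b g - θ)
    have f2 := Int.floor_le (b (T.next g) - θ)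
    have g1 := Int.lt_floor_add_one (b g - θ)
    have g2 := Int.lt_floor_add_one (b (T.next g) - θ)
    push_cast at h1' h2'
    rw [abs_of_nonneg (by linarith)] at h1 h2
    rw [abs_of_neg (by linarith)] at h1' h2'
    have e1 : dv T b g = b (T.next g) - b g := rfl
    rw [e1] at hg
    rw [abs_le] at hg
    have key : ((⌊b (T.next g) - θ⌋ - ⌊b g - θ⌋ - m : ℤ)) = 0 := by
      rw [← Int.abs_lt_one_iff]
      have : |((⌊b (T.next g) - θ⌋ - ⌊b g - θ⌋ - m : ℤ) : ℝ)| < 1 := by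
        push_cast
        rw [abs_lt]
        constructor <;> linarith
      exact_mod_cast this
    show (⌊b (T.next g) - θ⌋ : ℝ) - (⌊b g - θ⌋ : ℝ) = x g
    rw [hm]
    have key' : ((⌊b (T.next g) - θ⌋ - ⌊b g - θ⌋ - m : ℤ) : ℝ) = 0 := by rw [key]; simp
    push_cast at key'
    linarith

/-! ### (GR) -/

theorem G_eq (hM : Model S Sg ar p) (s u : ℝ) (x : Coch (ofSurf S)) (hx : Sg.q (p x) = 0) :
    Sg.G s u (p x) (p x) = hn2 (lev (ofSurf S) s u) x / ar := by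
  rw [← hM.N_eq]
  simp [TFL.Sys.N, hx]

/-- The set of tame slopes. -/
def tame (S : Surf) (K s : ℝ) : Set ℝ := {u | TameAt S K s u}

/-- GAP on tame levels. -/
theorem gap_sys (hM : Model S Sg ar p) {K lam : ℝ}
    (hgap : ∀ Y : Surf, Y.n = S.n → Connected Y →
      (∀ e, ‖Y.vec e‖ ≤ K) → (∀ i, 1 / K ≤ Y.area2 i) →
        ∀ x ∈ Coch (ofSurf Y), qT (ofSurf Y) x = 0 → ∀ t : ℝ, 0 ≤ t → t ≤ 1 →
          hn2 (lev (ofSurf Y) t 0) x ≤
            (Real.cosh (2 * t) + lam * Real.sinh (2 * t)) * hn2 (ofSurf Y) x)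
    (s u : ℝ) (hu : u ∈ tame S K s) (x : V) (hx : Sg.q x = 0) :
    Sg.G (s + 1) u x x ≤ (Real.cosh 2 + lam * Real.sinh 2) * Sg.G s u x x := by
  obtain ⟨x', rfl⟩ := hM.surj x
  obtain ⟨Y, hYn, hYc, hYe, hYa, hE⟩ := hu
  obtain ⟨L, hL1, -, -, -, -, hL⟩ := hE.coc
  have h0 : hn2 (ofSurf Y) (L x') = hn2 (lev (ofSurf S) s u) x' ∧
      qT (ofSurf Y) (L x') = qT (lev (ofSurf S) s u) x' :=
    hL x' x'.2 (LinearEquiv.refl ℝ ℂ) (by simp) (gsu s u) (det_gsu s u) (fun z => rfl)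
  have h1 : hn2 (lev (ofSurf Y) 1 0) (L x') = hn2 (lev (ofSurf S) (s + 1) u) x' := by
    refine (hL x' x'.2 (gsu 1 0) (det_gsu 1 0) (gsu (s + 1) u) (det_gsu (s + 1) u) ?_).1
    intro z
    apply Complex.ext
    · simp only [gsu_re, gsu_im, Real.exp_add]; ring
    · simp only [gsu_im]
      rw [← mul_assoc, ← Real.exp_add]; congr 2; ring
  have hg := hgap Y hYn hYc hYe hYa (L x') (hL1 x' x'.2)
    (by rw [h0.2]; exact hM.q0 s u x' hx) 1 zero_le_one le_rfl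
  rw [h1, h0.1, mul_one] at hg
  rw [G_eq hM _ _ _ hx, G_eq hM _ _ _ hx, ← mul_div_assoc]
  exact div_le_div_of_nonneg_right hg hM.ar_pos.le

theorem gr (hM : Model S Sg ar p) {K ε C c lam : ℝ} (hlam0 : 0 ≤ lam) (hlam : lam < 1)
    (hε : 0 < ε) (hC : 0 < C) (hc : 0 < c)
    (hgap : ∀ Y : Surf, Y.n = S.n → Connected Y →
      (∀ e, ‖Y.vec e‖ ≤ K) → (∀ i, 1 / K ≤ Y.area2 i) →
        ∀ x ∈ Coch (ofSurf Y), qT (ofSurf Y) x = 0 → ∀ t : ℝ, 0 ≤ t → t ≤ 1 →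
          hn2 (lev (ofSurf Y) t 0) x ≤
            (Real.cosh (2 * t) + lam * Real.sinh (2 * t)) * hn2 (ofSurf Y) x)
    (hld : ∀ a b : ℝ, a < b → ∃ s₀ : ℝ, ∀ s : ℝ, s₀ ≤ s → ∀ N : ℕ,
      volume ({u | ({j : ℕ | j < N ∧ TameAt S K (s + j) u}.ncard : ℝ) < ε * N} ∩ Icc a b) ≤
        ENNReal.ofReal (C * Real.exp (-(c * N)) * (b - a))) :
    ∃ C' c' c₂ : ℝ, 0 < C' ∧ 0 < c' ∧ 0 < c₂ ∧ c₂ ≤ 1 / 2 ∧ Sg.GR C' c' c₂ := by
  refine Sg.gr_of_ld (tame := tame S K) hlam0 hlam hε hC hc (gap_sys hM hgap) ?_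
  intro a b hab
  obtain ⟨s₀, hs₀⟩ := hld a b hab
  refine ⟨s₀, fun s hs n => (measure_mono ?_).trans (hs₀ s hs n)⟩
  rintro u ⟨h1, h2⟩
  refine ⟨?_, h2⟩
  have : TFL.Sys.tameCount (tame S K) s n u = {j : ℕ | j < n ∧ TameAt S K (s + j) u}.ncard := by
    classical
    unfold TFL.Sys.tameCount
    rw [← Set.ncard_coe_finset]
    congr 1
    ext j
    rw [Finset.coe_filter, mem_ofPred_eq, mem_ofPred_eq, Finset.mem_range]
    exact Iff.rfl
  show ((({j : ℕ | j < n ∧ TameAt S K (s + j) u}.ncard : ℕ) : ℝ)) < ε * n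
  rw [← this]
  exact h1

/-! ### (SYS) -/

theorem sys (hM : Model S Sg ar p) {C β Cp : ℝ} (hC : 0 < C) (hβ : 0 < β) (hCp : 0 < Cp)
    (hper : ∀ K : ℝ, 1 ≤ K → ∀ Y : Surf, Y.n = S.n →
      (∀ e, ‖Y.vec e‖ ≤ K) → (∀ i, 1 / K ≤ Y.area2 i) →
      ∀ x ∈ Coch (ofSurf Y), ∃ b ∈ Vert (ofSurf Y), ∀ h,
        |x h - dv (ofSurf Y) b h| ≤ Cp * K ^ Cp * Real.sqrt (hn2 (ofSurf Y) x))
    (htail : ∀ a b : ℝ, a < b → ∃ s₀ : ℝ, ∀ s K : ℝ, s₀ ≤ s → 1 ≤ K →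
      volume ({u | ¬ TameAt S K s u} ∩ Icc a b) ≤ ENNReal.ofReal (C * K ^ (-β) * (b - a))) :
    ∃ C' β' : ℝ, 0 < C' ∧ 0 < β' ∧ Sg.SYS C' β' := by
  have har := hM.ar_pos
  set ε : ℝ := 1 / (4 * (3 * S.n + 1)) with hε
  have hε0 : 0 < ε := by positivity
  have hsar : 0 < Real.sqrt ar := Real.sqrt_pos.2 har
  refine Sg.sys_of_tail (tame := tame S) (c := ε / (Cp * Real.sqrt ar)) (p := Cp) hC
    (by positivity) hβ hCp ?_ htail
  intro K s u hK hu m hm hm0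
  obtain ⟨x, hxZ, rfl⟩ := (hM.lam m).1 hm
  obtain ⟨Y, hYn, hYc, hYe, hYa, hE⟩ := hu
  obtain ⟨L, hL1, -, hLZ, hLC, -, hL⟩ := hE.coc
  have h0 : hn2 (ofSurf Y) (L x) = hn2 (lev (ofSurf S) s u) x :=
    (hL x x.2 (LinearEquiv.refl ℝ ℂ) (by simp) (gsu s u) (det_gsu s u) (fun z => rfl)).1
  obtain ⟨b, hb, hbx⟩ := hper K hK Y hYn hYe hYa (L x) (hL1 x x.2)
  have hKp : 0 < K ^ Cp := Real.rpow_pos_of_pos (by linarith) _
  have hlow : ε ≤ Cp * K ^ Cp * Real.sqrt (hn2 (ofSurf Y) (L x)) := by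
    by_contra hcon
    push Not at hcon
    have h1 : L x ∈ Cob (ofSurf Y) := by
      refine mem_cob_of_close (ofSurf Y) (L x) ((hLZ x x.2).1 hxZ).2 b hb ε hε0 ?_
        (fun h => (hbx h).trans hcon.le)
      rw [Fintype.card_prod, Fintype.card_fin, Fintype.card_fin, hYn]
      push_cast
      rw [hε]
      have : (0 : ℝ) < 3 * S.n + 1 := by positivity
      rw [show 2 * (1 / (4 * (3 * (S.n : ℝ) + 1))) * ((S.n : ℝ) * 3 + 1) = 1 / 2 by
        field_simp; ring]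
      norm_num
    have h2 := (hLC x x.2).2 h1
    exact hm0 ((hM.ker x).2 h2)
  have hnm : TFL.nm (Sg.N s u) (p x) =
      Real.sqrt (hn2 (ofSurf Y) (L x)) / Real.sqrt ar := by
    unfold TFL.nm
    rw [hM.N_eq, ← h0, Real.sqrt_div' _ har.le]
  rw [hnm, Real.rpow_neg (by linarith), le_div_iff₀ hsar]
  rw [show ε / (Cp * Real.sqrt ar) * (K ^ Cp)⁻¹ * Real.sqrt ar = ε / (Cp * K ^ Cp) by
    field_simp]
  rw [div_le_iff₀ (by positivity)]
  calc ε ≤ _ := hlow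
    _ = _ := by ring

/-! ### The curvature -/

theorem hasDerivAt_sqrt (k u : ℝ) :
    HasDerivAt (fun u => k * Real.sqrt (1 + u ^ 2)) (k * (u / Real.sqrt (1 + u ^ 2))) u := by
  have h0 : (1 + u ^ 2) ≠ 0 := by positivity
  have h1 : HasDerivAt (fun u : ℝ => 1 + u ^ 2) (2 * u) u := by
    have := ((hasDerivAt_id u).pow 2).const_add 1
    simpa using this
  have h2 := (h1.sqrt h0).const_mul k
  refine h2.congr_deriv ?_
  have : Real.sqrt (1 + u ^ 2) ≠ 0 := by positivity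
  field_simp

theorem hasDerivAt_sqrt2 (k u : ℝ) :
    HasDerivAt (fun u => k * (u / Real.sqrt (1 + u ^ 2))) (k / Real.sqrt (1 + u ^ 2) ^ 3) u := by
  have h0 : (1 + u ^ 2) ≠ 0 := by positivity
  have hs : Real.sqrt (1 + u ^ 2) ≠ 0 := by positivity
  have h1 : HasDerivAt (fun u : ℝ => Real.sqrt (1 + u ^ 2)) (u / Real.sqrt (1 + u ^ 2)) u := by
    simpa using hasDerivAt_sqrt 1 u
  have h2 := ((hasDerivAt_id u).div h1 hs).const_mul k
  refine h2.congr_deriv ?_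
  have hsq : Real.sqrt (1 + u ^ 2) ^ 2 = 1 + u ^ 2 := Real.sq_sqrt (by positivity)
  simp only [id]
  field_simp
  rw [hsq]; ring

theorem curv (b₁ b₂ U : ℝ) (hb : 0 < b₁) (ξ : ℝ) (hξ : ξ ∈ Icc b₁ b₂) (a b : ℝ)
    (ha : -U ≤ a) (hb' : b ≤ U) :
    TFL.Curv (fun u => ξ / (2 * Real.pi) * Real.sqrt (1 + u ^ 2))
      (fun u => ξ / (2 * Real.pi) * (u / Real.sqrt (1 + u ^ 2)))
      (fun u => ξ / (2 * Real.pi) / Real.sqrt (1 + u ^ 2) ^ 3)
      (b₁ / (2 * Real.pi) / Real.sqrt (1 + U ^ 2) ^ 3) (b₂ / (2 * Real.pi)) a b := by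
  have hpi := Real.pi_pos
  have h1 : 0 < ξ := lt_of_lt_of_le hb hξ.1
  have key : ∀ u : ℝ, 1 ≤ Real.sqrt (1 + u ^ 2) := by
    intro u
    rw [Real.one_le_sqrt]
    nlinarith [sq_nonneg u]
  refine ⟨fun u _ => hasDerivAt_sqrt _ u, fun u _ => hasDerivAt_sqrt2 _ u, ?_, ?_, ?_⟩
  · intro u hu
    have h2 : Real.sqrt (1 + u ^ 2) ≤ Real.sqrt (1 + U ^ 2) := by
      apply Real.sqrt_le_sqrt
      have : u ^ 2 ≤ U ^ 2 := by
        apply sq_le_sq'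
        · linarith [hu.1]
        · linarith [hu.2]
      linarith
    have h3 := key u
    have h4 : 0 < Real.sqrt (1 + u ^ 2) := by linarith
    apply div_le_div₀ (by positivity)
      (div_le_div_of_nonneg_right hξ.1 (by positivity)) (by positivity)
    exact pow_le_pow_left₀ h4.le h2 3
  · intro u hu
    have h3 := key u
    have h5 : 1 ≤ Real.sqrt (1 + u ^ 2) ^ 3 := one_le_pow₀ h3
    refine (div_le_self (by positivity) h5).trans ?_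
    exact div_le_div_of_nonneg_right hξ.2 (by positivity)
  · intro u hu
    have h3 := key u
    have h4 : 0 < Real.sqrt (1 + u ^ 2) := by linarith
    rw [abs_mul, abs_of_pos (by positivity : 0 < ξ / (2 * Real.pi))]
    have h5 : |u / Real.sqrt (1 + u ^ 2)| ≤ 1 := by
      rw [abs_div, abs_of_pos h4, div_le_one h4]
      apply Real.le_sqrt_of_sq_le
      rw [sq_abs]; linarith
    refine (mul_le_of_le_one_right (by positivity) h5).trans ?_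
    exact div_le_div_of_nonneg_right hξ.2 (by positivity)

/-! ### `mod_L` -/

theorem mod_L_of [FiniteDimensional ℝ V] (hM : Model S Sg ar p) (hNS : ∃ C δ : ℝ, 0 < C ∧ 0 < δ ∧ Sg.NS C δ)
    (hGR : ∃ C c c₂ : ℝ, 0 < C ∧ 0 < c ∧ 0 < c₂ ∧ c₂ ≤ 1 / 2 ∧ Sg.GR C c c₂)
    (hSYS : ∃ C β : ℝ, 0 < C ∧ 0 < β ∧ Sg.SYS C β)
    (b₁ b₂ U : ℝ) (hb : 0 < b₁) :
    ∃ C c : ℝ, 0 < C ∧ 0 < c ∧ ∀ δ : ℝ, 0 < δ → δ < 1 → ∀ a b : ℝ, -U ≤ a → a < b → b ≤ U →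
      ∀ ξ ∈ Icc b₁ b₂, ∃ s₀ : ℝ, ∀ s : ℝ, s₀ ≤ s →
        volume {u ∈ Icc a b | Close S s u (ξ / (2 * Real.pi) * Real.sqrt (1 + u ^ 2)) δ} ≤
          ENNReal.ofReal (C * δ ^ c * (b - a)) := by
  have har := hM.ar_pos
  have hsar : 0 < Real.sqrt ar := Real.sqrt_pos.2 har
  obtain ⟨Cn, δn, hCn, hδn, hNS⟩ := hNS
  obtain ⟨Cg, cg, c₂, hCg, hcg, hc₂, hc₂', hGR⟩ := hGR
  obtain ⟨Cs, β, hCs, hβ, hSYS⟩ := hSYS
  have hpi := Real.pi_pos
  obtain ⟨C', c', hC', hc', H⟩ := TFL.Sys.main_II V Sg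
    (b₁ / (2 * Real.pi) / Real.sqrt (1 + U ^ 2) ^ 3) (b₂ / (2 * Real.pi)) Cn δn Cg cg c₂ Cs β
    (by positivity) hCn hδn hCg hcg hc₂ hc₂' hCs hβ hNS hGR hSYS
  refine ⟨C' * (1 / Real.sqrt ar) ^ c', c', by positivity, hc', ?_⟩
  intro δ hδ _ a b ha hab hb' ξ hξ
  obtain ⟨s₁, hs₁⟩ := H _ _ _ a b hab (curv b₁ b₂ U hb ξ hξ a b ha hb') (δ / Real.sqrt ar)
    (by positivity)
  refine ⟨s₁, fun s hs => ((measure_mono ?_).trans (hs₁ s hs)).trans (le_of_eq ?_)⟩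
  · rintro u ⟨hu, m, hm, hlt⟩
    refine ⟨?_, hu⟩
    obtain ⟨y, hy, hye⟩ := hM.e2
    set k := ξ / (2 * Real.pi) * Real.sqrt (1 + u ^ 2) with hk
    refine ⟨p ⟨m, hm.1⟩, (hM.lam _).2 ⟨⟨m, hm.1⟩, hm, rfl⟩, ?_⟩
    have e1 : k • Sg.e2 - p ⟨m, hm.1⟩ = p (k • y - ⟨m, hm.1⟩) := by
      rw [map_sub, map_smul, hye]
    show TFL.nm (Sg.N s u) (k • Sg.e2 - p ⟨m, hm.1⟩) ≤ _
    rw [e1]
    unfold TFL.nm
    rw [hM.N_eq, Real.sqrt_div' _ har.le]
    apply div_le_div_of_nonneg_right _ hsar.le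
    have e2 : ((k • y - ⟨m, hm.1⟩ : Coch (ofSurf S)) : Fin S.n × Fin 3 → ℝ) =
        fun h => k * (S.vec h).im - m h := by
      funext h
      simp [hy h]
    rw [e2]
    rw [← Real.sqrt_sq hδ.le]
    exact Real.sqrt_le_sqrt hlt.le
  · congr 1
    rw [div_eq_mul_one_div δ, Real.mul_rpow hδ.le (by positivity)]
    ring

end Pool.Agent.Helper45.ModL
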